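import Pool.Agent.U581.WW.App

/-!
# The invariance principle for common weights and orthogonal local data
-/

set_option autoImplicit false
set_option linter.unusedSectionVars false

namespace Pool.Agent.U581.WW

open Finset Filter Topology Pool.Agent.Y722.HS Pool.Agent.X280.BP Pool.Agent.X280.UC
  Pool.Agent.X280.HG MeasureTheory ProbabilityTheory Pool.Agent.U581.BM Pool.Agent.U581.FL
  Pool.Agent.U62.RB Pool.Agent.U62.CL
open scoped BoundedContinuousFunction NNReal

/-- terms with vanishing weight do not matter -/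
theorem wpath_filter (P : Finset ℕ) (v g : ℕ → ℝ) (h : ∀ p ∈ P, v p = 0 → g p = 0) :
    wpath P v g = wpath (P.filter (fun p => v p ≠ 0)) v g := by
  classical
  have e1 : ∀ f : ℕ → ℝ, (∀ p ∈ P, v p = 0 → f p = 0) →
      ∑ p ∈ P, f p = ∑ p ∈ P.filter (fun p => v p ≠ 0), f p := by
    intro f hf
    rw [Finset.sum_filter]
    refine Finset.sum_congr rfl fun p hp => ?_
    by_cases h1 : v p = 0
    · rw [if_neg (not_not.2 h1), hf p hp h1]
    · rw [if_pos h1]
  have e2 : ∀ n, ps P v n = ps (P.filter (fun p => v p ≠ 0)) v n := by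
    intro n
    unfold ps
    rw [Finset.filter_filter, Finset.sum_filter, Finset.sum_filter]
    refine Finset.sum_congr rfl fun p hp => ?_
    by_cases h1 : v p = 0
    · rw [h1]
      simp
    · by_cases h2 : p < n
      · rw [if_pos h2, if_pos ⟨h1, h2⟩]
      · rw [if_neg h2, if_neg (fun h' => h2 h'.2)]
  ext t
  rw [wpath_apply, wpath_apply, ← e1 v (fun p _ h => h)]
  simp only [← e2]
  rw [e1 _ fun p hp h1 => by rw [h p hp h1, zero_mul]]

variable {ι : Type} [Fintype ι] [DecidableEq ι] {k : ℕ}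

section

variable [MeasurableSpace C(unitInterval, ℝ)] [BorelSpace C(unitInterval, ℝ)]
  {Ω : Type*} [MeasurableSpace Ω] {ν : Measure Ω} [IsProbabilityMeasure ν]
  {W : Fin k → ℝ≥0 → Ω → ℝ} {U : Fin k → ∀ p : ℕ, (ι → ZMod p) → ℝ} {μ : Fin k → ℝ}
  {g : Fin k → Fin k → ℝ} {C B : ℝ}

/-- **orthogonal data with common weights** -/
theorem orth_main (h : LDs U μ g C) (hμ : ∀ a, |μ a| ≤ C) (s : Fin k → ℝ) (hs : ∀ a, 1 ≤ s a)
    (hg : ∀ a b, g a b = if a = b then s a else 0)
    (hB : ∀ a p, p.Prime → ∀ x, |U a p x| ≤ B * √p) (hW : IndBrown W ν)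
    (F : (Fin k → C(unitInterval, ℝ)) →ᵇ ℝ) {ε : ℝ} (hε : 0 < ε) :
    ∃ K : ℕ, ∀ (P : Finset ℕ) (w : ℕ → ℝ) (y H : ℕ), (∀ p ∈ P, p.Prime ∧ p ≤ y) → K ≤ y →
      y ^ K ≤ H → 0 < ∑ q ∈ P, w q ^ 2 → (∀ p ∈ P, K * w p ^ 2 ≤ ∑ q ∈ P, w q ^ 2) →
      |EB H (fun c => F (fun a => wpath P (fun p => w p ^ 2) fun p =>
        w p / √(s a) * (U a p (red p c) - μ a))) - ∫ ω, F (fun a => bpath (W a) ω) ∂ν| ≤ ε := by
  obtain ⟨L, hL⟩ := app_main h hμ le_rfl hB hW F hε
  refine ⟨L + 1, fun P w y H hP hy hH hV hw => ?_⟩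
  have hs0 : ∀ a, 0 < √(s a) := fun a => Real.sqrt_pos.2 (by linarith [hs a])
  have hs2 : ∀ a, √(s a) * √(s a) = s a := fun a => Real.mul_self_sqrt (by linarith [hs a])
  set P' := P.filter (fun p => w p ^ 2 ≠ 0) with hP'
  have hsum : ∑ q ∈ P', w q ^ 2 = ∑ q ∈ P, w q ^ 2 := by
    rw [hP', Finset.sum_filter]
    refine Finset.sum_congr rfl fun p _ => ?_
    by_cases h1 : w p ^ 2 = 0
    · rw [if_neg (not_not.2 h1), h1]
    · rw [if_pos h1]
  have hsub : ∀ p ∈ P', p ∈ P ∧ w p ^ 2 ≠ 0 := fun p hp => Finset.mem_filter.1 hp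
  have h1 := hL ⟨P', y, H, fun p => w p ^ 2, fun a p => w p / √(s a)⟩ (by
    refine ⟨fun p hp => hP p (hsub p hp).1, show L ≤ y by omega, ?_, ?_, ?_, ?_, ?_, ?_⟩
    · exact (Nat.pow_le_pow_right (show 0 < y by omega) (Nat.le_succ L)).trans hH
    · change 0 < ∑ q ∈ P', w q ^ 2
      rw [hsum]
      exact hV
    · intro p hp
      exact lt_of_le_of_ne (sq_nonneg _) (Ne.symm (hsub p hp).2)
    · intro p hp
      change w p ^ 2 * ((L : ℝ) + 1) ≤ ∑ q ∈ P', w q ^ 2
      rw [hsum]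
      have := hw p (hsub p hp).1
      push_cast at this
      linarith
    · intro a p _
      change (w p / √(s a)) ^ 2 ≤ 1 * w p ^ 2
      rw [one_mul, div_pow, sq (√(s a)), hs2]
      exact div_le_self (sq_nonneg _) (hs a)
    · intro a b x
      change |ps P' (fun p => w p / √(s a) * (w p / √(s b)) * g a b - if a = b then w p ^ 2 else 0) x| *
        ((L : ℝ) + 1) ≤ ∑ q ∈ P', w q ^ 2
      have e : (fun p => w p / √(s a) * (w p / √(s b)) * g a b - if a = b then w p ^ 2 else 0) =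
          fun _ => (0 : ℝ) := by
        funext p
        rw [hg]
        split_ifs with hab
        · subst hab
          have h2 : s a ≠ 0 := by linarith [hs a]
          rw [div_mul_div_comm, hs2]
          field_simp
          ring
        · ring
      rw [e]
      unfold ps
      rw [Finset.sum_const_zero, abs_zero, zero_mul, hsum]
      exact hV.le)
  have e : ∀ c : ι → ℤ, (fun a => wpath P (fun p => w p ^ 2) fun p =>
      w p / √(s a) * (U a p (red p c) - μ a)) =
      AD.Y ⟨P', y, H, fun p => w p ^ 2, fun a p => w p / √(s a)⟩ U μ c := by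
    intro c
    funext a
    unfold AD.Y
    refine wpath_filter P _ _ fun p _ h2 => ?_
    have h3 : w p = 0 := by
      have h4 : w p ^ 2 = 0 := h2
      exact pow_eq_zero_iff (two_ne_zero) |>.1 h4
    rw [h3, zero_div, zero_mul]
  simp only [e]
  exact h1

end

end Pool.Agent.U581.WW
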