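import Pool.Agent.U581.WW.Lin
import Pool.Agent.U581.WW.Wt
import Pool.Agent.U62.CL.Crit

/-!
# One process: general weights, and the weights `log p` in the linear scale
-/

set_option autoImplicit false
set_option linter.unusedSectionVars false

namespace Pool.Agent.U581.WW

open Finset Filter Topology Pool.Agent.Y722.HS Pool.Agent.X280.HG MeasureTheory ProbabilityTheory
  Pool.Agent.U581.BM Pool.Agent.U581.FL Pool.Agent.U62.CL
open scoped BoundedContinuousFunction NNReal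

variable {ι : Type} [Fintype ι] [DecidableEq ι] {U : ∀ p : ℕ, (ι → ZMod p) → ℝ} {μ C B : ℝ}
  [MeasurableSpace C(unitInterval, ℝ)] [BorelSpace C(unitInterval, ℝ)]
  {Ω : Type*} [MeasurableSpace Ω] {ν : Measure Ω} [IsProbabilityMeasure ν] {W : ℝ≥0 → Ω → ℝ}

/-- enlarging the constant -/
theorem LDs_mono {κ : Type} [Fintype κ] [DecidableEq κ] {U : κ → ∀ p : ℕ, (ι → ZMod p) → ℝ}
    {μ : κ → ℝ} {g : κ → κ → ℝ} {C C' : ℝ} (h : LDs U μ g C) (hC : C ≤ C') : LDs U μ g C' := by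
  refine ⟨h.C1.trans hC, fun a p hp _ => ?_, fun a b p hp _ => ?_, fun a p hp _ => ?_⟩
  · have hp0 : (0 : ℝ) < p := by exact_mod_cast hp.pos
    exact (h.m1 a p hp).trans (div_le_div_of_nonneg_right hC hp0.le)
  · have hp0 : (0 : ℝ) < p := by exact_mod_cast hp.pos
    exact (h.m2 a b p hp).trans (div_le_div_of_nonneg_right hC hp0.le)
  · exact (h.m4 a p hp).trans hC

/-- **general weights** -/
theorem gen_main (h : LD U μ (μ ^ 2 + 1) C) (hB : ∀ p, p.Prime → ∀ x, |U p x| ≤ B * √p)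
    (hW : IsBrownianReal W ν) (F : C(unitInterval, ℝ) →ᵇ ℝ) {ε : ℝ} (hε : 0 < ε) :
    ∃ K : ℕ, ∀ (P : Finset ℕ) (w : ℕ → ℝ) (y H : ℕ), (∀ p ∈ P, p.Prime ∧ p ≤ y) → K ≤ y →
      y ^ K ≤ H → 0 < ∑ q ∈ P, w q ^ 2 → (∀ p ∈ P, K * w p ^ 2 ≤ ∑ q ∈ P, w q ^ 2) →
      |EB H (fun c => F (wpath P (fun p => w p ^ 2) fun p => w p * (U p (red p c) - μ))) -
        ∫ ω, F (bpath W ω) ∂ν| ≤ ε := by
  have hL := LDs_mono (LDs_of h (Fin 1)) (show C + 2 ≤ C + 2 + |μ| by have := abs_nonneg μ; linarith)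
  have hC0 := h.C0
  have hWW : IndBrown (fun _ : Fin 1 => W) ν := ⟨fun _ => hW, iIndepFun.of_subsingleton⟩
  obtain ⟨K, hK⟩ := orth_main hL (fun _ => by linarith) (fun _ => 1) (fun _ => le_rfl)
    (fun a b => by rw [if_pos (Subsingleton.elim a b)]) (fun _ p hp x => hB p hp x) hWW
    (F.compContinuous ⟨fun f => f 0, continuous_apply 0⟩) hε
  refine ⟨K, fun P w y H hP hy hH hV hw => ?_⟩
  have h1 := hK P w y H hP hy hH hV hw
  simp only [Real.sqrt_one, div_one] at h1
  exact h1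

/-- the polygonal path of the sums over `p ≤ x` in the scale `x / T` -/
noncomputable def poly (T : ℕ) (s : ℝ) (g : ℕ → ℝ) : C(unitInterval, ℝ) where
  toFun t := (∑ x ∈ Finset.range T, on (PT T) g (x + 1) * cl (T * t - x)) / s
  continuous_toFun := by
    unfold cl
    fun_prop

/-- the normalisation -/
theorem norm_near {ρ : ℝ} (hρ : 0 < ρ) : ∃ T0 : ℕ, ∀ T : ℕ, T0 ≤ T →
    0 < T * Real.log T ∧ 0 < ∑ q ∈ PT T, Real.log q ^ 2 ∧
    |√(∑ q ∈ PT T, Real.log q ^ 2) / √(T * Real.log T) - 1| ≤ ρ ∧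
    ∀ x ≤ T, |ps (PT T) (fun p => Real.log p ^ 2) (x + 1) / (∑ q ∈ PT T, Real.log q ^ 2) - x / T| ≤ ρ := by
  obtain ⟨δ, hδ⟩ : ∃ δ, δ = min (ρ / 4) (1 / 2) := ⟨_, rfl⟩
  have hδ0 : 0 < δ := by rw [hδ]; positivity
  have hδ1 : δ ≤ 1 / 2 := by rw [hδ]; exact min_le_right _ _
  have hδρ : δ ≤ ρ / 4 := by rw [hδ]; exact min_le_left _ _
  obtain ⟨T0, hT0⟩ := log_sq_sum hδ0
  refine ⟨max T0 2, fun T hT => ?_⟩
  have h1 := hT0 T ((le_max_left _ _).trans hT)
  have hT2 : 2 ≤ T := (le_max_right _ _).trans hT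
  have hTr : (0 : ℝ) < T := by exact_mod_cast (by omega : 0 < T)
  have hlog : 0 < Real.log T := Real.log_pos (by exact_mod_cast (by omega : 1 < T))
  have hA : 0 < T * Real.log T := mul_pos hTr hlog
  have htop : ps (PT T) (fun p => Real.log p ^ 2) (T + 1) = ∑ q ∈ PT T, Real.log q ^ 2 := by
    refine ps_top _ fun p hp => ?_
    unfold PT at hp
    rw [Finset.mem_filter, Finset.mem_range] at hp
    exact hp.1
  have h2 := h1 T le_rfl
  rw [htop] at h2
  obtain ⟨V, hV⟩ : ∃ V, V = ∑ q ∈ PT T, Real.log (q : ℝ) ^ 2 := ⟨_, rfl⟩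
  obtain ⟨A, hAe⟩ : ∃ A, A = T * Real.log T := ⟨_, rfl⟩
  rw [← hV, ← hAe] at h2
  rw [← hAe] at hA
  rw [← hAe, ← hV]
  have h3 := abs_le.1 h2
  have hV0 : 0 < V := by nlinarith
  have hVA : V / A - 1 = (V - A) / A := by field_simp
  refine ⟨hA, hV0, ?_, fun x hx => ?_⟩
  · rw [← Real.sqrt_div hV0.le]
    have h4 : |V / A - 1| ≤ δ := by
      rw [hVA, abs_div, abs_of_pos hA, div_le_iff₀ hA]
      exact h2
    have h5 : |√(V / A) - 1| ≤ |V / A - 1| := by
      have h6 : 0 ≤ √(V / A) := Real.sqrt_nonneg _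
      have h7 : √(V / A) ^ 2 = V / A := Real.sq_sqrt (by positivity)
      have h8 : V / A - 1 = (√(V / A) - 1) * (√(V / A) + 1) := by
        calc V / A - 1 = √(V / A) ^ 2 - 1 := by rw [h7]
          _ = _ := by ring
      rw [h8, abs_mul]
      refine le_mul_of_one_le_right (abs_nonneg _) ?_
      rw [abs_of_nonneg (by linarith)]
      linarith
    linarith
  · have h4 := h1 x hx
    have h5 : |ps (PT T) (fun p => Real.log p ^ 2) (x + 1) - x / T * V| ≤ 2 * (δ * A) := by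
      have e : ps (PT T) (fun p => Real.log p ^ 2) (x + 1) - x / T * V =
          (ps (PT T) (fun p => Real.log p ^ 2) (x + 1) - x * Real.log T) - x / T * (V - A) := by
        rw [hAe]
        field_simp
        ring
      rw [e]
      refine (abs_sub _ _).trans ?_
      rw [abs_mul, ← hAe] at *
      have hx1 : |(x : ℝ) / T| ≤ 1 := by
        rw [abs_of_nonneg (by positivity), div_le_one hTr]
        exact_mod_cast hx
      have h6 : |(x : ℝ) / T| * |V - A| ≤ 1 * (δ * A) :=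
        mul_le_mul hx1 h2 (abs_nonneg _) zero_le_one
      linarith
    have e2 : ps (PT T) (fun p => Real.log p ^ 2) (x + 1) / V - x / T =
        (ps (PT T) (fun p => Real.log p ^ 2) (x + 1) - x / T * V) / V := by
      field_simp
    rw [e2, abs_div, abs_of_pos hV0, div_le_iff₀ hV0]
    have h7 : A ≤ 2 * V := by nlinarith
    calc _ ≤ 2 * (δ * A) := h5
      _ ≤ 2 * (ρ / 4 * (2 * V)) := by
          have : δ * A ≤ ρ / 4 * (2 * V) := mul_le_mul hδρ h7 hA.le (by positivity)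
          linarith
      _ = ρ * V := by ring

/-- **the weights `log p` in the linear scale** -/
theorem lin_main (h : LD U μ (μ ^ 2 + 1) C) (hB : ∀ p, p.Prime → ∀ x, |U p x| ≤ B * √p)
    (hW : IsBrownianReal W ν) (F : C(unitInterval, ℝ) →ᵇ ℝ) {ε : ℝ} (hε : 0 < ε) :
    ∃ K : ℕ, ∀ T H : ℕ, K ≤ T → T ^ K ≤ H →
      |EB H (fun c => F (poly T (√(T * Real.log T)) fun p => Real.log p * (U p (red p c) - μ))) -
        ∫ ω, F (bpath W ω) ∂ν| ≤ ε := by
  have hL := LDs_mono (LDs_of h (Fin 1)) (show C + 2 ≤ C + 2 + |μ| by have := abs_nonneg μ; linarith)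
  have hC0 := h.C0
  have hWW : IndBrown (fun _ : Fin 1 => W) ν := ⟨fun _ => hW, iIndepFun.of_subsingleton⟩
  obtain ⟨ρ, hρ, L, hK⟩ := app_time hL (fun _ => by linarith) le_rfl (fun _ p hp x => hB p hp x) hWW
    (F.compContinuous ⟨fun f => f 0, continuous_apply 0⟩) hε
  obtain ⟨T0, hT0⟩ := norm_near hρ
  obtain ⟨T1, hT1⟩ := norm_near (show (0 : ℝ) < 1 by norm_num)
  -- the largest weight
  have hbig : ∃ T2 : ℕ, ∀ T : ℕ, T2 ≤ T → Real.log T ^ 2 * (L + 1) ≤ ∑ q ∈ PT T, Real.log q ^ 2 := by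
    obtain ⟨N0, hN0⟩ := log_sq_sum (show (0 : ℝ) < 1 / 2 by norm_num)
    have h1 : Tendsto (fun n : ℕ => Real.log (n : ℝ) / n) atTop (𝓝 0) := by
      have := Real.tendsto_pow_log_div_mul_add_atTop 1 0 1 one_ne_zero
      simp only [pow_one, one_mul, add_zero] at this
      exact this.comp tendsto_natCast_atTop_atTop
    obtain ⟨N1, hN1⟩ := eventually_atTop.1 (h1.eventually (ge_mem_nhds
      (show (0 : ℝ) < 1 / (2 * ((L : ℝ) + 1)) by positivity)))
    refine ⟨max (max N0 N1) 2, fun T hT => ?_⟩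
    have h2 := hN0 T ((le_max_left _ _).trans ((le_max_left _ _).trans hT)) T le_rfl
    have h3 := hN1 T ((le_max_right _ _).trans ((le_max_left _ _).trans hT))
    have hT2 : 2 ≤ T := (le_max_right _ _).trans hT
    have hTr : (0 : ℝ) < T := by exact_mod_cast (by omega : 0 < T)
    have hlog : 0 < Real.log T := Real.log_pos (by exact_mod_cast (by omega : 1 < T))
    have htop : ps (PT T) (fun p => Real.log p ^ 2) (T + 1) = ∑ q ∈ PT T, Real.log q ^ 2 := by
      refine ps_top _ fun p hp => ?_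
      unfold PT at hp
      rw [Finset.mem_filter, Finset.mem_range] at hp
      exact hp.1
    rw [htop] at h2
    rw [div_le_div_iff₀ hTr (by positivity)] at h3
    have h4 := (abs_le.1 h2).1
    nlinarith
  obtain ⟨T2, hT2⟩ := hbig
  refine ⟨max (max T0 T1) (max T2 (L + 2)), fun T H hT hH => ?_⟩
  have hTL : L + 2 ≤ T := (le_max_right _ _).trans ((le_max_right _ _).trans hT)
  obtain ⟨n1, n2, n3, n4⟩ := hT0 T ((le_max_left _ _).trans ((le_max_left _ _).trans hT))
  have n5 := hT2 T ((le_max_left _ _).trans ((le_max_right _ _).trans hT))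
  have hprime : ∀ p ∈ PT T, p.Prime ∧ p ≤ T := by
    intro p hp
    unfold PT at hp
    rw [Finset.mem_filter, Finset.mem_range] at hp
    exact ⟨hp.2, by omega⟩
  have hv : ∀ p ∈ PT T, 0 < Real.log (p : ℝ) ^ 2 := fun p hp => by
    have : 0 < Real.log (p : ℝ) := Real.log_pos (by exact_mod_cast (hprime p hp).1.one_lt)
    positivity
  have h0 : 0 ∉ PT T := fun h => Nat.not_prime_zero (hprime 0 h).1
  have hP : ∀ p ∈ PT T, p ≤ T := fun p hp => (hprime p hp).2
  have hOk : AD.Ok (⟨PT T, T, H, fun p => Real.log p ^ 2, fun _ p => Real.log p⟩ : AD 1)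
      (fun _ _ => 1) 1 L := by
    refine ⟨hprime, show L ≤ T by omega, ?_, n2, hv, fun p hp => ?_, fun _ p _ => ?_, fun a b x => ?_⟩
    · refine (Nat.pow_le_pow_right (show 0 < T by omega) ?_).trans hH
      exact (Nat.le_add_right L 2).trans ((le_max_right _ _).trans (le_max_right _ _))
    · change Real.log (p : ℝ) ^ 2 * ((L : ℝ) + 1) ≤ ∑ q ∈ PT T, Real.log (q : ℝ) ^ 2
      refine le_trans (mul_le_mul_of_nonneg_right ?_ (by positivity)) n5
      refine pow_le_pow_left₀ (Real.log_nonneg (by exact_mod_cast (hprime p hp).1.one_lt.le)) ?_ 2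
      exact Real.log_le_log (by exact_mod_cast (hprime p hp).1.pos) (by exact_mod_cast (hprime p hp).2)
    · change Real.log (p : ℝ) ^ 2 ≤ 1 * Real.log (p : ℝ) ^ 2
      rw [one_mul]
    · change |ps (PT T) (fun p => Real.log p * Real.log p * 1 - if a = b then Real.log p ^ 2 else 0) x| *
        ((L : ℝ) + 1) ≤ ∑ q ∈ PT T, Real.log (q : ℝ) ^ 2
      have e : (fun p : ℕ => Real.log p * Real.log p * 1 - if a = b then Real.log (p : ℝ) ^ 2 else 0) =
          fun _ => (0 : ℝ) := by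
        funext p
        rw [if_pos (Subsingleton.elim a b)]
        ring
      rw [e]
      unfold ps
      rw [Finset.sum_const_zero, abs_zero, zero_mul]
      exact n2.le
  have h1 := hK _ hOk (√(∑ q ∈ PT T, Real.log (q : ℝ) ^ 2) / √(T * Real.log T)) (ltc h0 hP hv) n3
    (ltau_near h0 hP hv n2 (by omega) n4)
  have e : ∀ c : ι → ℤ, poly T (√(T * Real.log T)) (fun p => Real.log p * (U p (red p c) - μ)) =
      (√(∑ q ∈ PT T, Real.log (q : ℝ) ^ 2) / √(T * Real.log T)) •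
        (wpath (PT T) (fun p => Real.log (p : ℝ) ^ 2) fun p => Real.log p * (U p (red p c) - μ)).comp
          (ltc h0 hP hv) := by
    intro c
    rw [lin_eq h0 hP hv n2 (by omega)]
    ext t
    rw [ContinuousMap.smul_apply, smul_eq_mul]
    change (∑ x ∈ Finset.range T, on (PT T) (fun p => Real.log p * (U p (red p c) - μ)) (x + 1) *
      cl (T * t - x)) / √(T * Real.log T) = √(∑ q ∈ PT T, Real.log (q : ℝ) ^ 2) / √(T * Real.log T) *
      ((∑ x ∈ Finset.range T, on (PT T) (fun p => Real.log p * (U p (red p c) - μ)) (x + 1) *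
      cl (T * t - x)) / √(∑ q ∈ PT T, Real.log (q : ℝ) ^ 2))
    have hs := (Real.sqrt_pos.2 n2).ne'
    have hs2 := (Real.sqrt_pos.2 n1).ne'
    field_simp
  simp only [e]
  exact h1

end Pool.Agent.U581.WW
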