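import Pool.Agent.U581.WW.Scale
import Pool.Agent.U581.WW.LinMain

/-!
# The series on the critical line as processes
-/

set_option autoImplicit false
set_option linter.unusedSectionVars false

namespace Pool.Agent.U581.WW

open Finset Filter Topology Pool.Agent.Y722.HS Pool.Agent.X280.HG MeasureTheory ProbabilityTheory
  Pool.Agent.U581.BM Pool.Agent.U581.FL Pool.Agent.U62.CL
open scoped BoundedContinuousFunction NNReal

/-- the indices: the point `1/2`, and the real and imaginary parts at the other points -/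
abbrev Ky (k : ℕ) : Type := Option (Fin k × Bool)

/-- the weights -/
noncomputable def wo {k : ℕ} (t : Fin k → ℝ) : Ky k → ℕ → ℝ
  | none, p => 2 * ww 0 true p
  | some jb, p => 2 * √2 * ww (t jb.1) jb.2 p

/-- the clock -/
noncomputable def vo (p : ℕ) : ℝ := Real.log p ^ 2 / p

theorem vo_sum (N : ℕ) : ∑ p ∈ PT N, vo p = CC N 0 := by
  unfold CC vo
  refine Finset.sum_congr rfl fun p _ => ?_
  rw [zero_mul, Real.cos_zero]
  ring

theorem sq_ww (t : ℝ) (b : Bool) (p : ℕ) : ww t b p ^ 2 ≤ vo p / 4 := by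
  unfold ww vo
  rw [mul_pow, div_pow, mul_pow, Real.sq_sqrt (Nat.cast_nonneg p)]
  have h1 : (if b then Real.cos (t * Real.log p) else -Real.sin (t * Real.log p)) ^ 2 ≤ 1 := by
    split_ifs
    · exact Real.cos_sq_le_one _
    · rw [neg_sq]
      exact Real.sin_sq_le_one _
  have h2 : 0 ≤ Real.log (p : ℝ) ^ 2 / (2 ^ 2 * p) := by positivity
  calc Real.log (p : ℝ) ^ 2 / (2 ^ 2 * p) * (if b then Real.cos (t * Real.log p) else
        -Real.sin (t * Real.log p)) ^ 2 ≤ Real.log (p : ℝ) ^ 2 / (2 ^ 2 * p) * 1 :=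
        mul_le_mul_of_nonneg_left h1 h2
    _ = Real.log (p : ℝ) ^ 2 / p / 4 := by
        rw [mul_one, div_div]
        congr 1
        ring

theorem wo_sq {k : ℕ} (t : Fin k → ℝ) (o : Ky k) (p : ℕ) : wo t o p ^ 2 ≤ 2 * vo p := by
  have hv : 0 ≤ vo p := by unfold vo; positivity
  cases o with
  | none =>
    unfold wo
    have := sq_ww 0 true p
    nlinarith
  | some jb =>
    unfold wo
    have h1 := sq_ww (t jb.1) jb.2 p
    have h2 : (√2 : ℝ) ^ 2 = 2 := Real.sq_sqrt (by norm_num)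
    rw [mul_pow, mul_pow, h2]
    nlinarith

theorem small_add {f g : ℕ → ℝ} (hf : ∀ ε : ℝ, 0 < ε → ∀ᶠ N : ℕ in atTop, |f N| ≤ ε * Real.log N ^ 2)
    (hg : ∀ ε : ℝ, 0 < ε → ∀ᶠ N : ℕ in atTop, |g N| ≤ ε * Real.log N ^ 2) :
    ∀ ε : ℝ, 0 < ε → ∀ᶠ N : ℕ in atTop, |f N + g N| ≤ ε * Real.log N ^ 2 := by
  intro ε hε
  filter_upwards [hf _ (half_pos hε), hg _ (half_pos hε)] with N h1 h2
  refine (abs_add_le _ _).trans ?_
  linarith

theorem small_mul {f : ℕ → ℝ} (c : ℝ)
    (hf : ∀ ε : ℝ, 0 < ε → ∀ᶠ N : ℕ in atTop, |f N| ≤ ε * Real.log N ^ 2) :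
    ∀ ε : ℝ, 0 < ε → ∀ᶠ N : ℕ in atTop, |c * f N| ≤ ε * Real.log N ^ 2 := by
  intro ε hε
  have hc : 0 < |c| + 1 := by positivity
  filter_upwards [hf (ε / (|c| + 1)) (by positivity)] with N h1
  rw [abs_mul]
  have h2 : 0 ≤ ε / (|c| + 1) * Real.log N ^ 2 := by positivity
  calc |c| * |f N| ≤ (|c| + 1) * (ε / (|c| + 1) * Real.log N ^ 2) :=
        mul_le_mul (by linarith) h1 (abs_nonneg _) hc.le
    _ = ε * Real.log N ^ 2 := by field_simp

theorem small_CC {τ : ℝ} (hτ : τ ≠ 0) : ∀ ε : ℝ, 0 < ε → ∀ᶠ N : ℕ in atTop,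
    |CC N τ| ≤ ε * Real.log N ^ 2 := by
  intro ε hε
  filter_upwards [CC_ev τ hε] with N h
  rwa [if_neg hτ, sub_zero] at h

theorem small_SS (τ : ℝ) : ∀ ε : ℝ, 0 < ε → ∀ᶠ N : ℕ in atTop, |SS N τ| ≤ ε * Real.log N ^ 2 :=
  fun _ hε => SS_ev τ hε

theorem small_V : ∀ ε : ℝ, 0 < ε → ∀ᶠ N : ℕ in atTop,
    |∑ p ∈ PT N, vo p - Real.log N ^ 2 / 2| ≤ ε * Real.log N ^ 2 := by
  intro ε hε
  filter_upwards [CC_ev 0 hε] with N h
  rw [if_pos rfl] at h
  rw [vo_sum]
  exact h

/-- **the covariances** -/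
theorem wo_cov {k : ℕ} {t : Fin k → ℝ} (ht : ∀ i, 0 < t i) (hinj : Function.Injective t)
    (o o' : Ky k) : ∀ ε : ℝ, 0 < ε → ∀ᶠ N : ℕ in atTop,
      |∑ p ∈ PT N, (wo t o p * wo t o' p * 1 - if o = o' then vo p else 0)| ≤
        ε * Real.log N ^ 2 := by
  have hs2 : (√2 : ℝ) * √2 = 2 := Real.mul_self_sqrt (by norm_num)
  cases o with
  | none =>
    cases o' with
    | none =>
      intro ε hε
      filter_upwards with N
      have e : ∑ p ∈ PT N, (wo t none p * wo t none p * 1 - if (none : Ky k) = none then vo p else 0) =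
          0 := by
        rw [Finset.sum_sub_distrib]
        simp only [if_true]
        rw [vo_sum]
        have e2 : ∑ p ∈ PT N, wo t none p * wo t none p * 1 =
            4 * ∑ p ∈ PT N, ww 0 true p * ww 0 true p := by
          rw [Finset.mul_sum]
          refine Finset.sum_congr rfl fun p _ => ?_
          unfold wo
          ring
        rw [e2, ww_cc, sub_zero, add_zero]
        ring
      rw [e, abs_zero]
      positivity
    | some jb =>
      obtain ⟨j, b⟩ := jb
      have htj : t j ≠ 0 := (ht j).ne'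
      have htj' : 0 - t j ≠ 0 := by rw [zero_sub]; exact neg_ne_zero.2 htj
      have htj'' : 0 + t j ≠ 0 := by rw [zero_add]; exact htj
      cases b with
      | true =>
        have h1 := small_mul (4 * √2 / 8) (small_add (small_CC htj') (small_CC htj''))
        intro ε hε
        filter_upwards [h1 ε hε] with N h
        refine le_trans (le_of_eq ?_) h
        congr 1
        have e2 : ∑ p ∈ PT N, (wo t none p * wo t (some (j, true)) p * 1 -
            if (none : Ky k) = some (j, true) then vo p else 0) =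
            (4 * √2) * ∑ p ∈ PT N, ww 0 true p * ww (t j) true p := by
          rw [Finset.mul_sum]
          refine Finset.sum_congr rfl fun p _ => ?_
          rw [if_neg (by simp)]
          unfold wo
          ring
        rw [e2, ww_cc]
        ring
      | false =>
        have h1 := small_mul (4 * √2 / 8) (small_add (small_SS (0 - t j))
          (small_mul (-1) (small_SS (0 + t j))))
        intro ε hε
        filter_upwards [h1 ε hε] with N h
        refine le_trans (le_of_eq ?_) h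
        congr 1
        have e2 : ∑ p ∈ PT N, (wo t none p * wo t (some (j, false)) p * 1 -
            if (none : Ky k) = some (j, false) then vo p else 0) =
            (4 * √2) * ∑ p ∈ PT N, ww 0 true p * ww (t j) false p := by
          rw [Finset.mul_sum]
          refine Finset.sum_congr rfl fun p _ => ?_
          rw [if_neg (by simp)]
          unfold wo
          ring
        rw [e2, ww_cs]
        ring
  | some jb =>
    cases o' with
    | none =>
      obtain ⟨j, b⟩ := jb
      have htj : t j ≠ 0 := (ht j).ne'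
      have htj' : 0 - t j ≠ 0 := by rw [zero_sub]; exact neg_ne_zero.2 htj
      have htj'' : 0 + t j ≠ 0 := by rw [zero_add]; exact htj
      cases b with
      | true =>
        have h1 := small_mul (4 * √2 / 8) (small_add (small_CC htj') (small_CC htj''))
        intro ε hε
        filter_upwards [h1 ε hε] with N h
        refine le_trans (le_of_eq ?_) h
        congr 1
        have e2 : ∑ p ∈ PT N, (wo t (some (j, true)) p * wo t none p * 1 -
            if some (j, true) = (none : Ky k) then vo p else 0) =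
            (4 * √2) * ∑ p ∈ PT N, ww 0 true p * ww (t j) true p := by
          rw [Finset.mul_sum]
          refine Finset.sum_congr rfl fun p _ => ?_
          rw [if_neg (by simp)]
          unfold wo
          ring
        rw [e2, ww_cc]
        ring
      | false =>
        have h1 := small_mul (4 * √2 / 8) (small_add (small_SS (0 - t j))
          (small_mul (-1) (small_SS (0 + t j))))
        intro ε hε
        filter_upwards [h1 ε hε] with N h
        refine le_trans (le_of_eq ?_) h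
        congr 1
        have e2 : ∑ p ∈ PT N, (wo t (some (j, false)) p * wo t none p * 1 -
            if some (j, false) = (none : Ky k) then vo p else 0) =
            (4 * √2) * ∑ p ∈ PT N, ww 0 true p * ww (t j) false p := by
          rw [Finset.mul_sum]
          refine Finset.sum_congr rfl fun p _ => ?_
          rw [if_neg (by simp)]
          unfold wo
          ring
        rw [e2, ww_cs]
        ring
    | some jb' =>
      have h1 := small_mul 8 (fun ε hε => cov_ev ht hinj jb jb' (ε := ε) hε)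
      have h2 := small_mul (-(if jb = jb' then 1 else 0)) small_V
      have h3 := small_add h1 h2
      intro ε hε
      filter_upwards [h3 ε hε] with N h
      refine le_trans (le_of_eq ?_) h
      congr 1
      have e2 : ∑ p ∈ PT N, (wo t (some jb) p * wo t (some jb') p * 1 -
          if (some jb : Ky k) = some jb' then vo p else 0) =
          8 * ∑ p ∈ PT N, ww (t jb.1) jb.2 p * ww (t jb'.1) jb'.2 p * 1 -
            (if jb = jb' then 1 else 0) * ∑ p ∈ PT N, vo p := by
        rw [Finset.sum_sub_distrib, Finset.mul_sum, Finset.mul_sum]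
        congr 1
        · refine Finset.sum_congr rfl fun p _ => ?_
          unfold wo
          calc 2 * √2 * ww (t jb.1) jb.2 p * (2 * √2 * ww (t jb'.1) jb'.2 p) * 1 =
              4 * (√2 * √2) * (ww (t jb.1) jb.2 p * ww (t jb'.1) jb'.2 p) := by ring
            _ = _ := by rw [hs2]; ring
        · refine Finset.sum_congr rfl fun p _ => ?_
          by_cases h4 : jb = jb'
          · rw [if_pos (by rw [h4]), if_pos h4, one_mul]
          · rw [if_neg (fun h5 => h4 (Option.some.inj h5)), if_neg h4, zero_mul]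
      rw [e2]
      split_ifs <;> ring

/-- uniformity -/
theorem unif {S : ℕ → ℝ} (h : ∀ ε : ℝ, 0 < ε → ∀ᶠ N : ℕ in atTop, |S N| ≤ ε * Real.log N ^ 2)
    {ε : ℝ} (hε : 0 < ε) : ∃ T0 : ℕ, ∀ T : ℕ, T0 ≤ T → ∀ n ≤ T, |S n| ≤ ε * Real.log T ^ 2 := by
  obtain ⟨N0, hN0⟩ := eventually_atTop.1 (h ε hε)
  obtain ⟨M, hM⟩ : ∃ M, M = ∑ n ∈ Finset.range N0, |S n| := ⟨_, rfl⟩
  have hM0 : 0 ≤ M := by rw [hM]; positivity
  obtain ⟨T1, hT1⟩ := log_large 0 M le_rfl hM0 hε
  refine ⟨max T1 1, fun T hT n hn => ?_⟩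
  have h1 := hT1 T ((le_max_left _ _).trans hT)
  have hT0 : 1 ≤ T := (le_max_right _ _).trans hT
  rcases le_or_gt N0 n with h2 | h2
  · refine (hN0 n h2).trans (mul_le_mul_of_nonneg_left ?_ hε.le)
    rcases Nat.eq_zero_or_pos n with h3 | h3
    · subst h3
      rw [Nat.cast_zero, Real.log_zero, zero_pow two_ne_zero]
      positivity
    · refine pow_le_pow_left₀ (Real.log_nonneg (by exact_mod_cast h3)) ?_ 2
      exact Real.log_le_log (by exact_mod_cast h3) (by exact_mod_cast hn)
  · have h3 : |S n| ≤ M := by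
      rw [hM]
      exact Finset.single_le_sum (f := fun n => |S n|) (fun _ _ => abs_nonneg _) (Finset.mem_range.2 h2)
    linarith

theorem ps_PT (T : ℕ) (f : ℕ → ℝ) (x : ℕ) : ps (PT T) f x = ∑ p ∈ PT (min (x - 1) T), f p := by
  unfold ps PT
  rw [Finset.filter_filter]
  refine Finset.sum_congr ?_ fun _ _ => rfl
  ext p
  simp only [Finset.mem_filter, Finset.mem_range]
  constructor
  · rintro ⟨h1, h2, h3⟩
    exact ⟨by omega, h2⟩
  · rintro ⟨h1, h2⟩
    have := h2.pos
    exact ⟨by omega, h2, by omega⟩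

/-- the logarithmic scale -/
noncomputable def lsc (T x : ℕ) : ℝ := (Real.log x / Real.log T) ^ 2

theorem lsc_sc {T : ℕ} (hT : 2 ≤ T) : Sc (lsc T) 1 T := by
  have hlog : 0 < Real.log T := Real.log_pos (by exact_mod_cast (by omega : 1 < T))
  refine ⟨by omega, ?_, ?_, fun x h1 h2 => ?_⟩
  · unfold lsc
    simp
  · unfold lsc
    rw [div_self hlog.ne', one_pow]
  · unfold lsc
    have h3 : (1 : ℝ) ≤ x := by exact_mod_cast h1
    have h4 : 0 ≤ Real.log x := Real.log_nonneg h3
    have h5 : Real.log x < Real.log ((x + 1 : ℕ) : ℝ) :=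
      Real.log_lt_log (by linarith) (by push_cast; linarith)
    apply pow_lt_pow_left₀ _ (by positivity) two_ne_zero
    exact div_lt_div_of_pos_right h5 hlog

section

variable {ι : Type} [Fintype ι] [DecidableEq ι] {U : ∀ p : ℕ, (ι → ZMod p) → ℝ} {μ C B : ℝ}
  [MeasurableSpace C(unitInterval, ℝ)] [BorelSpace C(unitInterval, ℝ)]
  {Ω : Type*} [MeasurableSpace Ω] {ν : Measure Ω} [IsProbabilityMeasure ν]

/-- **the series on the critical line as processes** -/
theorem crit_proc (h : LD U μ (μ ^ 2 + 1) C) (hB : ∀ p, p.Prime → ∀ x, |U p x| ≤ B * √p) {k : ℕ}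
    {t : Fin k → ℝ} (ht : ∀ i, 0 < t i) (hinj : Function.Injective t)
    {W : Ky k → ℝ≥0 → Ω → ℝ} (hW : ∀ o, IsBrownianReal (W o) ν)
    (hI : iIndepFun (fun o ω s => W o s ω) ν)
    (F : (Ky k → C(unitInterval, ℝ)) →ᵇ ℝ) {ε : ℝ} (hε : 0 < ε) :
    ∃ K : ℕ, ∀ T H : ℕ, K ≤ T → T ^ K ≤ H →
      |EB H (fun c => F (fun o => gpoly (PT T) (lsc T) 1 T (Real.log T / √2) fun p =>
        wo t o p * (U p (red p c) - μ))) - ∫ ω, F (fun o => bpath (W o) ω) ∂ν| ≤ ε := by
  classical
  obtain ⟨e, -⟩ : ∃ e : Ky k ≃ Fin (Fintype.card (Ky k)), True := ⟨Fintype.equivFin _, trivial⟩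
  have hL := LDs_mono (LDs_of h (Fin (Fintype.card (Ky k))))
    (show C + 2 ≤ C + 2 + |μ| by have := abs_nonneg μ; linarith)
  have hC0 := h.C0
  have hWW : IndBrown (fun a => W (e.symm a)) ν :=
    ⟨fun a => hW _, hI.precomp e.symm.injective⟩
  let Φ : C(Fin (Fintype.card (Ky k)) → C(unitInterval, ℝ), Ky k → C(unitInterval, ℝ)) :=
    ⟨fun X o => X (e o), by fun_prop⟩
  obtain ⟨ρ, hρ, L, hK⟩ := app_time hL (fun _ => by linarith) (show (1 : ℝ) ≤ 2 by norm_num)
    (fun _ p hp x => hB p hp x) hWW (F.compContinuous Φ) hε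
  -- the levels
  obtain ⟨δ, hδ⟩ : ∃ δ, δ = min (min (ρ / 8) (1 / 4)) (1 / (4 * ((L : ℝ) + 1))) := ⟨_, rfl⟩
  have hδ0 : 0 < δ := by rw [hδ]; positivity
  have hδ1 : δ ≤ 1 / 4 := by rw [hδ]; exact (min_le_left _ _).trans (min_le_right _ _)
  have hδρ : δ ≤ ρ / 8 := by rw [hδ]; exact (min_le_left _ _).trans (min_le_left _ _)
  have hδL : δ ≤ 1 / (4 * ((L : ℝ) + 1)) := by rw [hδ]; exact min_le_right _ _
  have hLr : (0 : ℝ) < (L : ℝ) + 1 := by positivity
  obtain ⟨T1, hT1⟩ := unif small_V hδ0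
  choose T2 hT2 using fun oo : Ky k × Ky k => unif (wo_cov ht hinj oo.1 oo.2) hδ0
  obtain ⟨T3, hT3⟩ := log_large 0 (4 * ((L : ℝ) + 1)) le_rfl (by positivity)
    (show (0 : ℝ) < 1 / 4 by norm_num)
  refine ⟨max (max T1 T3) (max (Finset.univ.sup T2) (L + 2)), fun T H hT hH => ?_⟩
  have g1 : T1 ≤ T := (le_max_left _ _).trans ((le_max_left _ _).trans hT)
  have g3 : T3 ≤ T := (le_max_right _ _).trans ((le_max_left _ _).trans hT)
  have g2 : Finset.univ.sup T2 ≤ T := (le_max_left _ _).trans ((le_max_right _ _).trans hT)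
  have g4 : L + 2 ≤ T := (le_max_right _ _).trans ((le_max_right _ _).trans hT)
  have hcov : ∀ o o' : Ky k, ∀ n ≤ T,
      |∑ p ∈ PT n, (wo t o p * wo t o' p * 1 - if o = o' then vo p else 0)| ≤ δ * Real.log T ^ 2 :=
    fun o o' n hn => hT2 (o, o') T ((Finset.le_sup (f := T2) (Finset.mem_univ (o, o'))).trans g2) n hn
  have hlog : 0 < Real.log T := Real.log_pos (by exact_mod_cast (by omega : 1 < T))
  obtain ⟨l, hl⟩ : ∃ l, l = Real.log (T : ℝ) ^ 2 := ⟨_, rfl⟩
  have hl0 : 0 < l := by rw [hl]; positivity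
  have hT3' := hT3 T g3
  rw [zero_mul, zero_add, ← hl] at hT3'
  have hV1 := hT1 T g1 T le_rfl
  obtain ⟨V, hV⟩ : ∃ V, V = ∑ q ∈ PT T, vo q := ⟨_, rfl⟩
  rw [← hV, ← hl] at hV1
  have hV2 := abs_le.1 hV1
  have hVl : l / 4 ≤ V := by nlinarith
  have hV0 : 0 < V := by linarith
  have hprime : ∀ p ∈ PT T, p.Prime ∧ p ≤ T := by
    intro p hp
    unfold PT at hp
    rw [Finset.mem_filter, Finset.mem_range] at hp
    exact ⟨hp.2, by omega⟩
  have hv : ∀ p ∈ PT T, 0 < vo p := fun p hp => by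
    have h1 : 0 < Real.log (p : ℝ) := Real.log_pos (by exact_mod_cast (hprime p hp).1.one_lt)
    have h2 : (0 : ℝ) < p := by exact_mod_cast (hprime p hp).1.pos
    unfold vo
    positivity
  have hv4 : ∀ p ∈ PT T, vo p ≤ 4 := fun p hp => by
    have hp1 : 1 ≤ p := (hprime p hp).1.one_lt.le
    have hp0 : (0 : ℝ) < p := by exact_mod_cast hp1
    have h1 := log_le_sqrt hp1
    have h2 : 0 ≤ Real.log (p : ℝ) := Real.log_nonneg (by exact_mod_cast hp1)
    unfold vo
    rw [div_le_iff₀ hp0]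
    calc Real.log (p : ℝ) ^ 2 ≤ (2 * √p) ^ 2 := pow_le_pow_left₀ h2 h1 2
      _ = 4 * p := by rw [mul_pow, Real.sq_sqrt hp0.le]; ring
  have hP : ∀ p ∈ PT T, 1 < p ∧ p ≤ T := fun p hp => ⟨(hprime p hp).1.one_lt, (hprime p hp).2⟩
  have hOk : AD.Ok (⟨PT T, T, H, vo, fun a p => wo t (e.symm a) p⟩ :
      AD (Fintype.card (Ky k))) (fun _ _ => 1) 2 L := by
    refine ⟨hprime, show L ≤ T by omega, ?_, ?_, hv, fun p hp => ?_, fun a p _ => ?_, fun a b x => ?_⟩
    · refine (Nat.pow_le_pow_right (show 0 < T by omega) ?_).trans hH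
      exact (Nat.le_add_right L 2).trans ((le_max_right _ _).trans (le_max_right _ _))
    · change 0 < ∑ q ∈ PT T, vo q
      rw [← hV]
      exact hV0
    · change vo p * ((L : ℝ) + 1) ≤ ∑ q ∈ PT T, vo q
      rw [← hV]
      have := mul_le_mul_of_nonneg_right (hv4 p hp) hLr.le
      linarith
    · exact wo_sq t (e.symm a) p
    · change |ps (PT T) (fun p => wo t (e.symm a) p * wo t (e.symm b) p * 1 -
        if a = b then vo p else 0) x| * ((L : ℝ) + 1) ≤ ∑ q ∈ PT T, vo q
      rw [← hV, ps_PT]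
      have h1 := hcov (e.symm a) (e.symm b) (min (x - 1) T) (min_le_right _ _)
      have e1 : ∑ p ∈ PT (min (x - 1) T), (wo t (e.symm a) p * wo t (e.symm b) p * 1 -
          if a = b then vo p else 0) = ∑ p ∈ PT (min (x - 1) T),
          (wo t (e.symm a) p * wo t (e.symm b) p * 1 - if e.symm a = e.symm b then vo p else 0) := by
        refine Finset.sum_congr rfl fun p _ => ?_
        simp only [EmbeddingLike.apply_eq_iff_eq]
      rw [e1]
      rw [← hl] at h1
      have h2 : δ * l * ((L : ℝ) + 1) ≤ l / 4 := by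
        have h3 : δ * ((L : ℝ) + 1) ≤ 1 / 4 := by
          rw [le_div_iff₀ (by positivity)] at hδL
          linarith
        nlinarith
      have h4 := mul_le_mul_of_nonneg_right h1 hLr.le
      linarith
  have hr : |√V / (Real.log T / √2) - 1| ≤ ρ := by
    have hs : 0 < Real.log T / √2 := by positivity
    have h1 : (√V / (Real.log T / √2)) ^ 2 = 2 * V / l := by
      rw [div_pow, div_pow, Real.sq_sqrt hV0.le, Real.sq_sqrt (by norm_num), hl]
      field_simp
    obtain ⟨z, hz⟩ : ∃ z, z = √V / (Real.log T / √2) := ⟨_, rfl⟩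
    have hz0 : 0 ≤ z := by rw [hz]; positivity
    rw [← hz] at h1 ⊢
    have h2 : |z ^ 2 - 1| ≤ 2 * δ := by
      rw [h1]
      have e1 : 2 * V / l - 1 = 2 * (V - l / 2) / l := by
        field_simp
      rw [e1, abs_div, abs_of_pos hl0, div_le_iff₀ hl0, abs_mul, abs_of_pos (by norm_num : (0:ℝ) < 2)]
      linarith
    have h3 : |z - 1| ≤ |z ^ 2 - 1| := by
      have e2 : z ^ 2 - 1 = (z - 1) * (z + 1) := by ring
      rw [e2, abs_mul]
      refine le_mul_of_one_le_right (abs_nonneg _) ?_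
      rw [abs_of_nonneg (by linarith)]
      linarith
    linarith
  have hsc := lsc_sc (T := T) (by omega)
  have hnear : ∀ x, 1 ≤ x → x ≤ T → |ps (PT T) vo (x + 1) / (∑ q ∈ PT T, vo q) - lsc T x| ≤ ρ := by
    intro x hx1 hx
    rw [← hV, ps_PT, Nat.add_sub_cancel, min_eq_left hx]
    have h1 := hT1 T g1 x hx
    rw [← hl] at h1
    obtain ⟨Vx, hVx⟩ : ∃ Vx, Vx = ∑ p ∈ PT x, vo p := ⟨_, rfl⟩
    rw [← hVx] at h1 ⊢
    obtain ⟨lx, hlx⟩ : ∃ lx, lx = Real.log (x : ℝ) ^ 2 := ⟨_, rfl⟩
    rw [← hlx] at h1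
    have hxr : (1 : ℝ) ≤ x := by exact_mod_cast hx1
    have hlx0 : 0 ≤ lx := by rw [hlx]; positivity
    have hlxl : lx ≤ l := by
      rw [hlx, hl]
      refine pow_le_pow_left₀ (Real.log_nonneg hxr) ?_ 2
      exact Real.log_le_log (by linarith) (by exact_mod_cast hx)
    have e1 : lsc T x = lx / l := by
      unfold lsc
      rw [div_pow, hlx, hl]
    rw [e1]
    have e2 : Vx / V - lx / l = ((Vx - lx / 2) * l - (V - l / 2) * lx) / (V * l) := by
      field_simp
      ring
    rw [e2, abs_div, abs_of_pos (by positivity : 0 < V * l), div_le_iff₀ (by positivity)]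
    have h2 : |(Vx - lx / 2) * l - (V - l / 2) * lx| ≤ (δ * l) * l + (δ * l) * l := by
      refine (abs_sub _ _).trans ?_
      rw [abs_mul, abs_mul, abs_of_pos hl0, abs_of_nonneg hlx0]
      exact add_le_add (mul_le_mul_of_nonneg_right h1 hl0.le)
        (mul_le_mul hV1 hlxl hlx0 (by positivity))
    refine h2.trans ?_
    have h3 : 2 * δ * l ≤ ρ * V := by nlinarith
    nlinarith
  have hV' : 0 < ∑ q ∈ PT T, vo q := by rw [← hV]; exact hV0
  have h1 := hK _ hOk (√V / (Real.log T / √2)) (gtc hsc hP hv) hr (gtau_near hsc hP hv hnear)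
  have e3 : ∫ ω, (F.compContinuous Φ) (fun a => bpath (W (e.symm a)) ω) ∂ν =
      ∫ ω, F (fun o => bpath (W o) ω) ∂ν := by
    congr 1
    funext ω
    change F _ = F _
    congr 1
    funext o
    change bpath (W (e.symm (e o))) ω = _
    rw [Equiv.symm_apply_apply]
  rw [e3] at h1
  refine le_trans (le_of_eq ?_) h1
  congr 2
  congr 1
  funext c
  change F _ = F _
  congr 1
  funext o
  change gpoly (PT T) (lsc T) 1 T (Real.log T / √2) (fun p => wo t o p * (U p (red p c) - μ)) =
    (√V / (Real.log T / √2)) • (wpath (PT T) vo fun p =>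
      wo t (e.symm (e o)) p * (U p (red p c) - μ)).comp (gtc hsc hP hv)
  rw [Equiv.symm_apply_apply, gpoly_eq hsc hP hv hV', ← hV]
  ext u
  rw [ContinuousMap.smul_apply, smul_eq_mul]
  change (∑ x ∈ Finset.Ico 1 T, on (PT T) (fun p => wo t o p * (U p (red p c) - μ)) (x + 1) *
    ck (lsc T) u x) / (Real.log T / √2) = √V / (Real.log T / √2) *
    ((∑ x ∈ Finset.Ico 1 T, on (PT T) (fun p => wo t o p * (U p (red p c) - μ)) (x + 1) *
    ck (lsc T) u x) / √V)
  have hs := (Real.sqrt_pos.2 hV0).ne'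
  have hs2 : (√2 : ℝ) ≠ 0 := by positivity
  field_simp

end

end Pool.Agent.U581.WW
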