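import Pool.Agent.U581.WW.Main
import Pool.Agent.U62.CL.Ix

/-!
# The invariance principle for weighted sums of local data with moments
-/

set_option autoImplicit false
set_option linter.unusedSectionVars false

namespace Pool.Agent.U581.WW

open Finset Filter Topology Pool.Agent.Y722.HS Pool.Agent.X280.BP Pool.Agent.X280.UC
  Pool.Agent.X280.HG MeasureTheory ProbabilityTheory Pool.Agent.U581.BM Pool.Agent.U581.FL
  Pool.Agent.U62.RB Pool.Agent.U62.CL
open scoped BoundedContinuousFunction NNReal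

variable {ι : Type} [Fintype ι] [DecidableEq ι] {k : ℕ}

/-- weights and clocks -/
structure AD (k : ℕ) where
  P : Finset ℕ
  y : ℕ
  H : ℕ
  v : ℕ → ℝ
  w : Fin k → ℕ → ℝ

/-- the total variance -/
noncomputable def AD.V (D : AD k) : ℝ := ∑ q ∈ D.P, D.v q

/-- admissible weights and clocks of level `L` -/
structure AD.Ok (D : AD k) (g : Fin k → Fin k → ℝ) (C0 : ℝ) (L : ℕ) : Prop where
  prime : ∀ p ∈ D.P, p.Prime ∧ p ≤ D.y
  large : L ≤ D.y
  high : D.y ^ L ≤ D.H
  pos : 0 < D.V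
  v0 : ∀ p ∈ D.P, 0 < D.v p
  vL : ∀ p ∈ D.P, D.v p * (L + 1) ≤ D.V
  wv : ∀ a, ∀ p ∈ D.P, D.w a p ^ 2 ≤ C0 * D.v p
  cov : ∀ a b x, |ps D.P (fun p => D.w a p * D.w b p * g a b - if a = b then D.v p else 0) x| *
    (L + 1) ≤ D.V

theorem AD.Ok.mono {D : AD k} {g : Fin k → Fin k → ℝ} {C0 : ℝ} {K L : ℕ} (h : D.Ok g C0 L)
    (hKL : K ≤ L) : D.Ok g C0 K := by
  have h1 : (K : ℝ) ≤ L := by exact_mod_cast hKL
  refine ⟨h.prime, hKL.trans h.large, ?_, h.pos, h.v0, fun p hp => le_trans ?_ (h.vL p hp), h.wv,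
    fun a b x => le_trans ?_ (h.cov a b x)⟩
  · rcases Nat.eq_zero_or_pos D.y with h0 | h0
    · have : L = 0 := by have := h.large; omega
      have : K = 0 := by omega
      subst this
      have h2 := h.high
      rw [‹L = 0›] at h2
      exact h2
    · exact (Nat.pow_le_pow_right h0 hKL).trans h.high
  · exact mul_le_mul_of_nonneg_left (by linarith) (h.v0 p hp).le
  · exact mul_le_mul_of_nonneg_left (by linarith) (abs_nonneg _)

/-- the centred data -/
noncomputable def AD.toWD (D : AD k) (U : Fin k → ∀ p : ℕ, (ι → ZMod p) → ℝ) : WD ι k :=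
  ⟨D.P, D.y, D.H, D.v, fun a p x => D.w a p * (U a p x - EMt p (U a p))⟩

/-- the small primes -/
theorem card_small {D : AD k} {g : Fin k → Fin k → ℝ} {C0 : ℝ} {L : ℕ} (h : D.Ok g C0 L) (M : ℕ) :
    ((D.P.filter (fun p => p ≤ M)).card : ℝ) ≤ M := by
  have h1 : D.P.filter (fun p => p ≤ M) ⊆ Finset.Icc 1 M := by
    intro p hp
    rw [Finset.mem_filter] at hp
    rw [Finset.mem_Icc]
    exact ⟨(h.prime p hp.1).1.pos, hp.2⟩
  have h2 := Finset.card_le_card h1
  rw [Nat.card_Icc, Nat.add_sub_cancel] at h2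
  exact_mod_cast h2

/-- `∑ v p / p` is small -/
theorem sum_vp {D : AD k} {g : Fin k → Fin k → ℝ} {C0 : ℝ} {L : ℕ} (h : D.Ok g C0 L) {M : ℕ}
    (hM : 1 ≤ M) : ∑ p ∈ D.P, D.v p / p ≤ D.V * (M / (L + 1) + 1 / M) := by
  have hV := h.pos
  have hL : (0 : ℝ) < (L : ℝ) + 1 := by positivity
  have hMr : (1 : ℝ) ≤ M := by exact_mod_cast hM
  rw [← Finset.sum_filter_add_sum_filter_not D.P (fun p => p ≤ M)]
  have h1 : ∑ p ∈ D.P.filter (fun p => p ≤ M), D.v p / p ≤ D.V * (M / (L + 1)) := by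
    calc ∑ p ∈ D.P.filter (fun p => p ≤ M), D.v p / p
        ≤ ∑ _p ∈ D.P.filter (fun p => p ≤ M), D.V / (L + 1) := by
          refine Finset.sum_le_sum fun p hp => ?_
          have hpP := (Finset.mem_filter.1 hp).1
          have hp1 : (1 : ℝ) ≤ p := by exact_mod_cast (h.prime p hpP).1.one_lt.le
          refine (div_le_self (h.v0 p hpP).le hp1).trans ?_
          rw [le_div_iff₀ hL]
          exact h.vL p hpP
      _ = ((D.P.filter (fun p => p ≤ M)).card : ℝ) * (D.V / (L + 1)) := by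
          rw [Finset.sum_const, nsmul_eq_mul]
      _ ≤ M * (D.V / (L + 1)) := mul_le_mul_of_nonneg_right (card_small h M) (by positivity)
      _ = _ := by ring
  have h2 : ∑ p ∈ D.P.filter (fun p => ¬ p ≤ M), D.v p / p ≤ D.V * (1 / M) := by
    calc ∑ p ∈ D.P.filter (fun p => ¬ p ≤ M), D.v p / p
        ≤ ∑ p ∈ D.P.filter (fun p => ¬ p ≤ M), D.v p / M := by
          refine Finset.sum_le_sum fun p hp => ?_
          obtain ⟨hpP, hpM⟩ := Finset.mem_filter.1 hp
          have hpM' : (M : ℝ) ≤ p := by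
            have : M ≤ p := by omega
            exact_mod_cast this
          exact div_le_div_of_nonneg_left (h.v0 p hpP).le (by linarith) hpM'
      _ ≤ ∑ p ∈ D.P, D.v p / M := by
          refine Finset.sum_le_sum_of_subset_of_nonneg (Finset.filter_subset _ _) fun p hp _ => ?_
          have := (h.v0 p hp).le
          positivity
      _ = _ := by
          unfold AD.V
          rw [← Finset.sum_div]
          ring
  calc _ ≤ D.V * (M / (L + 1)) + D.V * (1 / M) := add_le_add h1 h2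
    _ = _ := by ring

/-- `∑ √(v p) / p` is small -/
theorem sum_sq_vp {D : AD k} {g : Fin k → Fin k → ℝ} {C0 : ℝ} {L : ℕ} (h : D.Ok g C0 L) {M : ℕ}
    (hM : 1 ≤ M) : ∑ p ∈ D.P, √(D.v p) / p ≤ √D.V * (M / √(L + 1) + 2 / √M) := by
  have hV := h.pos
  have hL : (0 : ℝ) < (L : ℝ) + 1 := by positivity
  have hMr : (1 : ℝ) ≤ M := by exact_mod_cast hM
  rw [← Finset.sum_filter_add_sum_filter_not D.P (fun p => p ≤ M)]
  have h1 : ∑ p ∈ D.P.filter (fun p => p ≤ M), √(D.v p) / p ≤ √D.V * (M / √(L + 1)) := by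
    calc ∑ p ∈ D.P.filter (fun p => p ≤ M), √(D.v p) / p
        ≤ ∑ _p ∈ D.P.filter (fun p => p ≤ M), √D.V / √(L + 1) := by
          refine Finset.sum_le_sum fun p hp => ?_
          have hpP := (Finset.mem_filter.1 hp).1
          have hp1 : (1 : ℝ) ≤ p := by exact_mod_cast (h.prime p hpP).1.one_lt.le
          refine (div_le_self (Real.sqrt_nonneg _) hp1).trans ?_
          rw [← Real.sqrt_div hV.le]
          apply Real.sqrt_le_sqrt
          rw [le_div_iff₀ hL]
          exact h.vL p hpP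
      _ = ((D.P.filter (fun p => p ≤ M)).card : ℝ) * (√D.V / √(L + 1)) := by
          rw [Finset.sum_const, nsmul_eq_mul]
      _ ≤ M * (√D.V / √(L + 1)) := mul_le_mul_of_nonneg_right (card_small h M) (by positivity)
      _ = _ := by ring
  have h2 : ∑ p ∈ D.P.filter (fun p => ¬ p ≤ M), √(D.v p) / p ≤ √D.V * (2 / √M) := by
    have h3 : (∑ p ∈ D.P.filter (fun p => ¬ p ≤ M), √(D.v p) / p) ^ 2 ≤
        D.V * (2 / M) := by
      have h4 := Finset.sum_mul_sq_le_sq_mul_sq (D.P.filter (fun p => ¬ p ≤ M))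
        (fun p => √(D.v p)) (fun p => 1 / (p : ℝ))
      have e1 : ∑ p ∈ D.P.filter (fun p => ¬ p ≤ M), √(D.v p) * (1 / (p : ℝ)) =
          ∑ p ∈ D.P.filter (fun p => ¬ p ≤ M), √(D.v p) / p :=
        Finset.sum_congr rfl fun p _ => by ring
      rw [e1] at h4
      refine h4.trans ?_
      have h5 : ∑ p ∈ D.P.filter (fun p => ¬ p ≤ M), √(D.v p) ^ 2 ≤ D.V := by
        calc ∑ p ∈ D.P.filter (fun p => ¬ p ≤ M), √(D.v p) ^ 2
            ≤ ∑ p ∈ D.P, √(D.v p) ^ 2 := Finset.sum_le_sum_of_subset_of_nonneg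
              (Finset.filter_subset _ _) fun p _ _ => sq_nonneg _
          _ = D.V := Finset.sum_congr rfl fun p hp => Real.sq_sqrt (h.v0 p hp).le
      have h6 : ∑ p ∈ D.P.filter (fun p => ¬ p ≤ M), (1 / (p : ℝ)) ^ 2 ≤ 2 / (M : ℝ) := by
        calc ∑ p ∈ D.P.filter (fun p => ¬ p ≤ M), (1 / (p : ℝ)) ^ 2
            ≤ ∑ p ∈ Finset.Ioo M (D.y + 1), ((p : ℝ) ^ 2)⁻¹ := by
              refine le_trans (le_of_eq ?_) (Finset.sum_le_sum_of_subset_of_nonneg
                (s := D.P.filter (fun p => ¬ p ≤ M)) (fun p hp => ?_) fun p _ _ => by positivity)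
              · refine Finset.sum_congr rfl fun p _ => ?_
                rw [one_div, inv_pow]
              · obtain ⟨hpP, hpM⟩ := Finset.mem_filter.1 hp
                rw [Finset.mem_Ioo]
                exact ⟨by omega, Nat.lt_succ_of_le (h.prime p hpP).2⟩
          _ ≤ 2 / ((M : ℝ) + 1) := sum_Ioo_inv_sq_le M (D.y + 1)
          _ ≤ 2 / M := div_le_div_of_nonneg_left (by norm_num) (by linarith) (by linarith)
      exact mul_le_mul h5 h6 (Finset.sum_nonneg fun _ _ => sq_nonneg _) hV.le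
    refine abs_le_of_sq_le_sq' ?_ (by positivity) |>.2
    refine h3.trans ?_
    rw [mul_pow, Real.sq_sqrt hV.le, div_pow, Real.sq_sqrt (by linarith)]
    refine mul_le_mul_of_nonneg_left ?_ hV.le
    exact div_le_div_of_nonneg_right (by norm_num) (by linarith)
  calc _ ≤ √D.V * (M / √(L + 1)) + √D.V * (2 / √M) := add_le_add h1 h2
    _ = _ := by ring

section Data

variable {U : Fin k → ∀ p : ℕ, (ι → ZMod p) → ℝ} {μ : Fin k → ℝ} {g : Fin k → Fin k → ℝ}
  {C C0 B : ℝ}

/-- the constant -/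
noncomputable def C1 (C C0 : ℝ) : ℝ := C0 * (1 + C) + C0 ^ 2 * (8 * (C + 16 * C ^ 4))

theorem C1_nn (hC : 1 ≤ C) (hC0 : 0 ≤ C0) : 0 ≤ C1 C C0 := by
  unfold C1
  positivity

theorem mean_le (h : LDs U μ g C) (hμ : ∀ a, |μ a| ≤ C) (a : Fin k) {p : ℕ} (hp : p.Prime) :
    |EMt p (U a p)| ≤ 2 * C := by
  have hne : NeZero p := ⟨hp.ne_zero⟩
  rw [EMt_eq]
  have h1 := h.m1 a p hp
  have hC := h.C1
  have hp1 : (1 : ℝ) ≤ p := by exact_mod_cast hp.one_lt.le
  have h2 : C / p ≤ C := div_le_self (by linarith) hp1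
  have e : EM p (U a p) = (EM p (U a p) - μ a) + μ a := by ring
  rw [e]
  refine (abs_add_le _ _).trans ?_
  have := hμ a
  linarith

theorem two_le (h : LDs U μ g C) (a : Fin k) {p : ℕ} (hp : p.Prime) [NeZero p] :
    EM p (fun x => (U a p x - EM p (U a p)) ^ 2) ≤ 1 + C := by
  refine (EM_var_le p _).trans ?_
  have h1 : EM p (fun x => U a p x ^ 2) ≤ EM p (fun x => 1 + U a p x ^ 4) := by
    refine EM_monoF p _ _ fun x => ?_
    nlinarith [sq_nonneg (U a p x ^ 2 - 1), sq_nonneg (U a p x ^ 2)]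
  rw [EM_add' p (fun _ => (1 : ℝ)) (fun x => U a p x ^ 4), EM_const'] at h1
  have := h.m4 a p hp
  linarith

theorem four_le (h : LDs U μ g C) (hμ : ∀ a, |μ a| ≤ C) (a : Fin k) {p : ℕ} (hp : p.Prime)
    [NeZero p] : EM p (fun x => (U a p x - EM p (U a p)) ^ 4) ≤ 8 * (C + 16 * C ^ 4) := by
  have hC := h.C1
  have h2 := mean_le h hμ a hp
  rw [EMt_eq] at h2
  set e := EM p (U a p) with he
  have h1 : EM p (fun x => (U a p x - e) ^ 4) ≤ EM p (fun x => 8 * U a p x ^ 4 + 8 * e ^ 4) := by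
    refine EM_monoF p _ _ fun x => ?_
    have h3 : (U a p x - e) ^ 2 ≤ 2 * U a p x ^ 2 + 2 * e ^ 2 := by
      nlinarith [sq_nonneg (U a p x + e)]
    have h4 : ((U a p x - e) ^ 2) ^ 2 ≤ (2 * U a p x ^ 2 + 2 * e ^ 2) ^ 2 :=
      pow_le_pow_left₀ (sq_nonneg _) h3 2
    nlinarith [sq_nonneg (U a p x ^ 2 - e ^ 2)]
  rw [EM_add' p (fun x => 8 * U a p x ^ 4) (fun _ => 8 * e ^ 4), EM_const',
    EM_mulF p 8 (fun x => U a p x ^ 4)] at h1
  have h3 := h.m4 a p hp
  have h4 : e ^ 4 ≤ (2 * C) ^ 4 := by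
    rw [← (show Even 4 by decide).pow_abs]
    exact pow_le_pow_left₀ (abs_nonneg _) h2 4
  nlinarith

theorem cov_le (h : LDs U μ g C) (hμ : ∀ a, |μ a| ≤ C) (a b : Fin k) {p : ℕ} (hp : p.Prime)
    [NeZero p] : |EM p (fun x => (U a p x - EM p (U a p)) * (U b p x - EM p (U b p))) - g a b| ≤
      4 * C ^ 2 / p := by
  have hC := h.C1
  have hp0 : (0 : ℝ) < p := by exact_mod_cast hp.pos
  have e1 : EM p (fun x => (U a p x - EM p (U a p)) * (U b p x - EM p (U b p))) =
      EM p (fun x => U a p x * U b p x) - EM p (U a p) * EM p (U b p) := by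
    have e : (fun x => (U a p x - EM p (U a p)) * (U b p x - EM p (U b p))) = fun x =>
        (U a p x * U b p x - EM p (U b p) * U a p x) -
        (EM p (U a p) * U b p x - EM p (U a p) * EM p (U b p)) := by
      funext x
      ring
    rw [e, EM_sub' p (fun x => U a p x * U b p x - EM p (U b p) * U a p x)
      (fun x => EM p (U a p) * U b p x - EM p (U a p) * EM p (U b p)),
      EM_sub' p (fun x => U a p x * U b p x) (fun x => EM p (U b p) * U a p x),
      EM_sub' p (fun x => EM p (U a p) * U b p x) (fun _ => EM p (U a p) * EM p (U b p)),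
      EM_const', EM_mulF, EM_mulF]
    ring
  rw [e1]
  have h1 := h.m2 a b p hp
  have h2 := h.m1 a p hp
  have h3 := h.m1 b p hp
  have h4 := mean_le h hμ a hp
  rw [EMt_eq] at h4
  have h5 := hμ b
  have e2 : EM p (fun x => U a p x * U b p x) - EM p (U a p) * EM p (U b p) - g a b =
      (EM p (fun x => U a p x * U b p x) - (μ a * μ b + g a b)) -
      (EM p (U a p) * (EM p (U b p) - μ b) + μ b * (EM p (U a p) - μ a)) := by ring
  rw [e2]
  refine (abs_sub _ _).trans ?_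
  have h6 : |EM p (U a p) * (EM p (U b p) - μ b) + μ b * (EM p (U a p) - μ a)| ≤
      2 * C * (C / p) + C * (C / p) := by
    refine (abs_add_le _ _).trans ?_
    rw [abs_mul, abs_mul]
    exact add_le_add (mul_le_mul h4 h3 (abs_nonneg _) (by positivity))
      (mul_le_mul h5 h2 (abs_nonneg _) (by linarith))
  have h7 : C / p ≤ C ^ 2 / p := div_le_div_of_nonneg_right (by nlinarith) hp0.le
  calc _ ≤ C ^ 2 / p + (2 * C * (C / p) + C * (C / p)) := add_le_add (h1.trans h7) h6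
    _ = _ := by ring

/-- **admissibility of the centred data** -/
theorem AD.Ok.toWD (h : LDs U μ g C) (hμ : ∀ a, |μ a| ≤ C) (hC0 : 1 ≤ C0)
    (hB : ∀ a p, p.Prime → ∀ x, |U a p x| ≤ B * √p) (K : ℕ) :
    ∃ L : ℕ, ∀ D : AD k, D.Ok g C0 L → (D.toWD U).Ok (C1 C C0) K := by
  have hC := h.C1
  obtain ⟨M, hM⟩ := exists_nat_ge (16 * C0 * C ^ 2 * (K + 1))
  obtain ⟨L1, hL1⟩ := exists_nat_ge (16 * C0 * C ^ 2 * (K + 1) * (M + 1))
  obtain ⟨B1, hB1⟩ : ∃ B1 : ℝ, B1 = |B| + 2 * C := ⟨_, rfl⟩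
  have hB10 : 0 ≤ B1 := by
    rw [hB1]
    have := abs_nonneg B
    linarith
  obtain ⟨L2, hL2⟩ := exists_nat_ge (C0 * B1 ^ 2)
  refine ⟨2 * (K + 1) + L1 + L2 + 1, fun D hD => ?_⟩
  set L := 2 * (K + 1) + L1 + L2 + 1 with hL
  have hV := hD.pos
  have hyL : (L : ℝ) ≤ D.y := by exact_mod_cast hD.large
  have hLr : (L : ℝ) = 2 * (K + 1) + L1 + L2 + 1 := by rw [hL]; push_cast; ring
  have hM0 : 0 ≤ (M : ℝ) := Nat.cast_nonneg M
  have hmono := hD.mono (show K ≤ L by omega)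
  refine ⟨hD.prime, hmono.large, hmono.high, hV, hD.v0, hmono.vL, ?_, ?_, ?_, ?_, ?_⟩
  · intro a p hp x
    change |D.w a p * (U a p x - EMt p (U a p))| ≤ D.y * √(D.v p)
    obtain ⟨hpp, hpy⟩ := hD.prime p hp
    have hp1 : (1 : ℝ) ≤ p := by exact_mod_cast hpp.one_lt.le
    have hpy' : (p : ℝ) ≤ D.y := by exact_mod_cast hpy
    have hv := hD.v0 p hp
    have hs1 : 1 ≤ √(D.y : ℝ) := Real.one_le_sqrt.2 (hp1.trans hpy')
    have h1 : |U a p x - EMt p (U a p)| ≤ B1 * √(D.y : ℝ) := by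
      refine (abs_sub _ _).trans ?_
      have h2 := hB a p hpp x
      have h3 := mean_le h hμ a hpp
      have h4 : B * √(p : ℝ) ≤ |B| * √(D.y : ℝ) :=
        mul_le_mul (le_abs_self B) (Real.sqrt_le_sqrt hpy') (Real.sqrt_nonneg _) (abs_nonneg _)
      rw [hB1, add_mul]
      have h5 : 2 * C ≤ 2 * C * √(D.y : ℝ) := le_mul_of_one_le_right (by linarith) hs1
      linarith
    have h2 : |D.w a p| ≤ √(C0 * D.v p) := by
      rw [← Real.sqrt_sq_eq_abs]
      exact Real.sqrt_le_sqrt (hD.wv a p hp)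
    rw [abs_mul]
    calc |D.w a p| * |U a p x - EMt p (U a p)| ≤ √(C0 * D.v p) * (B1 * √(D.y : ℝ)) :=
          mul_le_mul h2 h1 (abs_nonneg _) (Real.sqrt_nonneg _)
      _ = (√C0 * B1) * √(D.y : ℝ) * √(D.v p) := by
          rw [Real.sqrt_mul (by linarith)]
          ring
      _ ≤ √(D.y : ℝ) * √(D.y : ℝ) * √(D.v p) := by
          refine mul_le_mul_of_nonneg_right (mul_le_mul_of_nonneg_right ?_ (Real.sqrt_nonneg _))
            (Real.sqrt_nonneg _)
          apply Real.le_sqrt_of_sq_le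
          rw [mul_pow, Real.sq_sqrt (by linarith)]
          have : (L2 : ℝ) ≤ L := by
            rw [hLr]
            have h3 : (0 : ℝ) ≤ K := Nat.cast_nonneg K
            have h4 : (0 : ℝ) ≤ L1 := Nat.cast_nonneg L1
            linarith
          linarith
      _ = D.y * √(D.v p) := by rw [Real.mul_self_sqrt (Nat.cast_nonneg _)]
  · intro a p hp
    change EMt p (fun x => D.w a p * (U a p x - EMt p (U a p))) = 0
    have hne : NeZero p := ⟨(hD.prime p hp).1.ne_zero⟩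
    rw [EMt_eq, EM_mulF p (D.w a p) (fun x => U a p x - EMt p (U a p)), EMt_eq,
      EM_sub' p (U a p) (fun _ => EM p (U a p)), EM_const', sub_self, mul_zero]
  · intro a p hp
    change EMt p (fun x => (D.w a p * (U a p x - EMt p (U a p))) ^ 2) ≤ C1 C C0 * D.v p
    have hne : NeZero p := ⟨(hD.prime p hp).1.ne_zero⟩
    have hv := (hD.v0 p hp).le
    rw [EMt_eq, EMt_eq]
    simp only [mul_pow]
    rw [EM_mulF p (D.w a p ^ 2) (fun x => (U a p x - EM p (U a p)) ^ 2)]
    have h1 := two_le h a (hD.prime p hp).1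
    have h2 := hD.wv a p hp
    have h3 : D.w a p ^ 2 * EM p (fun x => (U a p x - EM p (U a p)) ^ 2) ≤ (C0 * D.v p) * (1 + C) :=
      mul_le_mul h2 h1 (EM_nn p _ fun x => sq_nonneg _) (by positivity)
    have h4 : 0 ≤ C0 ^ 2 * (8 * (C + 16 * C ^ 4)) * D.v p := by positivity
    unfold C1
    nlinarith
  · intro a p hp
    change EMt p (fun x => (D.w a p * (U a p x - EMt p (U a p))) ^ 4) ≤ C1 C C0 * D.v p ^ 2
    have hne : NeZero p := ⟨(hD.prime p hp).1.ne_zero⟩
    have hv := (hD.v0 p hp).le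
    rw [EMt_eq, EMt_eq]
    simp only [mul_pow]
    rw [EM_mulF p (D.w a p ^ 4) (fun x => (U a p x - EM p (U a p)) ^ 4)]
    have h1 := four_le h hμ a (hD.prime p hp).1
    have h2 : D.w a p ^ 4 ≤ (C0 * D.v p) ^ 2 := by
      calc D.w a p ^ 4 = (D.w a p ^ 2) ^ 2 := by ring
        _ ≤ (C0 * D.v p) ^ 2 := pow_le_pow_left₀ (sq_nonneg _) (hD.wv a p hp) 2
    have h3 : D.w a p ^ 4 * EM p (fun x => (U a p x - EM p (U a p)) ^ 4) ≤
        (C0 * D.v p) ^ 2 * (8 * (C + 16 * C ^ 4)) :=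
      mul_le_mul h2 h1 (EM_nn p _ fun x => by positivity) (by positivity)
    have h4 : 0 ≤ C0 * (1 + C) * D.v p ^ 2 := by positivity
    unfold C1
    nlinarith
  · intro a b x
    change |ps D.P (fun p => EMt p (fun c => (D.w a p * (U a p c - EMt p (U a p))) *
      (D.w b p * (U b p c - EMt p (U b p)))) - if a = b then D.v p else 0) x| * (K + 1) ≤ D.V
    have key : |ps D.P (fun p => EMt p (fun c => (D.w a p * (U a p c - EMt p (U a p))) *
        (D.w b p * (U b p c - EMt p (U b p)))) - D.w a p * D.w b p * g a b) x| ≤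
        4 * C ^ 2 * C0 * (D.V * (((M + 1 : ℕ) : ℝ) / (L + 1) + 1 / ((M + 1 : ℕ) : ℝ))) := by
      unfold ps
      refine (Finset.abs_sum_le_sum_abs _ _).trans ?_
      calc ∑ p ∈ D.P.filter (fun q => q < x), |EMt p (fun c => (D.w a p * (U a p c - EMt p (U a p))) *
            (D.w b p * (U b p c - EMt p (U b p)))) - D.w a p * D.w b p * g a b|
          ≤ ∑ p ∈ D.P.filter (fun q => q < x), 4 * C ^ 2 * C0 * (D.v p / p) := by
            refine Finset.sum_le_sum fun p hp => ?_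
            have hpP := (Finset.mem_filter.1 hp).1
            have hpp := (hD.prime p hpP).1
            have hne : NeZero p := ⟨hpp.ne_zero⟩
            have hp0 : (0 : ℝ) < p := by exact_mod_cast hpp.pos
            have hv := (hD.v0 p hpP).le
            rw [EMt_eq, EMt_eq, EMt_eq]
            have e1 : (fun c => (D.w a p * (U a p c - EM p (U a p))) *
                (D.w b p * (U b p c - EM p (U b p)))) = fun c => (D.w a p * D.w b p) *
                ((U a p c - EM p (U a p)) * (U b p c - EM p (U b p))) := by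
              funext c
              ring
            rw [e1, EM_mulF p (D.w a p * D.w b p) (fun c => (U a p c - EM p (U a p)) *
              (U b p c - EM p (U b p))), ← mul_sub, abs_mul]
            have h1 : |D.w a p * D.w b p| ≤ C0 * D.v p := by
              rw [abs_mul]
              have h2 := hD.wv a p hpP
              have h3 := hD.wv b p hpP
              rw [← sq_abs] at h2 h3
              nlinarith [sq_nonneg (|D.w a p| - |D.w b p|)]
            calc |D.w a p * D.w b p| * |EM p (fun c => (U a p c - EM p (U a p)) *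
                  (U b p c - EM p (U b p))) - g a b| ≤ (C0 * D.v p) * (4 * C ^ 2 / p) :=
                  mul_le_mul h1 (cov_le h hμ a b hpp) (abs_nonneg _) (by positivity)
              _ = _ := by ring
        _ ≤ ∑ p ∈ D.P, 4 * C ^ 2 * C0 * (D.v p / p) := by
            refine Finset.sum_le_sum_of_subset_of_nonneg (Finset.filter_subset _ _) fun p hp _ => ?_
            have := (hD.v0 p hp).le
            positivity
        _ = 4 * C ^ 2 * C0 * ∑ p ∈ D.P, D.v p / p := by rw [Finset.mul_sum]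
        _ ≤ _ := mul_le_mul_of_nonneg_left (sum_vp hD (Nat.succ_pos M)) (by positivity)
    have h2 := hD.cov a b x
    have e : ps D.P (fun p => EMt p (fun c => (D.w a p * (U a p c - EMt p (U a p))) *
      (D.w b p * (U b p c - EMt p (U b p)))) - if a = b then D.v p else 0) x =
      ps D.P (fun p => EMt p (fun c => (D.w a p * (U a p c - EMt p (U a p))) *
        (D.w b p * (U b p c - EMt p (U b p)))) - D.w a p * D.w b p * g a b) x +
      ps D.P (fun p => D.w a p * D.w b p * g a b - if a = b then D.v p else 0) x := by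
      unfold ps
      rw [← Finset.sum_add_distrib]
      refine Finset.sum_congr rfl fun p _ => ?_
      ring
    rw [e]
    set X := ps D.P (fun p => EMt p (fun c => (D.w a p * (U a p c - EMt p (U a p))) *
        (D.w b p * (U b p c - EMt p (U b p)))) - D.w a p * D.w b p * g a b) x
    set Y := ps D.P (fun p => D.w a p * D.w b p * g a b - if a = b then D.v p else 0) x
    have hKr : (0 : ℝ) < (K : ℝ) + 1 := by positivity
    have f1 : |X| * (K + 1) ≤ D.V / 2 := by
      have hM1 : (0 : ℝ) < (M : ℝ) + 1 := by positivity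
      have hL1' : (0 : ℝ) < (L : ℝ) + 1 := by positivity
      have g1 : 4 * C ^ 2 * C0 * (K + 1) * (((M + 1 : ℕ) : ℝ) / (L + 1)) ≤ 1 / 4 := by
        push_cast
        rw [mul_div_assoc', div_le_iff₀ hL1']
        have h3 : (0 : ℝ) ≤ K := Nat.cast_nonneg K
        have h4 : (0 : ℝ) ≤ L2 := Nat.cast_nonneg L2
        nlinarith
      have g2 : 4 * C ^ 2 * C0 * (K + 1) * (1 / ((M + 1 : ℕ) : ℝ)) ≤ 1 / 4 := by
        push_cast
        rw [mul_one_div, div_le_iff₀ hM1]
        nlinarith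
      calc |X| * (K + 1) ≤ 4 * C ^ 2 * C0 * (D.V * (((M + 1 : ℕ) : ℝ) / (L + 1) +
            1 / ((M + 1 : ℕ) : ℝ))) * (K + 1) := mul_le_mul_of_nonneg_right key hKr.le
        _ = D.V * (4 * C ^ 2 * C0 * (K + 1) * (((M + 1 : ℕ) : ℝ) / (L + 1)) +
            4 * C ^ 2 * C0 * (K + 1) * (1 / ((M + 1 : ℕ) : ℝ))) := by ring
        _ ≤ D.V * (1 / 4 + 1 / 4) := mul_le_mul_of_nonneg_left (add_le_add g1 g2) hV.le
        _ = D.V / 2 := by ring
    have f2 : |Y| * (K + 1) ≤ D.V / 2 := by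
      have h3 : (0 : ℝ) ≤ L1 := Nat.cast_nonneg L1
      have h4 : (0 : ℝ) ≤ L2 := Nat.cast_nonneg L2
      have h5 : 2 * ((K : ℝ) + 1) ≤ L + 1 := by rw [hLr]; linarith
      have h6 := mul_le_mul_of_nonneg_left h5 (abs_nonneg Y)
      linarith
    calc |X + Y| * (K + 1) ≤ (|X| + |Y|) * (K + 1) :=
          mul_le_mul_of_nonneg_right (abs_add_le _ _) hKr.le
      _ = |X| * (K + 1) + |Y| * (K + 1) := by ring
      _ ≤ D.V := by linarith

/-- a bound of the distance of paths -/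
theorem wpath_dist {P : Finset ℕ} (v g1 g2 : ℕ → ℝ) {E : ℝ}
    (hE : (∑ p ∈ P, |g1 p - g2 p|) / √(∑ q ∈ P, v q) ≤ E) :
    dist (wpath P v g1) (wpath P v g2) ≤ E := by
  have hE0 : 0 ≤ E := le_trans (by positivity) hE
  rw [ContinuousMap.dist_le hE0]
  intro t
  refine le_trans ?_ hE
  rw [Real.dist_eq, wpath_apply, wpath_apply, ← sub_div, abs_div, abs_of_nonneg (Real.sqrt_nonneg _),
    ← Finset.sum_sub_distrib]
  refine div_le_div_of_nonneg_right ?_ (Real.sqrt_nonneg _)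
  refine (Finset.abs_sum_le_sum_abs _ _).trans (Finset.sum_le_sum fun p _ => ?_)
  rw [← sub_mul, abs_mul]
  have h := cl_mem (((t : ℝ) * (∑ q ∈ P, v q) - ps P v p) / v p)
  rw [abs_of_nonneg h.1]
  exact mul_le_of_le_one_right (abs_nonneg _) h.2

/-- the paths centred at the main terms -/
noncomputable def AD.Y (D : AD k) (U : Fin k → ∀ p : ℕ, (ι → ZMod p) → ℝ) (μ : Fin k → ℝ)
    (c : ι → ℤ) (a : Fin k) : C(unitInterval, ℝ) :=
  wpath D.P D.v fun p => D.w a p * (U a p (red p c) - μ a)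

/-- **closeness** -/
theorem Y_close (h : LDs U μ g C) (hμ : ∀ a, |μ a| ≤ C) (hC0 : 1 ≤ C0) {δ : ℝ} (hδ : 0 < δ) :
    ∃ L : ℕ, ∀ D : AD k, D.Ok g C0 L → ∀ c : ι → ℤ, dist (D.Y U μ c) ((D.toWD U).X c) ≤ δ := by
  have hC := h.C1
  obtain ⟨M, hM⟩ := exists_nat_ge ((4 * C0 * C / δ) ^ 2)
  obtain ⟨L, hL⟩ := exists_nat_ge ((2 * C0 * C * (M + 1) / δ) ^ 2)
  refine ⟨L, fun D hD c => ?_⟩
  have hV := hD.pos
  have hsV : 0 < √D.V := Real.sqrt_pos.2 hV
  rw [dist_pi_le_iff hδ.le]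
  intro a
  refine wpath_dist _ _ _ ?_
  change (∑ p ∈ D.P, |D.w a p * (U a p (red p c) - μ a) -
    D.w a p * (U a p (red p c) - EMt p (U a p))|) / √D.V ≤ δ
  rw [div_le_iff₀ hsV]
  have h1 : ∑ p ∈ D.P, |D.w a p * (U a p (red p c) - μ a) -
      D.w a p * (U a p (red p c) - EMt p (U a p))| ≤ ∑ p ∈ D.P, C0 * C * (√(D.v p) / p) := by
    refine Finset.sum_le_sum fun p hp => ?_
    have hpp := (hD.prime p hp).1
    have hne : NeZero p := ⟨hpp.ne_zero⟩
    have hv := (hD.v0 p hp).le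
    rw [← mul_sub, abs_mul]
    have h2 : |D.w a p| ≤ C0 * √(D.v p) := by
      rw [← Real.sqrt_sq_eq_abs]
      refine (Real.sqrt_le_sqrt (hD.wv a p hp)).trans ?_
      rw [Real.sqrt_mul (by linarith)]
      refine mul_le_mul_of_nonneg_right ?_ (Real.sqrt_nonneg _)
      rw [Real.sqrt_le_left (by linarith)]
      nlinarith
    have h3 : |U a p (red p c) - μ a - (U a p (red p c) - EMt p (U a p))| ≤ C / p := by
      rw [EMt_eq]
      have e : U a p (red p c) - μ a - (U a p (red p c) - EM p (U a p)) = EM p (U a p) - μ a := by ring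
      rw [e]
      exact h.m1 a p hpp
    calc |D.w a p| * |U a p (red p c) - μ a - (U a p (red p c) - EMt p (U a p))|
        ≤ (C0 * √(D.v p)) * (C / p) := mul_le_mul h2 h3 (abs_nonneg _) (by positivity)
      _ = _ := by ring
  refine h1.trans ?_
  rw [← Finset.mul_sum]
  have h2 := sum_sq_vp hD (M := M + 1) (Nat.succ_pos M)
  have hM1 : (0 : ℝ) < (M : ℝ) + 1 := by positivity
  have hL1 : (0 : ℝ) < (L : ℝ) + 1 := by positivity
  have g1 : C0 * C * (((M + 1 : ℕ) : ℝ) / √((L : ℝ) + 1)) ≤ δ / 2 := by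
    have h3 : 2 * C0 * C * (M + 1) / δ ≤ √((L : ℝ) + 1) := Real.le_sqrt_of_sq_le (by linarith)
    push_cast
    rw [mul_div_assoc', div_le_iff₀ (Real.sqrt_pos.2 hL1)]
    rw [div_le_iff₀ hδ] at h3
    linarith
  have g2 : C0 * C * (2 / √((M + 1 : ℕ) : ℝ)) ≤ δ / 2 := by
    push_cast
    have h3 : 4 * C0 * C / δ ≤ √((M : ℝ) + 1) := Real.le_sqrt_of_sq_le (by linarith)
    rw [mul_div_assoc', div_le_iff₀ (Real.sqrt_pos.2 hM1)]
    rw [div_le_iff₀ hδ] at h3
    linarith
  calc C0 * C * ∑ p ∈ D.P, √(D.v p) / p ≤ C0 * C * (√D.V * (((M + 1 : ℕ) : ℝ) / √((L : ℝ) + 1) +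
        2 / √((M + 1 : ℕ) : ℝ))) := mul_le_mul_of_nonneg_left h2 (by positivity)
    _ = (C0 * C * (((M + 1 : ℕ) : ℝ) / √((L : ℝ) + 1)) + C0 * C * (2 / √((M + 1 : ℕ) : ℝ))) * √D.V := by
        ring
    _ ≤ (δ / 2 + δ / 2) * √D.V := mul_le_mul_of_nonneg_right (add_le_add g1 g2) hsV.le
    _ = δ * √D.V := by ring

end Data

section

variable [MeasurableSpace C(unitInterval, ℝ)] [BorelSpace C(unitInterval, ℝ)]
  {Ω : Type*} [MeasurableSpace Ω] {ν : Measure Ω} [IsProbabilityMeasure ν]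
  {W : Fin k → ℝ≥0 → Ω → ℝ} {U : Fin k → ∀ p : ℕ, (ι → ZMod p) → ℝ} {μ : Fin k → ℝ}
  {g : Fin k → Fin k → ℝ} {C C0 B : ℝ}

/-- **the invariance principle** -/
theorem app_main (h : LDs U μ g C) (hμ : ∀ a, |μ a| ≤ C) (hC0 : 1 ≤ C0)
    (hB : ∀ a p, p.Prime → ∀ x, |U a p x| ≤ B * √p) (hW : IndBrown W ν)
    (F : (Fin k → C(unitInterval, ℝ)) →ᵇ ℝ) {ε : ℝ} (hε : 0 < ε) :
    ∃ L : ℕ, ∀ D : AD k, D.Ok g C0 L →
      |EB D.H (fun c => F (D.Y U μ c)) - ∫ ω, F (fun a => bpath (W a) ω) ∂ν| ≤ ε := by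
  by_contra hcon
  push Not at hcon
  choose D hD1 hD2 using hcon
  have hD : ∀ K, ∀ᶠ j in atTop, ((D j).toWD U).Ok (C1 C C0) K := by
    intro K
    obtain ⟨L, hL⟩ := AD.Ok.toWD h hμ hC0 hB K
    filter_upwards [eventually_ge_atTop L] with j hj
    exact hL (D j) ((hD1 j).mono hj)
  have hlim := ww_near (C1_nn h.C1 (by linarith)) hW (fun j => (D j).toWD U) hD
    (fun j c => (D j).Y U μ c) (fun δ hδ => by
      obtain ⟨L, hL⟩ := Y_close (ι := ι) h hμ hC0 hδ
      refine tendsto_const_nhds.congr' ?_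
      filter_upwards [eventually_ge_atTop L] with j hj
      have e : {c : ι → ℤ | δ < dist ((D j).Y U μ c) (((D j).toWD U).X c)} = ∅ := by
        ext c
        simp only [Set.mem_ofPred_eq, Set.mem_empty_iff_false, iff_false, not_lt]
        exact hL (D j) ((hD1 j).mono hj) c
      rw [e, measureReal_empty]) F
  rw [Metric.tendsto_atTop] at hlim
  obtain ⟨J, hJ⟩ := hlim ε hε
  have h4 := hJ J le_rfl
  rw [Real.dist_eq] at h4
  exact absurd h4 (not_lt.2 (hD2 J).le)

end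

end Pool.Agent.U581.WW
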