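import Pool.Agent.U581.WW.Trunc

/-!
# Weighted sums of local data over primes: characteristic functions
-/

set_option autoImplicit false
set_option linter.unusedSectionVars false

namespace Pool.Agent.U581.WW

open Finset Filter Topology Pool.Agent.Y722.HS Pool.Agent.X280.BP Pool.Agent.X280.UC
  Pool.Agent.X280.HG MeasureTheory Pool.Agent.U581.BM Pool.Agent.U581.FL
  Pool.Agent.U62.RB

variable {ι : Type} [Fintype ι] [DecidableEq ι] {k : ℕ} {C : ℝ}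

/-- the path vector -/
noncomputable def WD.X (D : WD ι k) (c : ι → ℤ) (a : Fin k) : C(unitInterval, ℝ) :=
  wpath D.P D.v fun p => D.Z a p (red p c)

/-- the exact local function of a linear combination -/
noncomputable def GC (D : WD ι k) (N : ℕ) (θ : Fin k → ℕ → ℝ) (p : ℕ) (x : ι → ZMod p) : ℝ :=
  ∑ a, cw D N (θ a) p * D.Z a p x

/-- with the weights at the nodes -/
noncomputable def GI (D : WD ι k) (N : ℕ) (θ : Fin k → ℕ → ℝ) (p : ℕ) (x : ι → ZMod p) : ℝ :=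
  ∑ a, iw D N (θ a) p * D.Z a p x

/-- truncated -/
noncomputable def GT (D : WD ι k) (τ : ℝ) (N : ℕ) (θ : Fin k → ℕ → ℝ) (p : ℕ) (x : ι → ZMod p) :
    ℝ := ∑ a, iw D N (θ a) p * TZ D τ a p x

/-- the rest of the truncation -/
noncomputable def GR (D : WD ι k) (τ : ℝ) (N : ℕ) (θ : Fin k → ℕ → ℝ) (p : ℕ) (x : ι → ZMod p) :
    ℝ := ∑ a, iw D N (θ a) p * RZ D τ a p x

theorem WD.comb (D : WD ι k) (N : ℕ) (θ : Fin k → ℕ → ℝ) (c : ι → ℤ) :
    ∑ a, ∑ i ∈ Finset.range (N + 1), θ a i * D.X c a (pt N i) = SP (GC D N θ) D.P c / √D.V := by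
  unfold SP GC
  rw [Finset.sum_comm (s := D.P), Finset.sum_div]
  refine Finset.sum_congr rfl fun a _ => ?_
  have e : ∀ p ∈ D.P, cw D N (θ a) p * D.Z a p (red p c) = ∑ i ∈ Finset.range (N + 1),
      θ a i * (D.Z a p (red p c) * cl ((((pt N i : unitInterval) : ℝ) * (∑ q ∈ D.P, D.v q) -
        ps D.P D.v p) / D.v p)) := by
    intro p _
    unfold cw
    rw [Finset.sum_mul]
    exact Finset.sum_congr rfl fun i _ => by ring
  rw [Finset.sum_congr rfl e, Finset.sum_comm, Finset.sum_div]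
  refine Finset.sum_congr rfl fun i _ => ?_
  unfold WD.X
  rw [wpath_apply, ← Finset.mul_sum, ← mul_div_assoc]
  rfl

theorem GC_GT (D : WD ι k) (τ : ℝ) (N : ℕ) (θ : Fin k → ℕ → ℝ) (p : ℕ) (x : ι → ZMod p) :
    GC D N θ p x - GT D τ N θ p x =
      (∑ a, (cw D N (θ a) p - iw D N (θ a) p) * D.Z a p x) + GR D τ N θ p x := by
  unfold GC GT GR
  rw [← Finset.sum_sub_distrib, ← Finset.sum_add_distrib]
  refine Finset.sum_congr rfl fun a _ => ?_
  unfold RZ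
  ring

theorem GI_eq (D : WD ι k) (τ : ℝ) (N : ℕ) (θ : Fin k → ℕ → ℝ) (p : ℕ) (x : ι → ZMod p) :
    GI D N θ p x = GT D τ N θ p x + GR D τ N θ p x := by
  unfold GI GT GR
  rw [← Finset.sum_add_distrib]
  refine Finset.sum_congr rfl fun a _ => ?_
  unfold RZ
  ring

section

variable {D : WD ι k} {K : ℕ} {τ : ℝ}

theorem iw_TH (D : WD ι k) (N : ℕ) (θ : Fin k → ℕ → ℝ) (a : Fin k) (p : ℕ) :
    iw D N (θ a) p ^ 2 ≤ TH N θ ^ 2 := by
  rw [← sq_abs]
  exact pow_le_pow_left₀ (abs_nonneg _) ((iw_le D N (θ a) p).trans (TH_one N θ a)) 2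

theorem sum_iw (D : WD ι k) (N : ℕ) (θ : Fin k → ℕ → ℝ) (p : ℕ) :
    ∑ a, |iw D N (θ a) p| ≤ TH N θ := Finset.sum_le_sum fun a _ => iw_le D N (θ a) p

theorem sum_cw (D : WD ι k) (N : ℕ) (θ : Fin k → ℕ → ℝ) (p : ℕ) :
    ∑ a, |cw D N (θ a) p| ≤ TH N θ := Finset.sum_le_sum fun a _ => cw_le D N (θ a) p

theorem GR_two (h : D.Ok C K) (hC : 0 ≤ C) (hτ : 1 ≤ τ) (N : ℕ) (θ : Fin k → ℕ → ℝ) {p : ℕ}
    (hp : p ∈ D.P) [NeZero p] :
    EM p (fun x => GR D τ N θ p x ^ 2) ≤ k ^ 2 * TH N θ ^ 2 * (C * D.v p / τ ^ 2) := by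
  refine (EM_comb p (fun a => iw D N (θ a) p) (fun a => RZ D τ a p)).trans ?_
  have hv := (h.v0 p hp).le
  have h1 : ∑ a, iw D N (θ a) p ^ 2 * EM p (fun x => RZ D τ a p x ^ 2) ≤
      ∑ _a : Fin k, TH N θ ^ 2 * (C * D.v p / τ ^ 2) := by
    refine Finset.sum_le_sum fun a _ => ?_
    have h2 := RZ_two h hτ a hp
    rw [EMt_eq] at h2
    exact mul_le_mul (iw_TH D N θ a p) h2 (EM_nn p _ fun x => sq_nonneg _) (sq_nonneg _)
  calc (k : ℝ) * ∑ a, iw D N (θ a) p ^ 2 * EM p (fun x => RZ D τ a p x ^ 2)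
      ≤ k * ∑ _a : Fin k, TH N θ ^ 2 * (C * D.v p / τ ^ 2) :=
        mul_le_mul_of_nonneg_left h1 (Nat.cast_nonneg _)
    _ = _ := by
      rw [Finset.sum_const, Finset.card_univ, Fintype.card_fin, nsmul_eq_mul]
      ring

theorem GI_two (h : D.Ok C K) (hC : 0 ≤ C) (N : ℕ) (θ : Fin k → ℕ → ℝ) {p : ℕ}
    (hp : p ∈ D.P) [NeZero p] :
    EM p (fun x => GI D N θ p x ^ 2) ≤ k ^ 2 * TH N θ ^ 2 * (C * D.v p) := by
  refine (EM_comb p (fun a => iw D N (θ a) p) (fun a => D.Z a p)).trans ?_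
  have hv := (h.v0 p hp).le
  have h1 : ∑ a, iw D N (θ a) p ^ 2 * EM p (fun x => D.Z a p x ^ 2) ≤
      ∑ _a : Fin k, TH N θ ^ 2 * (C * D.v p) := by
    refine Finset.sum_le_sum fun a _ => ?_
    have h2 := h.two a p hp
    rw [EMt_eq] at h2
    exact mul_le_mul (iw_TH D N θ a p) h2 (EM_nn p _ fun x => sq_nonneg _) (sq_nonneg _)
  calc (k : ℝ) * ∑ a, iw D N (θ a) p ^ 2 * EM p (fun x => D.Z a p x ^ 2)
      ≤ k * ∑ _a : Fin k, TH N θ ^ 2 * (C * D.v p) :=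
        mul_le_mul_of_nonneg_left h1 (Nat.cast_nonneg _)
    _ = _ := by
      rw [Finset.sum_const, Finset.card_univ, Fintype.card_fin, nsmul_eq_mul]
      ring

/-- the second moment of the difference at a prime -/
theorem diff_two (h : D.Ok C K) (hC : 0 ≤ C) (hτ : 1 ≤ τ) (N : ℕ) (θ : Fin k → ℕ → ℝ) {p : ℕ}
    (hp : p ∈ D.P) [NeZero p] :
    EM p (fun x => (GC D N θ p x - GT D τ N θ p x) ^ 2) ≤
      2 * k * C * (∑ a, (cw D N (θ a) p - iw D N (θ a) p) ^ 2 * D.v p) +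
        2 * (k ^ 2 * TH N θ ^ 2 * (C * D.v p / τ ^ 2)) := by
  have hv := (h.v0 p hp).le
  have h1 : EM p (fun x => (GC D N θ p x - GT D τ N θ p x) ^ 2) ≤
      EM p (fun x => 2 * (∑ a, (cw D N (θ a) p - iw D N (θ a) p) * D.Z a p x) ^ 2 +
        2 * GR D τ N θ p x ^ 2) := by
    refine EM_monoF p _ _ fun x => ?_
    rw [GC_GT]
    nlinarith [sq_nonneg ((∑ a, (cw D N (θ a) p - iw D N (θ a) p) * D.Z a p x) - GR D τ N θ p x)]
  refine h1.trans ?_
  rw [EM_add' p (fun x => 2 * (∑ a, (cw D N (θ a) p - iw D N (θ a) p) * D.Z a p x) ^ 2)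
    (fun x => 2 * GR D τ N θ p x ^ 2), EM_mulF p 2 (fun x => (∑ a, (cw D N (θ a) p -
    iw D N (θ a) p) * D.Z a p x) ^ 2), EM_mulF p 2 (fun x => GR D τ N θ p x ^ 2)]
  have h2 := EM_comb p (fun a => cw D N (θ a) p - iw D N (θ a) p) (fun a => D.Z a p)
  have h3 : ∑ a, (cw D N (θ a) p - iw D N (θ a) p) ^ 2 * EM p (fun x => D.Z a p x ^ 2) ≤
      ∑ a, C * ((cw D N (θ a) p - iw D N (θ a) p) ^ 2 * D.v p) := by
    refine Finset.sum_le_sum fun a _ => ?_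
    have h4 := h.two a p hp
    rw [EMt_eq] at h4
    calc (cw D N (θ a) p - iw D N (θ a) p) ^ 2 * EM p (fun x => D.Z a p x ^ 2)
        ≤ (cw D N (θ a) p - iw D N (θ a) p) ^ 2 * (C * D.v p) :=
          mul_le_mul_of_nonneg_left h4 (sq_nonneg _)
      _ = _ := by ring
  rw [← Finset.mul_sum] at h3
  have h4 := GR_two h hC hτ N θ hp
  have h5 := mul_le_mul_of_nonneg_left h3 (Nat.cast_nonneg (α := ℝ) k)
  linarith

theorem sum_cw_iw (h : D.Ok C K) (N : ℕ) (θ : Fin k → ℕ → ℝ) :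
    (∑ p ∈ D.P, ∑ a, (cw D N (θ a) p - iw D N (θ a) p) ^ 2 * D.v p) * (K + 1) ≤
      k * TH N θ ^ 2 * D.V := by
  rw [Finset.sum_comm, Finset.sum_mul]
  have hV := h.pos.le
  calc ∑ a, (∑ p ∈ D.P, (cw D N (θ a) p - iw D N (θ a) p) ^ 2 * D.v p) * ((K : ℝ) + 1)
      ≤ ∑ _a : Fin k, TH N θ ^ 2 * D.V := by
        refine Finset.sum_le_sum fun a _ => (cw_iw h N (θ a)).trans ?_
        refine mul_le_mul_of_nonneg_right ?_ hV
        exact pow_le_pow_left₀ (Finset.sum_nonneg fun _ _ => abs_nonneg _) (TH_one N θ a) 2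
    _ = _ := by
      rw [Finset.sum_const, Finset.card_univ, Fintype.card_fin, nsmul_eq_mul]
      ring

/-- the bound of the difference -/
theorem diff_bound (h : D.Ok C K) (hτ : 1 ≤ τ) (hτy : τ ≤ D.y) (N : ℕ) (θ : Fin k → ℕ → ℝ) {p : ℕ}
    (hp : p ∈ D.P) (x : ι → ZMod p) :
    |GC D N θ p x - GT D τ N θ p x| ≤ 5 * TH N θ * D.y * √(D.v p) := by
  rw [GC_GT]
  have hs : 0 ≤ √(D.v p) := Real.sqrt_nonneg _
  have h1 : |∑ a, (cw D N (θ a) p - iw D N (θ a) p) * D.Z a p x| ≤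
      2 * TH N θ * (D.y * √(D.v p)) := by
    refine (Finset.abs_sum_le_sum_abs _ _).trans ?_
    calc ∑ a, |(cw D N (θ a) p - iw D N (θ a) p) * D.Z a p x|
        ≤ ∑ a, (|cw D N (θ a) p| + |iw D N (θ a) p|) * (D.y * √(D.v p)) := by
          refine Finset.sum_le_sum fun a _ => ?_
          rw [abs_mul]
          exact mul_le_mul (abs_sub _ _) (h.bound a p hp x) (abs_nonneg _)
            (add_nonneg (abs_nonneg _) (abs_nonneg _))
      _ = (∑ a, |cw D N (θ a) p| + ∑ a, |iw D N (θ a) p|) * (D.y * √(D.v p)) := by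
          rw [← Finset.sum_mul, Finset.sum_add_distrib]
      _ ≤ 2 * TH N θ * (D.y * √(D.v p)) := by
          refine mul_le_mul_of_nonneg_right ?_ (by positivity)
          have := sum_cw D N θ p
          have := sum_iw D N θ p
          linarith
  have h2 : |GR D τ N θ p x| ≤ TH N θ * ((D.y + 2 * τ) * √(D.v p)) := by
    unfold GR
    refine (Finset.abs_sum_le_sum_abs _ _).trans ?_
    calc ∑ a, |iw D N (θ a) p * RZ D τ a p x|
        ≤ ∑ a, |iw D N (θ a) p| * ((D.y + 2 * τ) * √(D.v p)) := by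
          refine Finset.sum_le_sum fun a _ => ?_
          rw [abs_mul]
          exact mul_le_mul_of_nonneg_left (RZ_bound h hτ a hp x) (abs_nonneg _)
      _ = (∑ a, |iw D N (θ a) p|) * ((D.y + 2 * τ) * √(D.v p)) := by rw [Finset.sum_mul]
      _ ≤ _ := mul_le_mul_of_nonneg_right (sum_iw D N θ p) (by positivity)
  have hΘ := TH_nn N θ
  have h3 : TH N θ * ((D.y + 2 * τ) * √(D.v p)) ≤ TH N θ * ((D.y + 2 * D.y) * √(D.v p)) := by
    gcongr
  refine (abs_add_le _ _).trans ((add_le_add h1 (h2.trans h3)).trans (le_of_eq ?_))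
  ring

theorem GT_bound (h : D.Ok C K) (hτ : 1 ≤ τ) (N : ℕ) (θ : Fin k → ℕ → ℝ) {p : ℕ}
    (hp : p ∈ D.P) (x : ι → ZMod p) : |GT D τ N θ p x| ≤ 2 * TH N θ * τ * √(D.v p) := by
  unfold GT
  refine (Finset.abs_sum_le_sum_abs _ _).trans ?_
  calc ∑ a, |iw D N (θ a) p * TZ D τ a p x| ≤ ∑ a, |iw D N (θ a) p| * (2 * τ * √(D.v p)) := by
        refine Finset.sum_le_sum fun a _ => ?_
        rw [abs_mul]
        exact mul_le_mul_of_nonneg_left (TZ_bound h hτ a hp x) (abs_nonneg _)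
    _ = (∑ a, |iw D N (θ a) p|) * (2 * τ * √(D.v p)) := by rw [Finset.sum_mul]
    _ ≤ TH N θ * (2 * τ * √(D.v p)) := mul_le_mul_of_nonneg_right (sum_iw D N θ p) (by positivity)
    _ = _ := by ring

theorem GT_mean (h : D.Ok C K) (N : ℕ) (θ : Fin k → ℕ → ℝ) {p : ℕ} (hp : p ∈ D.P) [NeZero p] :
    EM p (GT D τ N θ p) = 0 := by
  have e : GT D τ N θ p = fun x => ∑ a, iw D N (θ a) p * TZ D τ a p x := rfl
  rw [e, EM_sumF]
  refine Finset.sum_eq_zero fun a _ => ?_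
  have := TZ_mean (τ := τ) h a hp
  rw [EMt_eq] at this
  rw [EM_mulF, this, mul_zero]

theorem GC_mean (h : D.Ok C K) (N : ℕ) (θ : Fin k → ℕ → ℝ) {p : ℕ} (hp : p ∈ D.P) [NeZero p] :
    EM p (GC D N θ p) = 0 := by
  have e : GC D N θ p = fun x => ∑ a, cw D N (θ a) p * D.Z a p x := rfl
  rw [e, EM_sumF]
  refine Finset.sum_eq_zero fun a _ => ?_
  have := h.mean a p hp
  rw [EMt_eq] at this
  rw [EM_mulF, this, mul_zero]

/-- the error of the second moments -/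
theorem sm_err (h : D.Ok C K) (hK : 7 ≤ K) (hK2 : 2 ^ Fintype.card ι ≤ K) {r : ℝ} (hr : 0 ≤ r) :
    2 ^ Fintype.card ι * ((D.y : ℝ) ^ 2 / (2 * D.H + 1)) * (∑ p ∈ D.P, r * D.y * √(D.v p)) ^ 2 ≤
      2 * r ^ 2 * D.V / (K + 1) := by
  have h1 := h.roots (Finset.Subset.refl D.P)
  have h2 := h.box 6 hK hK2
  have hH : (0 : ℝ) < 2 * D.H + 1 := by positivity
  have hy : (K : ℝ) ≤ D.y := by exact_mod_cast h.large
  have hK1 : (1 : ℝ) ≤ K := by exact_mod_cast (by omega : 1 ≤ K)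
  have hV := h.pos
  have hyr : (0 : ℝ) < D.y := by linarith
  calc 2 ^ Fintype.card ι * ((D.y : ℝ) ^ 2 / (2 * D.H + 1)) * (∑ p ∈ D.P, r * D.y * √(D.v p)) ^ 2
      = 2 ^ Fintype.card ι * ((D.y : ℝ) ^ 2 / (2 * D.H + 1)) * (r ^ 2 * D.y ^ 2 *
        (∑ p ∈ D.P, √(D.v p)) ^ 2) := by
        rw [← Finset.mul_sum]
        ring
    _ ≤ 2 ^ Fintype.card ι * ((D.y : ℝ) ^ 2 / (2 * D.H + 1)) * (r ^ 2 * D.y ^ 2 * (D.y * D.V)) := by
        have h3 : (∑ p ∈ D.P, √(D.v p)) ^ 2 ≤ D.y * D.V := h1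
        gcongr
    _ = (2 ^ Fintype.card ι * (D.y : ℝ) ^ 6 / (2 * D.H + 1)) * (r ^ 2 * D.V / D.y) := by
        field_simp
    _ ≤ 1 * (r ^ 2 * D.V / D.y) := by
        refine mul_le_mul_of_nonneg_right ?_ (by positivity)
        rw [div_le_one hH]
        exact h2
    _ ≤ 2 * r ^ 2 * D.V / (K + 1) := by
        rw [one_mul, div_le_div_iff₀ hyr (by positivity)]
        have : 0 ≤ r ^ 2 * D.V := by positivity
        nlinarith

/-- **the second moment of the difference** -/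
theorem diff_mom (h : D.Ok C K) (hC : 0 ≤ C) (hK : 7 ≤ K) (hK2 : 2 ^ Fintype.card ι ≤ K)
    (hτ : 1 ≤ τ) (hτK : τ ≤ K) (N : ℕ) (θ : Fin k → ℕ → ℝ) :
    EB D.H (fun c => (SP (GC D N θ) D.P c - SP (GT D τ N θ) D.P c) ^ 2) ≤
      D.V * (TH N θ ^ 2 * (2 * k ^ 2 * C / τ ^ 2 + (2 * k ^ 2 * C + 50) / (K + 1))) := by
  have hy : (K : ℝ) ≤ D.y := by exact_mod_cast h.large
  have hV := h.pos
  have hΘ := TH_nn N θ
  have hKr : (0 : ℝ) < (K : ℝ) + 1 := by positivity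
  have h1 := mom2 D.P D.y h.prime (fun p x => GC D N θ p x - GT D τ N θ p x)
    (fun p => 5 * TH N θ * D.y * √(D.v p))
    (fun p => 2 * k * C * (∑ a, (cw D N (θ a) p - iw D N (θ a) p) ^ 2 * D.v p) +
        2 * (k ^ 2 * TH N θ ^ 2 * (C * D.v p / τ ^ 2)))
    (fun p hp x => diff_bound h hτ (hτK.trans hy) N θ hp x)
    (fun p hp => by
      have hne : NeZero p := ⟨(h.prime p hp).1.ne_zero⟩
      rw [EMt_eq, EM_sub' p (GC D N θ p) (GT D τ N θ p), GC_mean h N θ hp, GT_mean h N θ hp, sub_zero])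
    (fun p hp => by
      have hne : NeZero p := ⟨(h.prime p hp).1.ne_zero⟩
      rw [EMt_eq]
      exact diff_two h hC hτ N θ hp)
    D.H (by
      have h5 : D.y ^ 2 ≤ D.y ^ K := Nat.pow_le_pow_right (by have := h.large; omega) (by omega)
      have := h.high
      omega)
  have e : (fun c => (SP (GC D N θ) D.P c - SP (GT D τ N θ) D.P c) ^ 2) = fun c : ι → ℤ =>
      (∑ p ∈ D.P, (GC D N θ p (red p c) - GT D τ N θ p (red p c))) ^ 2 := by
    funext c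
    unfold SP
    rw [Finset.sum_sub_distrib]
  rw [e]
  refine h1.trans ?_
  have h2 := sm_err h hK hK2 (r := 5 * TH N θ) (by positivity)
  have h3 : ∑ p ∈ D.P, (2 * k * C * (∑ a, (cw D N (θ a) p - iw D N (θ a) p) ^ 2 * D.v p) +
      2 * (k ^ 2 * TH N θ ^ 2 * (C * D.v p / τ ^ 2))) ≤
      2 * k * C * (k * TH N θ ^ 2 * D.V / (K + 1)) + 2 * (k ^ 2 * TH N θ ^ 2 * (C * D.V / τ ^ 2)) := by
    rw [Finset.sum_add_distrib, ← Finset.mul_sum]
    refine add_le_add ?_ (le_of_eq ?_)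
    · refine mul_le_mul_of_nonneg_left ?_ (by positivity)
      rw [le_div_iff₀ hKr]
      exact sum_cw_iw h N θ
    · unfold WD.V
      rw [← Finset.mul_sum, ← Finset.mul_sum, ← Finset.sum_div, ← Finset.mul_sum]
  refine (add_le_add h3 h2).trans (le_of_eq ?_)
  field_simp
  ring

/-- the variance at a prime -/
theorem var_one (h : D.Ok C K) (hC : 0 ≤ C) (hτ : 1 ≤ τ) (N : ℕ) (θ : Fin k → ℕ → ℝ) {p : ℕ}
    (hp : p ∈ D.P) [NeZero p] :
    |EM p (fun x => GT D τ N θ p x ^ 2) - EM p (fun x => GI D N θ p x ^ 2)| ≤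
      3 * k ^ 2 * TH N θ ^ 2 * C * D.v p / τ := by
  have hv := (h.v0 p hp).le
  have hτ0 : 0 < τ := by linarith
  rw [← EM_sub' p (fun x => GT D τ N θ p x ^ 2) (fun x => GI D N θ p x ^ 2)]
  have h1 := EM_abs_le p (fun x => GT D τ N θ p x ^ 2 - GI D N θ p x ^ 2)
    (fun x => (1 / τ) * GI D N θ p x ^ 2 + (τ + 1) * GR D τ N θ p x ^ 2) fun x => by
      rw [GI_eq D τ]
      set g := GT D τ N θ p x
      set r := GR D τ N θ p x
      have e : g ^ 2 - (g + r) ^ 2 = r ^ 2 - 2 * ((g + r) * r) := by ring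
      rw [e]
      refine (abs_sub _ _).trans ?_
      rw [abs_of_nonneg (sq_nonneg r), abs_mul, abs_of_pos (by norm_num : (0 : ℝ) < 2), abs_mul]
      have h2 : 2 * (|g + r| * |r|) ≤ 1 / τ * (g + r) ^ 2 + τ * r ^ 2 := by
        rw [← sq_abs (g + r), ← sq_abs r]
        have h3 : 0 ≤ (|g + r| - τ * |r|) ^ 2 / τ := by positivity
        have e2 : (|g + r| - τ * |r|) ^ 2 / τ = 1 / τ * |g + r| ^ 2 + τ * |r| ^ 2 -
            2 * (|g + r| * |r|) := by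
          field_simp
          ring
        linarith
      linarith
  refine h1.trans ?_
  rw [EM_add' p (fun x => (1 / τ) * GI D N θ p x ^ 2) (fun x => (τ + 1) * GR D τ N θ p x ^ 2),
    EM_mulF p (1 / τ) (fun x => GI D N θ p x ^ 2), EM_mulF p (τ + 1) (fun x => GR D τ N θ p x ^ 2)]
  have h2 := GI_two h hC N θ hp
  have h3 := GR_two h hC hτ N θ hp
  set q : ℝ := k ^ 2 * TH N θ ^ 2 * (C * D.v p) with hq
  have hq0 : 0 ≤ q := by positivity
  have h4 : (1 / τ) * EM p (fun x => GI D N θ p x ^ 2) ≤ (1 / τ) * q :=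
    mul_le_mul_of_nonneg_left h2 (by positivity)
  have h5 : (τ + 1) * EM p (fun x => GR D τ N θ p x ^ 2) ≤ (2 * τ) * (q / τ ^ 2) := by
    refine mul_le_mul (by linarith) (h3.trans (le_of_eq ?_)) (EM_nn p _ fun x => sq_nonneg _)
      (by positivity)
    rw [hq]
    ring
  refine (add_le_add h4 h5).trans (le_of_eq ?_)
  rw [hq]
  field_simp
  ring

end

end Pool.Agent.U581.WW
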