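import Pool.Agent.U581.WW.Char

/-!
# Weighted sums of local data over primes: convergence of the characteristic functions
-/

set_option autoImplicit false
set_option linter.unusedSectionVars false

namespace Pool.Agent.U581.WW

open Finset Filter Topology Pool.Agent.Y722.HS Pool.Agent.X280.BP Pool.Agent.X280.UC
  Pool.Agent.X280.HG MeasureTheory Pool.Agent.U581.BM Pool.Agent.U581.FL
  Pool.Agent.U62.RB

variable {ι : Type} [Fintype ι] [DecidableEq ι] {k : ℕ} {C : ℝ}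

section

variable {D : WD ι k} {K : ℕ} {τ : ℝ}

/-- the covariance in the model -/
noncomputable def cf (D : WD ι k) (a b : Fin k) (p : ℕ) : ℝ :=
  EMt p (fun x => D.Z a p x * D.Z b p x)

theorem GI_sq (h : D.Ok C K) (N : ℕ) (θ : Fin k → ℕ → ℝ) {p : ℕ} (hp : p ∈ D.P) [NeZero p] :
    EM p (fun x => GI D N θ p x ^ 2) = ∑ a, ∑ b, iw D N (θ a) p * iw D N (θ b) p * cf D a b p := by
  have e : (fun x => GI D N θ p x ^ 2) = fun x => ∑ a, ∑ b, iw D N (θ a) p * iw D N (θ b) p *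
      (D.Z a p x * D.Z b p x) := by
    funext x
    unfold GI
    rw [sq, Finset.sum_mul]
    refine Finset.sum_congr rfl fun a _ => ?_
    rw [Finset.mul_sum]
    refine Finset.sum_congr rfl fun b _ => ?_
    ring
  rw [e, EM_sumF]
  refine Finset.sum_congr rfl fun a _ => ?_
  rw [EM_sumF]
  refine Finset.sum_congr rfl fun b _ => ?_
  rw [EM_mulF]
  unfold cf
  rw [EMt_eq]

theorem ps_iw (D : WD ι k) (N : ℕ) (θ θ' : ℕ → ℝ) (g : ℕ → ℝ) :
    ∑ p ∈ D.P, iw D N θ p * iw D N θ' p * g p =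
      ∑ i ∈ Finset.range (N + 1), ∑ j ∈ Finset.range (N + 1), θ i * θ' j *
        ps D.P g (min (node D.P D.v D.y (pt N i : unitInterval))
          (node D.P D.v D.y (pt N j : unitInterval))) := by
  have e : ∀ p ∈ D.P, iw D N θ p * iw D N θ' p * g p =
      ∑ i ∈ Finset.range (N + 1), ∑ j ∈ Finset.range (N + 1), θ i * θ' j *
        (if p < min (node D.P D.v D.y (pt N i : unitInterval))
          (node D.P D.v D.y (pt N j : unitInterval)) then g p else 0) := by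
    intro p _
    unfold iw
    rw [Finset.sum_mul_sum, Finset.sum_mul]
    refine Finset.sum_congr rfl fun i _ => ?_
    rw [Finset.sum_mul]
    refine Finset.sum_congr rfl fun j _ => ?_
    simp only [lt_min_iff]
    by_cases h1 : p < node D.P D.v D.y (pt N i : unitInterval)
    · by_cases h2 : p < node D.P D.v D.y (pt N j : unitInterval)
      · rw [if_pos h1, if_pos h2, if_pos ⟨h1, h2⟩]
        ring
      · rw [if_pos h1, if_neg h2, if_neg (show ¬ (p < node D.P D.v D.y (pt N i : unitInterval) ∧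
          p < node D.P D.v D.y (pt N j : unitInterval)) from fun h' => h2 h'.2)]
        ring
    · rw [if_neg h1, if_neg (show ¬ (p < node D.P D.v D.y (pt N i : unitInterval) ∧
        p < node D.P D.v D.y (pt N j : unitInterval)) from fun h' => h1 h'.1)]
      ring
  rw [Finset.sum_congr rfl e, Finset.sum_comm]
  refine Finset.sum_congr rfl fun i _ => ?_
  rw [Finset.sum_comm]
  refine Finset.sum_congr rfl fun j _ => ?_
  rw [← Finset.mul_sum]
  unfold ps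
  rw [Finset.sum_filter]

/-- the clock at the smaller node -/
theorem min_node (h : D.Ok C K) (s t : unitInterval) :
    |ps D.P D.v (min (node D.P D.v D.y s) (node D.P D.v D.y t)) - D.V * min (s : ℝ) (t : ℝ)| ≤
      D.V / (K + 1) := by
  have hKr : (0 : ℝ) < (K : ℝ) + 1 := by positivity
  have hy : ∀ p ∈ D.P, p ≤ D.y := fun p hp => (h.prime p hp).2
  have hV := h.pos
  have hM : ∀ p ∈ D.P, D.v p ≤ D.V / (K + 1) := by
    intro p hp
    rw [le_div_iff₀ hKr]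
    exact h.vK p hp
  have key : ∀ s : unitInterval, |ps D.P D.v (node D.P D.v D.y s) - D.V * (s : ℝ)| ≤
      D.V / (K + 1) := by
    intro s
    obtain ⟨-, a2, -⟩ := node_spec h.v0 hy s.2.1
    have a3 := node_clock h.v0 hy hM (by positivity) s.2.1 s.2.2
    change ps D.P D.v (node D.P D.v D.y s) ≤ (s : ℝ) * D.V at a2
    change (s : ℝ) * D.V - D.V / (K + 1) ≤ _ at a3
    have : 0 ≤ D.V / ((K : ℝ) + 1) := by positivity
    rw [abs_le]
    constructor <;> linarith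
  rcases le_total (s : ℝ) (t : ℝ) with hst | hst
  · rw [min_eq_left hst, min_eq_left (node_mono h.v0 hy s.2.1 hst)]
    exact key s
  · rw [min_eq_right hst, min_eq_right (node_mono h.v0 hy t.2.1 hst)]
    exact key t

theorem TH_sq (N : ℕ) (θ : Fin k → ℕ → ℝ) : TH N θ ^ 2 =
    ∑ a, ∑ b, ∑ i ∈ Finset.range (N + 1), ∑ j ∈ Finset.range (N + 1), |θ a i| * |θ b j| := by
  unfold TH
  rw [sq, Finset.sum_mul_sum]
  refine Finset.sum_congr rfl fun a _ => ?_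
  refine Finset.sum_congr rfl fun b _ => ?_
  rw [Finset.sum_mul_sum]

/-- the variance of the truncated combination -/
theorem VP_GI (h : D.Ok C K) (N : ℕ) (θ : Fin k → ℕ → ℝ) :
    |∑ p ∈ D.P, EMt p (fun x => GI D N θ p x ^ 2) - D.V * ∑ a, qform N (θ a)| ≤
      2 * TH N θ ^ 2 * D.V / (K + 1) := by
  have hKr : (0 : ℝ) < (K : ℝ) + 1 := by positivity
  have hV := h.pos
  set nd : ℕ → ℕ := fun i => node D.P D.v D.y (pt N i : unitInterval) with hnd
  have e1 : ∑ p ∈ D.P, EMt p (fun x => GI D N θ p x ^ 2) =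
      ∑ a, ∑ b, ∑ i ∈ Finset.range (N + 1), ∑ j ∈ Finset.range (N + 1), θ a i * θ b j *
        ps D.P (cf D a b) (min (nd i) (nd j)) := by
    have e2 : ∀ p ∈ D.P, EMt p (fun x => GI D N θ p x ^ 2) =
        ∑ a, ∑ b, iw D N (θ a) p * iw D N (θ b) p * cf D a b p := by
      intro p hp
      have hne : NeZero p := ⟨(h.prime p hp).1.ne_zero⟩
      rw [EMt_eq, GI_sq h N θ hp]
    rw [Finset.sum_congr rfl e2, Finset.sum_comm]
    refine Finset.sum_congr rfl fun a _ => ?_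
    rw [Finset.sum_comm]
    refine Finset.sum_congr rfl fun b _ => ?_
    exact ps_iw D N (θ a) (θ b) (cf D a b)
  have e3 : D.V * ∑ a, qform N (θ a) = ∑ a, ∑ b, ∑ i ∈ Finset.range (N + 1),
      ∑ j ∈ Finset.range (N + 1), θ a i * θ b j * (if a = b then D.V *
        min ((pt N i : unitInterval) : ℝ) ((pt N j : unitInterval) : ℝ) else 0) := by
    rw [Finset.mul_sum]
    refine Finset.sum_congr rfl fun a _ => ?_
    rw [Finset.sum_eq_single a]
    · unfold qform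
      rw [Finset.mul_sum]
      refine Finset.sum_congr rfl fun i _ => ?_
      rw [Finset.mul_sum]
      refine Finset.sum_congr rfl fun j _ => ?_
      rw [if_pos rfl]
      ring
    · intro b _ hb
      refine Finset.sum_eq_zero fun i _ => Finset.sum_eq_zero fun j _ => ?_
      rw [if_neg (Ne.symm hb), mul_zero]
    · intro hc
      exact absurd (Finset.mem_univ a) hc
  have key : ∀ a b i j, |ps D.P (cf D a b) (min (nd i) (nd j)) - (if a = b then D.V *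
      min ((pt N i : unitInterval) : ℝ) ((pt N j : unitInterval) : ℝ) else 0)| ≤
      2 * (D.V / (K + 1)) := by
    intro a b i j
    set x := min (nd i) (nd j) with hx
    have h1 := h.cov a b x
    have h2 : |ps D.P (cf D a b) x - (if a = b then ps D.P D.v x else 0)| ≤ D.V / (K + 1) := by
      rw [le_div_iff₀ hKr]
      refine le_trans (le_of_eq ?_) h1
      congr 2
      unfold ps cf
      rw [Finset.sum_sub_distrib]
      split_ifs with hab
      · rfl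
      · simp
    have h3 : |(if a = b then ps D.P D.v x else 0) - (if a = b then D.V *
        min ((pt N i : unitInterval) : ℝ) ((pt N j : unitInterval) : ℝ) else 0)| ≤
        D.V / (K + 1) := by
      split_ifs with hab
      · exact min_node h (pt N i) (pt N j)
      · rw [sub_self, abs_zero]
        positivity
    have e : ps D.P (cf D a b) x - (if a = b then D.V *
        min ((pt N i : unitInterval) : ℝ) ((pt N j : unitInterval) : ℝ) else 0) =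
        (ps D.P (cf D a b) x - (if a = b then ps D.P D.v x else 0)) +
        ((if a = b then ps D.P D.v x else 0) - (if a = b then D.V *
        min ((pt N i : unitInterval) : ℝ) ((pt N j : unitInterval) : ℝ) else 0)) := by ring
    rw [e]
    refine (abs_add_le _ _).trans ?_
    linarith
  rw [e1, e3, ← Finset.sum_sub_distrib]
  have e4 : 2 * TH N θ ^ 2 * D.V / (K + 1) = ∑ a, ∑ b, ∑ i ∈ Finset.range (N + 1),
      ∑ j ∈ Finset.range (N + 1), |θ a i| * |θ b j| * (2 * (D.V / (K + 1))) := by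
    simp only [← Finset.sum_mul]
    rw [← TH_sq]
    ring
  rw [e4]
  refine (Finset.abs_sum_le_sum_abs _ _).trans (Finset.sum_le_sum fun a _ => ?_)
  rw [← Finset.sum_sub_distrib]
  refine (Finset.abs_sum_le_sum_abs _ _).trans (Finset.sum_le_sum fun b _ => ?_)
  rw [← Finset.sum_sub_distrib]
  refine (Finset.abs_sum_le_sum_abs _ _).trans (Finset.sum_le_sum fun i _ => ?_)
  rw [← Finset.sum_sub_distrib]
  refine (Finset.abs_sum_le_sum_abs _ _).trans (Finset.sum_le_sum fun j _ => ?_)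
  rw [← mul_sub, abs_mul, abs_mul]
  exact mul_le_mul_of_nonneg_left (key a b i j) (by positivity)

theorem VP_GT (h : D.Ok C K) (hC : 0 ≤ C) (hτ : 1 ≤ τ) (N : ℕ) (θ : Fin k → ℕ → ℝ) :
    |VP (GT D τ N θ) D.P - D.V * ∑ a, qform N (θ a)| ≤
      D.V * (TH N θ ^ 2 * (3 * k ^ 2 * C / τ + 2 / (K + 1))) := by
  have h1 := VP_GI h N θ
  have h2 : |VP (GT D τ N θ) D.P - ∑ p ∈ D.P, EMt p (fun x => GI D N θ p x ^ 2)| ≤
      3 * k ^ 2 * TH N θ ^ 2 * C * D.V / τ := by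
    unfold VP
    rw [← Finset.sum_sub_distrib]
    refine (Finset.abs_sum_le_sum_abs _ _).trans ?_
    calc ∑ p ∈ D.P, |vv (GT D τ N θ) p - EMt p (fun x => GI D N θ p x ^ 2)|
        ≤ ∑ p ∈ D.P, 3 * k ^ 2 * TH N θ ^ 2 * C * D.v p / τ := by
          refine Finset.sum_le_sum fun p hp => ?_
          have hne : NeZero p := ⟨(h.prime p hp).1.ne_zero⟩
          rw [vv_eq, EMt_eq]
          exact var_one h hC hτ N θ hp
      _ = _ := by
          unfold WD.V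
          rw [← Finset.sum_div, ← Finset.mul_sum]
  have e : VP (GT D τ N θ) D.P - D.V * ∑ a, qform N (θ a) =
      (VP (GT D τ N θ) D.P - ∑ p ∈ D.P, EMt p (fun x => GI D N θ p x ^ 2)) +
      (∑ p ∈ D.P, EMt p (fun x => GI D N θ p x ^ 2) - D.V * ∑ a, qform N (θ a)) := by ring
  rw [e]
  refine (abs_add_le _ _).trans ((add_le_add h2 h1).trans (le_of_eq ?_))
  ring

/-- the second moment of the truncated combination -/
theorem GT_mom (h : D.Ok C K) (hC : 0 ≤ C) (hK : 7 ≤ K) (hK2 : 2 ^ Fintype.card ι ≤ K)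
    (hτ : 1 ≤ τ) (hτK : τ ≤ K) (N : ℕ) (θ : Fin k → ℕ → ℝ) :
    EB D.H (fun c => SP (GT D τ N θ) D.P c ^ 2) ≤ VP (GT D τ N θ) D.P +
      D.V * (TH N θ ^ 2 * (8 / (K + 1))) := by
  have hy : (K : ℝ) ≤ D.y := by exact_mod_cast h.large
  have hΘ := TH_nn N θ
  have h1 := mom2 D.P D.y h.prime (GT D τ N θ) (fun p => (2 * TH N θ) * D.y * √(D.v p))
    (fun p => vv (GT D τ N θ) p)
    (fun p hp x => (GT_bound h hτ N θ hp x).trans (by
      have : τ ≤ D.y := hτK.trans hy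
      gcongr))
    (fun p hp => by
      have hne : NeZero p := ⟨(h.prime p hp).1.ne_zero⟩
      rw [EMt_eq, GT_mean h N θ hp])
    (fun p hp => by
      have hne : NeZero p := ⟨(h.prime p hp).1.ne_zero⟩
      rw [EMt_eq, vv_eq])
    D.H (by
      have h5 : D.y ^ 2 ≤ D.y ^ K := Nat.pow_le_pow_right (by have := h.large; omega) (by omega)
      have := h.high
      omega)
  have h2 := sm_err h hK hK2 (r := 2 * TH N θ) (by positivity)
  have e : (fun c => SP (GT D τ N θ) D.P c ^ 2) = fun c : ι → ℤ =>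
      (∑ p ∈ D.P, GT D τ N θ p (red p c)) ^ 2 := rfl
  rw [e]
  refine h1.trans ?_
  unfold VP
  refine add_le_add le_rfl (h2.trans (le_of_eq ?_))
  ring

end

theorem far_le (Q R : (ι → ℤ) → ℝ) {η : ℝ} (hη : 0 < η) (c : ι → ℤ) :
    far Q R η c ≤ (Q c - R c) ^ 2 / η ^ 2 := by
  unfold far
  split_ifs with h
  · positivity
  · push Not at h
    rw [le_div_iff₀ (by positivity), one_mul, ← sq_abs (Q c - R c)]
    exact pow_le_pow_left₀ hη.le h.le 2

theorem exp_one_le2 (x : ℝ) {η : ℝ} (hη : 0 < η) :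
    ‖Complex.exp ((x : ℂ) * Complex.I) - 1‖ ≤ η + x ^ 2 / η := by
  have h := Pool.Agent.U62.RB.exp_dist x 0
  rw [Complex.ofReal_zero, zero_mul, Complex.exp_zero, sub_zero] at h
  refine h.trans ?_
  rw [← sq_abs x]
  have h1 : 0 ≤ (|x| - η) ^ 2 / η := by positivity
  have e : (|x| - η) ^ 2 / η = |x| ^ 2 / η - 2 * |x| + η := by
    field_simp
    ring
  have h2 : 0 ≤ |x| ^ 2 / η := by positivity
  by_cases h3 : |x| ≤ η
  · linarith
  · have := abs_nonneg x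
    linarith

/-- **the degenerate case** -/
theorem char_zero (hC : 0 ≤ C) (N : ℕ) (θ : Fin k → ℕ → ℝ) (h0 : ∑ a, qform N (θ a) = 0) {ε : ℝ}
    (hε : 0 < ε) : ∃ K : ℕ, ∀ D : WD ι k, D.Ok C K →
      ‖EBc D.H (fun c => Complex.exp (((SP (GC D N θ) D.P c / √D.V : ℝ) : ℂ) * Complex.I)) - 1‖ ≤
        ε := by
  obtain ⟨Θ, hΘe⟩ : ∃ Θ, Θ = TH N θ := ⟨_, rfl⟩
  have hΘ : 0 ≤ Θ := by rw [hΘe]; exact TH_nn N θ
  -- all errors at most `q / τ` with `τ` natural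
  set q : ℝ := Θ ^ 2 * (2 * k ^ 2 * C + (2 * k ^ 2 * C + 50) + 3 * k ^ 2 * C + 2 + 8) with hq
  have hq0 : 0 ≤ q := by positivity
  obtain ⟨n, hn⟩ := exists_nat_ge (16 * q / ε ^ 2)
  obtain ⟨d2, hd2⟩ : ∃ d2 : ℕ, d2 = 2 ^ Fintype.card ι := ⟨_, rfl⟩
  refine ⟨n + 7 + d2, fun D h => ?_⟩
  set K := n + 7 + d2 with hK
  have hK7 : 7 ≤ K := by omega
  have hKd : 2 ^ Fintype.card ι ≤ K := by omega
  have hV := h.pos
  have hKr : (0 : ℝ) < (K : ℝ) + 1 := by positivity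
  have hK1 : (1 : ℝ) ≤ K := by exact_mod_cast (by omega : 1 ≤ K)
  have hnK : (n : ℝ) ≤ K := by exact_mod_cast (by omega : n ≤ K)
  have hK0 : (0 : ℝ) < K := by linarith
  have m1 := diff_mom h hC hK7 hKd hK1 le_rfl N θ
  have m2 := GT_mom h hC hK7 hKd hK1 le_rfl N θ
  have m3 := VP_GT h hC hK1 N θ
  rw [h0, mul_zero, sub_zero] at m3
  have m4 := (abs_le.1 m3).2
  rw [← hΘe] at m1 m2 m4
  have i1 : 1 / (K : ℝ) ^ 2 ≤ 1 / K := by
    apply one_div_le_one_div_of_le hK0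
    nlinarith
  have i2 : 1 / ((K : ℝ) + 1) ≤ 1 / K := one_div_le_one_div_of_le hK0 (by linarith)
  have m5 : EB D.H (fun c => (SP (GC D N θ) D.P c) ^ 2) ≤ D.V * (2 * q / K) := by
    have e1 : EB D.H (fun c => (SP (GC D N θ) D.P c) ^ 2) ≤
        EB D.H (fun c => 2 * (SP (GC D N θ) D.P c - SP (GT D K N θ) D.P c) ^ 2 +
          2 * (SP (GT D K N θ) D.P c) ^ 2) := by
      refine EB_mono _ _ _ fun c => ?_
      nlinarith [sq_nonneg (SP (GC D N θ) D.P c - SP (GT D K N θ) D.P c - SP (GT D K N θ) D.P c)]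
    rw [EB_addF, EB_mul_left, EB_mul_left] at e1
    refine e1.trans ?_
    have e2 : D.V * (Θ ^ 2 * (2 * k ^ 2 * C / (K : ℝ) ^ 2 + (2 * k ^ 2 * C + 50) / (K + 1))) ≤
        D.V * (Θ ^ 2 * (2 * k ^ 2 * C + (2 * k ^ 2 * C + 50)) / K) := by
      refine mul_le_mul_of_nonneg_left ?_ hV.le
      have : 2 * k ^ 2 * C / (K : ℝ) ^ 2 + (2 * k ^ 2 * C + 50) / (K + 1) ≤
          (2 * k ^ 2 * C + (2 * k ^ 2 * C + 50)) / K := by
        have a1 : 2 * k ^ 2 * C / (K : ℝ) ^ 2 = 2 * k ^ 2 * C * (1 / (K : ℝ) ^ 2) := by ring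
        have a2 : (2 * k ^ 2 * C + 50) / ((K : ℝ) + 1) = (2 * k ^ 2 * C + 50) * (1 / (K + 1)) := by
          ring
        have a3 : (2 * k ^ 2 * C + (2 * k ^ 2 * C + 50)) / (K : ℝ) = 2 * k ^ 2 * C * (1 / K) +
          (2 * k ^ 2 * C + 50) * (1 / K) := by ring
        rw [a1, a2, a3]
        gcongr
      calc Θ ^ 2 * (2 * k ^ 2 * C / (K : ℝ) ^ 2 + (2 * k ^ 2 * C + 50) / (K + 1))
          ≤ Θ ^ 2 * ((2 * k ^ 2 * C + (2 * k ^ 2 * C + 50)) / K) :=
            mul_le_mul_of_nonneg_left this (sq_nonneg _)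
        _ = _ := by ring
    have e3 : D.V * (Θ ^ 2 * (3 * k ^ 2 * C / K + 2 / (K + 1))) + D.V * (Θ ^ 2 * (8 / (K + 1))) ≤
        D.V * (Θ ^ 2 * (3 * k ^ 2 * C + 2 + 8) / K) := by
      rw [← mul_add]
      refine mul_le_mul_of_nonneg_left ?_ hV.le
      have a1 : 3 * k ^ 2 * C / (K : ℝ) + 2 / (K + 1) + 8 / (K + 1) =
          3 * k ^ 2 * C * (1 / K) + 10 * (1 / ((K : ℝ) + 1)) := by ring
      have a2 : (3 * k ^ 2 * C + 2 + 8) / (K : ℝ) = 3 * k ^ 2 * C * (1 / K) + 10 * (1 / K) := by ring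
      have a3 : 3 * k ^ 2 * C / (K : ℝ) + 2 / (K + 1) + 8 / (K + 1) ≤
          (3 * k ^ 2 * C + 2 + 8) / (K : ℝ) := by
        rw [a1, a2]
        gcongr
      calc Θ ^ 2 * (3 * k ^ 2 * C / (K : ℝ) + 2 / (K + 1)) + Θ ^ 2 * (8 / (K + 1))
          = Θ ^ 2 * (3 * k ^ 2 * C / (K : ℝ) + 2 / (K + 1) + 8 / (K + 1)) := by ring
        _ ≤ Θ ^ 2 * ((3 * k ^ 2 * C + 2 + 8) / (K : ℝ)) := mul_le_mul_of_nonneg_left a3 (sq_nonneg _)
        _ = _ := by ring
    have e4 : D.V * (2 * q / K) = 2 * (D.V * (Θ ^ 2 * (2 * k ^ 2 * C + (2 * k ^ 2 * C + 50)) / K)) +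
        2 * (D.V * (Θ ^ 2 * (3 * k ^ 2 * C + 2 + 8) / K)) := by
      rw [hq]
      ring
    rw [e4]
    linarith
  have m6 : EB D.H (fun c => (SP (GC D N θ) D.P c / √D.V) ^ 2) ≤ 2 * q / K := by
    have e : (fun c : ι → ℤ => (SP (GC D N θ) D.P c / √D.V) ^ 2) = fun c =>
        (1 / D.V) * (SP (GC D N θ) D.P c) ^ 2 := by
      funext c
      rw [div_pow, Real.sq_sqrt hV.le]
      ring
    rw [e, EB_mul_left]
    calc 1 / D.V * EB D.H (fun c => (SP (GC D N θ) D.P c) ^ 2) ≤ 1 / D.V * (D.V * (2 * q / K)) :=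
          mul_le_mul_of_nonneg_left m5 (by positivity)
      _ = _ := by field_simp
  have e1 : EBc D.H (fun c => Complex.exp (((SP (GC D N θ) D.P c / √D.V : ℝ) : ℂ) * Complex.I)) - 1 =
      EBc D.H (fun c => Complex.exp (((SP (GC D N θ) D.P c / √D.V : ℝ) : ℂ) * Complex.I) - 1) := by
    rw [EBc_sub, Pool.Agent.U62.RB.EBc_one]
  rw [e1]
  have hη : 0 < ε / 2 := by positivity
  have h10 := EBc_mono_norm D.H (fun c => Complex.exp (((SP (GC D N θ) D.P c / √D.V : ℝ) : ℂ) *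
    Complex.I) - 1) (fun c => ε / 2 + (1 / (ε / 2)) * (SP (GC D N θ) D.P c / √D.V) ^ 2) (fun c => by
      refine (exp_one_le2 _ hη).trans (le_of_eq ?_)
      ring)
  refine h10.trans ?_
  rw [EB_addF, EB_mul_left, Pool.Agent.X280.BP.EB_const]
  have h11 : 1 / (ε / 2) * EB D.H (fun c => (SP (GC D N θ) D.P c / √D.V) ^ 2) ≤ ε / 2 := by
    calc 1 / (ε / 2) * EB D.H (fun c => (SP (GC D N θ) D.P c / √D.V) ^ 2)
        ≤ 1 / (ε / 2) * (2 * q / K) := mul_le_mul_of_nonneg_left m6 (by positivity)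
      _ = (4 * q / ε) / K := by field_simp; ring
      _ ≤ ε / 2 := by
          rw [div_le_iff₀ hK0, div_le_iff₀ hε]
          rw [div_le_iff₀ (by positivity)] at hn
          have : (n : ℝ) * ε ^ 2 ≤ K * ε ^ 2 := mul_le_mul_of_nonneg_right hnK (sq_nonneg _)
          nlinarith
  linarith

/-- **the general case** -/
theorem char_pos (hC : 0 ≤ C) (N : ℕ) (θ : Fin k → ℕ → ℝ) (h0 : 0 < ∑ a, qform N (θ a)) {ε : ℝ}
    (hε : 0 < ε) : ∃ K : ℕ, ∀ D : WD ι k, D.Ok C K →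
      ‖EBc D.H (fun c => Complex.exp (((SP (GC D N θ) D.P c / √D.V : ℝ) : ℂ) * Complex.I)) -
        ((Real.exp (-((∑ a, qform N (θ a)) / 2)) : ℝ) : ℂ)‖ ≤ ε := by
  obtain ⟨Θ, hΘe⟩ : ∃ Θ, Θ = TH N θ := ⟨_, rfl⟩
  have hΘ : 0 ≤ Θ := by rw [hΘe]; exact TH_nn N θ
  obtain ⟨Q, hQ⟩ : ∃ Q, Q = ∑ a, qform N (θ a) := ⟨_, rfl⟩
  rw [← hQ] at h0 ⊢
  have hsQ : 0 < √Q := Real.sqrt_pos.2 h0
  obtain ⟨m, hm⟩ := unif_char2 (ι := ι) (√Q) hε
  have hm0 : (0 : ℝ) < (m : ℝ) + 1 := by positivity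
  -- the truncation
  obtain ⟨n1, hn1⟩ := exists_nat_ge ((Θ ^ 2 * (2 * k ^ 2 * C) * (m + 1) ^ 3 / Q) * 2 +
    (Θ ^ 2 * (3 * k ^ 2 * C) * (m + 1) / Q) * 2 + 1)
  obtain ⟨τ, hτe⟩ : ∃ τ : ℝ, τ = n1 := ⟨_, rfl⟩
  have s1 : 0 ≤ Θ ^ 2 * (2 * k ^ 2 * C) * (m + 1) ^ 3 / Q := by positivity
  have s2 : 0 ≤ Θ ^ 2 * (3 * k ^ 2 * C) * (m + 1) / Q := by positivity
  have hτ1 : 1 ≤ τ := by rw [hτe]; linarith
  have hτ0 : 0 < τ := by linarith
  have t1 : Θ ^ 2 * (2 * k ^ 2 * C) * (m + 1) ^ 3 * 2 ≤ Q * τ := by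
    have h1 : Θ ^ 2 * (2 * k ^ 2 * C) * (m + 1) ^ 3 / Q ≤ τ / 2 := by rw [hτe]; linarith
    rw [div_le_iff₀ h0] at h1
    linarith
  have t2 : Θ ^ 2 * (3 * k ^ 2 * C) * (m + 1) * 2 ≤ Q * τ := by
    have h1 : Θ ^ 2 * (3 * k ^ 2 * C) * (m + 1) / Q ≤ τ / 2 := by rw [hτe]; linarith
    rw [div_le_iff₀ h0] at h1
    linarith
  -- the level
  obtain ⟨K1, hK1⟩ := exists_nat_ge (4 * Θ ^ 2 * τ ^ 2 * (m + 1) ^ 2 / Q)
  obtain ⟨K2, hK2⟩ := exists_nat_ge (Θ ^ 2 * (2 * k ^ 2 * C + 50) * (m + 1) ^ 3 * 2 / Q)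
  obtain ⟨K3, hK3⟩ := exists_nat_ge (4 * Θ ^ 2 * (m + 1) / Q)
  obtain ⟨d2, hd2⟩ : ∃ d2 : ℕ, d2 = 2 ^ Fintype.card ι := ⟨_, rfl⟩
  refine ⟨K1 + K2 + K3 + m + n1 + 7 + d2, fun D h => ?_⟩
  set K := K1 + K2 + K3 + m + n1 + 7 + d2 with hK
  have hK7 : 7 ≤ K := by omega
  have hKd : 2 ^ Fintype.card ι ≤ K := by omega
  have hV := h.pos
  have hKr : (0 : ℝ) < (K : ℝ) + 1 := by positivity
  have c1 : (K1 : ℝ) ≤ K := by exact_mod_cast (by omega : K1 ≤ K)
  have c2 : (K2 : ℝ) ≤ K := by exact_mod_cast (by omega : K2 ≤ K)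
  have c3 : (K3 : ℝ) ≤ K := by exact_mod_cast (by omega : K3 ≤ K)
  have hτK : τ ≤ K := by
    rw [hτe]
    exact_mod_cast (by omega : n1 ≤ K)
  have d1 : 4 * Θ ^ 2 * τ ^ 2 * (m + 1) ^ 2 ≤ Q * (K + 1) := by
    have h1 : 4 * Θ ^ 2 * τ ^ 2 * (m + 1) ^ 2 / Q ≤ K + 1 := by linarith
    rw [div_le_iff₀ h0] at h1
    linarith
  have d2' : Θ ^ 2 * (2 * k ^ 2 * C + 50) * (m + 1) ^ 3 * 2 ≤ Q * (K + 1) := by
    have h1 : Θ ^ 2 * (2 * k ^ 2 * C + 50) * (m + 1) ^ 3 * 2 / Q ≤ K + 1 := by linarith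
    rw [div_le_iff₀ h0] at h1
    linarith
  have d3 : 4 * Θ ^ 2 * (m + 1) ≤ Q * (K + 1) := by
    have h1 : 4 * Θ ^ 2 * (m + 1) / Q ≤ K + 1 := by linarith
    rw [div_le_iff₀ h0] at h1
    linarith
  obtain ⟨σ, hσ⟩ : ∃ σ : ℝ, σ = √D.V * √Q := ⟨_, rfl⟩
  have hsV : 0 < √D.V := Real.sqrt_pos.2 hV
  have hσ0 : 0 < σ := by rw [hσ]; positivity
  have hσ2 : σ ^ 2 = D.V * Q := by
    rw [hσ, mul_pow, Real.sq_sqrt hV.le, Real.sq_sqrt h0.le]
  have hmono := h.mono (show m ≤ K by omega)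
  have hOk : Dat2.Ok (⟨D.P, D.y, D.H, GT D τ N θ, fun c => SP (GC D N θ) D.P c / σ, σ⟩ : Dat2 ι)
      m := by
    refine ⟨fun p hp => (h.prime p hp).1, fun p hp => (h.prime p hp).2, hσ0, ?_, ?_, ?_, ?_, ?_, ?_⟩
    · intro p hp x
      change |GT D τ N θ p x| ≤ σ / (m + 1)
      have h1 := GT_bound h hτ1 N θ hp x
      rw [← hΘe] at h1
      refine h1.trans ?_
      rw [le_div_iff₀ hm0]
      refine abs_le_of_sq_le_sq' ?_ hσ0.le |>.2
      rw [hσ2]
      have hv := (h.v0 p hp).le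
      calc (2 * Θ * τ * √(D.v p) * (m + 1)) ^ 2 = (4 * Θ ^ 2 * τ ^ 2 * (m + 1) ^ 2) * √(D.v p) ^ 2 := by
            ring
        _ = (4 * Θ ^ 2 * τ ^ 2 * (m + 1) ^ 2) * D.v p := by rw [Real.sq_sqrt hv]
        _ ≤ Q * (K + 1) * D.v p := mul_le_mul_of_nonneg_right d1 hv
        _ = Q * (D.v p * (K + 1)) := by ring
        _ ≤ Q * D.V := mul_le_mul_of_nonneg_left (h.vK p hp) h0.le
        _ = D.V * Q := mul_comm _ _
    · intro p hp _
      exact GT_mean h N θ hp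
    · change |VP (GT D τ N θ) D.P - σ ^ 2| ≤ σ ^ 2 / (m + 1)
      rw [hσ2]
      have h1 := VP_GT h hC hτ1 N θ
      rw [← hQ, ← hΘe] at h1
      refine h1.trans ?_
      rw [show D.V * Q / ((m : ℝ) + 1) = D.V * (Q / (m + 1)) from mul_div_assoc _ _ _]
      refine mul_le_mul_of_nonneg_left ?_ hV.le
      rw [le_div_iff₀ hm0]
      have f1 : Θ ^ 2 * (3 * k ^ 2 * C / τ) * (m + 1) ≤ Q / 2 := by
        calc Θ ^ 2 * (3 * k ^ 2 * C / τ) * (m + 1) = (Θ ^ 2 * (3 * k ^ 2 * C) * (m + 1) * 2) / τ / 2 := by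
              ring
          _ ≤ (Q * τ) / τ / 2 := by gcongr
          _ = Q / 2 := by field_simp
      have f2 : Θ ^ 2 * (2 / (K + 1)) * (m + 1) ≤ Q / 2 := by
        calc Θ ^ 2 * (2 / ((K : ℝ) + 1)) * (m + 1) = (4 * Θ ^ 2 * (m + 1)) / (K + 1) / 2 := by ring
          _ ≤ (Q * (K + 1)) / (K + 1) / 2 := by gcongr
          _ = Q / 2 := by field_simp
      calc Θ ^ 2 * (3 * k ^ 2 * C / τ + 2 / (K + 1)) * (m + 1) =
          Θ ^ 2 * (3 * k ^ 2 * C / τ) * (m + 1) + Θ ^ 2 * (2 / (K + 1)) * (m + 1) := by ring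
        _ ≤ Q / 2 + Q / 2 := add_le_add f1 f2
        _ = Q := by ring
    · exact hmono.large
    · exact hmono.high
    · change EB D.H (far (fun c => SP (GC D N θ) D.P c / σ) (fun c => SP (GT D τ N θ) D.P c / σ)
        (1 / (m + 1))) ≤ 1 / (m + 1)
      have h1 : EB D.H (far (fun c => SP (GC D N θ) D.P c / σ) (fun c => SP (GT D τ N θ) D.P c / σ)
          (1 / (m + 1))) ≤ EB D.H (fun c => ((m + 1) ^ 2 / σ ^ 2) *
            (SP (GC D N θ) D.P c - SP (GT D τ N θ) D.P c) ^ 2) := by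
        refine EB_mono _ _ _ fun c => ?_
        refine (far_le _ _ (by positivity) c).trans (le_of_eq ?_)
        rw [← sub_div]
        field_simp
      refine h1.trans ?_
      rw [EB_mul_left]
      have h2 := diff_mom h hC hK7 hKd hτ1 hτK N θ
      rw [← hΘe] at h2
      refine (mul_le_mul_of_nonneg_left h2 (by positivity)).trans ?_
      rw [hσ2, div_mul_eq_mul_div, div_le_div_iff₀ (by positivity) hm0]
      have hτ2 : τ ≤ τ ^ 2 := by nlinarith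
      have f1 : Θ ^ 2 * (2 * k ^ 2 * C / τ ^ 2) * (m + 1) ^ 3 ≤ Q / 2 := by
        calc Θ ^ 2 * (2 * k ^ 2 * C / τ ^ 2) * (m + 1) ^ 3 =
            (Θ ^ 2 * (2 * k ^ 2 * C) * (m + 1) ^ 3 * 2) / τ ^ 2 / 2 := by ring
          _ ≤ (Q * τ) / τ ^ 2 / 2 := by gcongr
          _ ≤ (Q * τ ^ 2) / τ ^ 2 / 2 := by gcongr
          _ = Q / 2 := by field_simp
      have f2 : Θ ^ 2 * ((2 * k ^ 2 * C + 50) / (K + 1)) * (m + 1) ^ 3 ≤ Q / 2 := by
        calc Θ ^ 2 * ((2 * k ^ 2 * C + 50) / ((K : ℝ) + 1)) * (m + 1) ^ 3 =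
            (Θ ^ 2 * (2 * k ^ 2 * C + 50) * (m + 1) ^ 3 * 2) / (K + 1) / 2 := by ring
          _ ≤ (Q * (K + 1)) / (K + 1) / 2 := by gcongr
          _ = Q / 2 := by field_simp
      calc (m + 1) ^ 2 * (D.V * (Θ ^ 2 * (2 * k ^ 2 * C / τ ^ 2 + (2 * k ^ 2 * C + 50) / (K + 1)))) *
            (m + 1) = D.V * (Θ ^ 2 * (2 * k ^ 2 * C / τ ^ 2) * (m + 1) ^ 3 +
              Θ ^ 2 * ((2 * k ^ 2 * C + 50) / (K + 1)) * (m + 1) ^ 3) := by ring
        _ ≤ D.V * (Q / 2 + Q / 2) := by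
            refine mul_le_mul_of_nonneg_left (add_le_add f1 f2) hV.le
        _ = 1 * (D.V * Q) := by ring
  have h1 := hm _ hOk
  have e1 : (fun c => Complex.exp ((√Q * (⟨D.P, D.y, D.H, GT D τ N θ,
      fun c => SP (GC D N θ) D.P c / σ, σ⟩ : Dat2 ι).Q c : ℝ) * Complex.I)) =
      fun c => Complex.exp (((SP (GC D N θ) D.P c / √D.V : ℝ) : ℂ) * Complex.I) := by
    funext c
    have e2 : √Q * (⟨D.P, D.y, D.H, GT D τ N θ,
      fun c => SP (GC D N θ) D.P c / σ, σ⟩ : Dat2 ι).Q c = SP (GC D N θ) D.P c / √D.V := by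
      change √Q * (SP (GC D N θ) D.P c / σ) = _
      rw [hσ]
      field_simp
    rw [e2]
  rw [e1, Real.sq_sqrt h0.le] at h1
  exact h1

/-- **the characteristic functions** -/
theorem char_ww (hC : 0 ≤ C) (N : ℕ) (θ : Fin k → ℕ → ℝ) {ε : ℝ} (hε : 0 < ε) :
    ∃ K : ℕ, ∀ D : WD ι k, D.Ok C K →
      ‖EBc D.H (fun c => Complex.exp (((∑ a, ∑ i ∈ Finset.range (N + 1),
        θ a i * D.X c a (pt N i) : ℝ) : ℂ) * Complex.I)) -
        ((Real.exp (-((∑ a, qform N (θ a)) / 2)) : ℝ) : ℂ)‖ ≤ ε := by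
  simp only [WD.comb]
  have hQ0 : 0 ≤ ∑ a, qform N (θ a) := Finset.sum_nonneg fun a _ => qform_nn N (θ a)
  rcases eq_or_lt_of_le hQ0 with h0 | h0
  · obtain ⟨K, hK⟩ := char_zero (ι := ι) hC N θ h0.symm hε
    refine ⟨K, fun D h => ?_⟩
    rw [← h0]
    simpa using hK D h
  · exact char_pos hC N θ h0 hε

end Pool.Agent.U581.WW
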