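import Pool.Agent.U581.FL.Wts

/-!
# Paths of sums over a finite set of integers, run by a clock
-/

set_option autoImplicit false

namespace Pool.Agent.U581.WW

open Finset Real MeasureTheory Filter Topology Pool.Agent.U581.BM Pool.Agent.U581.FL

/-- the partial sum over the members of `P` less than `n` -/
noncomputable def ps (P : Finset ℕ) (g : ℕ → ℝ) (n : ℕ) : ℝ :=
  ∑ p ∈ P.filter (fun q => q < n), g p

/-- the path of the partial sums of `g`, run by the clock `v` -/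
noncomputable def wpath (P : Finset ℕ) (v g : ℕ → ℝ) : C(unitInterval, ℝ) where
  toFun t := (∑ p ∈ P, g p * cl ((t * (∑ q ∈ P, v q) - ps P v p) / v p)) / √(∑ q ∈ P, v q)
  continuous_toFun := by
    unfold cl
    fun_prop

theorem wpath_apply (P : Finset ℕ) (v g : ℕ → ℝ) (t : unitInterval) :
    wpath P v g t = (∑ p ∈ P, g p * cl ((t * (∑ q ∈ P, v q) - ps P v p) / v p)) /
      √(∑ q ∈ P, v q) := rfl

theorem ps_zero (P : Finset ℕ) (g : ℕ → ℝ) : ps P g 0 = 0 := by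
  unfold ps
  rw [Finset.filter_false_of_mem (fun q _ => Nat.not_lt_zero q), Finset.sum_empty]

theorem ps_top {P : Finset ℕ} (g : ℕ → ℝ) {n : ℕ} (h : ∀ p ∈ P, p < n) :
    ps P g n = ∑ p ∈ P, g p := by
  unfold ps
  rw [Finset.filter_true_of_mem h]

theorem ps_succ (P : Finset ℕ) (g : ℕ → ℝ) (n : ℕ) :
    ps P g (n + 1) = ps P g n + if n ∈ P then g n else 0 := by
  unfold ps
  split_ifs with h
  · have e : P.filter (fun q => q < n + 1) = insert n (P.filter (fun q => q < n)) := by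
      ext q
      simp only [Finset.mem_filter, Finset.mem_insert]
      constructor
      · rintro ⟨h1, h2⟩
        rcases Nat.lt_or_ge q n with h3 | h3
        · exact Or.inr ⟨h1, h3⟩
        · exact Or.inl (by omega)
      · rintro (h1 | ⟨h1, h2⟩)
        · subst h1
          exact ⟨h, by omega⟩
        · exact ⟨h1, by omega⟩
    rw [e, Finset.sum_insert (by simp), add_comm]
  · rw [add_zero]
    congr 1
    ext q
    simp only [Finset.mem_filter]
    constructor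
    · rintro ⟨h1, h2⟩
      refine ⟨h1, ?_⟩
      rcases Nat.lt_or_ge q n with h3 | h3
      · exact h3
      · have : q = n := by omega
        subst this
        exact absurd h1 h
    · rintro ⟨h1, h2⟩
      exact ⟨h1, by omega⟩

theorem ps_mono {P : Finset ℕ} {v : ℕ → ℝ} (hv : ∀ p ∈ P, 0 ≤ v p) {m n : ℕ} (h : m ≤ n) :
    ps P v m ≤ ps P v n := by
  unfold ps
  refine Finset.sum_le_sum_of_subset_of_nonneg (fun q hq => ?_) fun q hq _ =>
    hv q (Finset.mem_filter.1 hq).1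
  rw [Finset.mem_filter] at hq ⊢
  exact ⟨hq.1, by omega⟩

theorem ps_nn {P : Finset ℕ} {v : ℕ → ℝ} (hv : ∀ p ∈ P, 0 ≤ v p) (n : ℕ) : 0 ≤ ps P v n := by
  have := ps_mono hv (Nat.zero_le n)
  rwa [ps_zero] at this

open Classical in
/-- the node of a time -/
noncomputable def node (P : Finset ℕ) (v : ℕ → ℝ) (y : ℕ) (t : ℝ) : ℕ :=
  Nat.findGreatest (fun n => ps P v n ≤ t * ∑ q ∈ P, v q) (y + 1)

theorem node_spec {P : Finset ℕ} {v : ℕ → ℝ} (hv : ∀ p ∈ P, 0 < v p) {y : ℕ}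
    (hy : ∀ p ∈ P, p ≤ y) {t : ℝ} (h0 : 0 ≤ t) :
    node P v y t ≤ y + 1 ∧ ps P v (node P v y t) ≤ t * (∑ q ∈ P, v q) ∧
      (∀ n, node P v y t < n → n ≤ y + 1 → t * (∑ q ∈ P, v q) < ps P v n) := by
  classical
  have hV : 0 ≤ ∑ q ∈ P, v q := Finset.sum_nonneg fun q hq => (hv q hq).le
  refine ⟨Nat.findGreatest_le _, ?_, fun n h1 h2 => ?_⟩
  · exact Nat.findGreatest_spec (P := fun n => ps P v n ≤ t * ∑ q ∈ P, v q) (m := 0)
      (Nat.zero_le _) (by rw [ps_zero]; positivity)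
  · by_contra hc
    push Not at hc
    exact Nat.findGreatest_is_greatest h1 h2 hc

theorem node_mono {P : Finset ℕ} {v : ℕ → ℝ} (hv : ∀ p ∈ P, 0 < v p) {y : ℕ}
    (hy : ∀ p ∈ P, p ≤ y) {s t : ℝ} (h0 : 0 ≤ s) (hst : s ≤ t) : node P v y s ≤ node P v y t := by
  by_contra hc
  push Not at hc
  have hV : 0 ≤ ∑ q ∈ P, v q := Finset.sum_nonneg fun q hq => (hv q hq).le
  obtain ⟨a1, a2, a3⟩ := node_spec hv hy h0
  obtain ⟨b1, b2, b3⟩ := node_spec hv hy (h0.trans hst)
  have h1 := b3 _ hc a1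
  have h2 := mul_le_mul_of_nonneg_right hst hV
  linarith

/-- the clock at the node -/
theorem node_clock {P : Finset ℕ} {v : ℕ → ℝ} (hv : ∀ p ∈ P, 0 < v p) {y : ℕ}
    (hy : ∀ p ∈ P, p ≤ y) {M : ℝ} (hM : ∀ p ∈ P, v p ≤ M) (hM0 : 0 ≤ M) {t : ℝ} (h0 : 0 ≤ t)
    (h1 : t ≤ 1) : t * (∑ q ∈ P, v q) - M ≤ ps P v (node P v y t) := by
  have hV : 0 ≤ ∑ q ∈ P, v q := Finset.sum_nonneg fun q hq => (hv q hq).le
  obtain ⟨a1, a2, a3⟩ := node_spec hv hy h0
  rcases Nat.lt_or_ge (node P v y t) (y + 1) with h | h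
  · have h2 := a3 (node P v y t + 1) (Nat.lt_succ_self _) h
    rw [ps_succ] at h2
    have h3 : (if node P v y t ∈ P then v (node P v y t) else 0) ≤ M := by
      split_ifs with h4
      · exact hM _ h4
      · exact hM0
    linarith
  · have h2 : node P v y t = y + 1 := le_antisymm a1 h
    rw [h2, ps_top v (fun p hp => Nat.lt_succ_of_le (hy p hp))]
    have := mul_le_of_le_one_left hV h1
    linarith

/-- the weight of a term -/
theorem cl_lt {P : Finset ℕ} {v : ℕ → ℝ} (hv : ∀ p ∈ P, 0 < v p) {y : ℕ}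
    (hy : ∀ p ∈ P, p ≤ y) {t : ℝ} (h0 : 0 ≤ t) {p : ℕ} (hp : p ∈ P) (h : p < node P v y t) :
    cl ((t * (∑ q ∈ P, v q) - ps P v p) / v p) = 1 := by
  obtain ⟨a1, a2, a3⟩ := node_spec hv hy h0
  apply cl_one
  rw [one_le_div (hv p hp)]
  have h1 := ps_mono (fun q hq => (hv q hq).le) (show p + 1 ≤ node P v y t from h)
  rw [ps_succ, if_pos hp] at h1
  linarith

theorem cl_gt {P : Finset ℕ} {v : ℕ → ℝ} (hv : ∀ p ∈ P, 0 < v p) {y : ℕ}
    (hy : ∀ p ∈ P, p ≤ y) {t : ℝ} (h0 : 0 ≤ t) {p : ℕ} (hp : p ∈ P) (h : node P v y t < p) :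
    cl ((t * (∑ q ∈ P, v q) - ps P v p) / v p) = 0 := by
  obtain ⟨a1, a2, a3⟩ := node_spec hv hy h0
  apply cl_zero
  have := a3 p h ((hy p hp).trans (Nat.le_succ _))
  exact div_nonpos_of_nonpos_of_nonneg (by linarith) (hv p hp).le

/-- **the value of the path** -/
theorem wpath_val {P : Finset ℕ} {v : ℕ → ℝ} (hv : ∀ p ∈ P, 0 < v p) {y : ℕ}
    (hy : ∀ p ∈ P, p ≤ y) (g : ℕ → ℝ) (t : unitInterval) : ∃ s : ℝ, 0 ≤ s ∧ s ≤ 1 ∧
      wpath P v g t = ((1 - s) * ps P g (node P v y t) + s * ps P g (node P v y t + 1)) /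
        √(∑ q ∈ P, v q) := by
  set m := node P v y (t : ℝ) with hm
  refine ⟨cl (((t : ℝ) * (∑ q ∈ P, v q) - ps P v m) / v m), (cl_mem _).1, (cl_mem _).2, ?_⟩
  rw [wpath_apply]
  congr 1
  have e : ∀ p ∈ P, g p * cl (((t : ℝ) * (∑ q ∈ P, v q) - ps P v p) / v p) =
      (if p < m then g p else 0) + if p = m then
        g m * cl (((t : ℝ) * (∑ q ∈ P, v q) - ps P v m) / v m) else 0 := by
    intro p hp
    rcases lt_trichotomy p m with h | h | h
    · rw [if_pos h, if_neg h.ne, cl_lt hv hy t.2.1 hp h, mul_one, add_zero]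
    · rw [if_neg (by omega), if_pos h, zero_add, h]
    · rw [if_neg (by omega), if_neg h.ne', cl_gt hv hy t.2.1 hp h, mul_zero, add_zero]
  rw [Finset.sum_congr rfl e, Finset.sum_add_distrib, ← Finset.sum_filter, Finset.sum_ite_eq', ps_succ]
  unfold ps
  split_ifs <;> ring

/-- the oscillation in a block -/
theorem wpath_block {P : Finset ℕ} {v : ℕ → ℝ} (hv : ∀ p ∈ P, 0 < v p) {y : ℕ}
    (hy : ∀ p ∈ P, p ≤ y) (hV : 0 < ∑ q ∈ P, v q) (g : ℕ → ℝ) {s t s' : unitInterval}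
    (hst : s ≤ t) (hts : t ≤ s') {E : ℝ}
    (hE : ∀ n, node P v y s ≤ n → n ≤ node P v y s' + 1 → |ps P g n - ps P g (node P v y s)| ≤ E) :
    |wpath P v g t - wpath P v g s| ≤ 2 * E / √(∑ q ∈ P, v q) := by
  obtain ⟨a, a0, a1, ea⟩ := wpath_val hv hy g t
  obtain ⟨b, b0, b1, eb⟩ := wpath_val hv hy g s
  have hsq : 0 < √(∑ q ∈ P, v q) := Real.sqrt_pos.2 hV
  have n1 := node_mono hv hy s.2.1 (show (s : ℝ) ≤ t from hst)
  have n2 := node_mono hv hy t.2.1 (show (t : ℝ) ≤ s' from hts)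
  have e1 := hE (node P v y t) n1 (by omega)
  have e2 := hE (node P v y t + 1) (by omega) (by omega)
  have e3 := hE (node P v y s) le_rfl (by omega)
  have e4 := hE (node P v y s + 1) (by omega) (by omega)
  rw [ea, eb, ← sub_div, abs_div, abs_of_pos hsq]
  apply div_le_div_of_nonneg_right _ hsq.le
  set x0 := ps P g (node P v y s) with hx0
  have e : (1 - a) * ps P g (node P v y t) + a * ps P g (node P v y t + 1) -
      ((1 - b) * x0 + b * ps P g (node P v y s + 1)) =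
      ((1 - a) * (ps P g (node P v y t) - x0) + a * (ps P g (node P v y t + 1) - x0)) -
      b * (ps P g (node P v y s + 1) - x0) := by ring
  rw [e]
  have f1 : |(1 - a) * (ps P g (node P v y t) - x0) + a * (ps P g (node P v y t + 1) - x0)| ≤ E := by
    refine (abs_add_le _ _).trans ?_
    rw [abs_mul, abs_mul, abs_of_nonneg a0, abs_of_nonneg (by linarith : 0 ≤ 1 - a)]
    nlinarith
  have f2 : |b * (ps P g (node P v y s + 1) - x0)| ≤ E := by
    rw [abs_mul, abs_of_nonneg b0]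
    have := abs_nonneg (ps P g (node P v y s + 1) - x0)
    nlinarith
  refine (abs_sub _ _).trans ?_
  linarith

end Pool.Agent.U581.WW
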