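import Pool.Agent.U581.WW.Time
import Pool.Agent.U62.CL.Osc

/-!
# The linear scale: sums with the weights `log p`
-/

set_option autoImplicit false
set_option linter.unusedSectionVars false

namespace Pool.Agent.U581.WW

open Finset Filter Topology Pool.Agent.Y722.HS MeasureTheory Pool.Agent.U581.BM
  Pool.Agent.U581.FL Pool.Agent.U62.CL

/-- the function on the members of `P`, zero elsewhere -/
noncomputable def on (P : Finset ℕ) (g : ℕ → ℝ) (n : ℕ) : ℝ := if n ∈ P then g n else 0

theorem ps_range (P : Finset ℕ) (h0 : 0 ∉ P) (g : ℕ → ℝ) (m : ℕ) :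
    ∑ x ∈ Finset.range m, on P g (x + 1) = ps P g (m + 1) := by
  induction m with
  | zero =>
    rw [Finset.sum_range_zero, ps_succ, ps_zero, if_neg h0, add_zero]
  | succ m ih => rw [Finset.sum_range_succ, ih, ps_succ P g (m + 1)]; rfl

/-- the time change of the linear scale -/
noncomputable def ltau (P : Finset ℕ) (v : ℕ → ℝ) (T : ℕ) : C(unitInterval, ℝ) where
  toFun t := (∑ x ∈ Finset.range T, on P v (x + 1) * cl (T * t - x)) / ∑ q ∈ P, v q
  continuous_toFun := by
    unfold cl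
    fun_prop

/-- the polygonal path of the linear scale -/
noncomputable def lin (P : Finset ℕ) (v g : ℕ → ℝ) (T : ℕ) : C(unitInterval, ℝ) where
  toFun t := (∑ x ∈ Finset.range T, on P g (x + 1) * cl (T * t - x)) / √(∑ q ∈ P, v q)
  continuous_toFun := by
    unfold cl
    fun_prop

section

variable {P : Finset ℕ} {v : ℕ → ℝ} {T : ℕ}

theorem on_nn (hv : ∀ p ∈ P, 0 < v p) (n : ℕ) : 0 ≤ on P v n := by
  unfold on
  split_ifs with h
  · exact (hv n h).le
  · exact le_rfl

theorem ltau_val (h0 : 0 ∉ P) {t : unitInterval} {m : ℕ} (hm : m < T) (h1 : (m : ℝ) ≤ T * t)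
    (h2 : (T : ℝ) * t ≤ m + 1) : ltau P v T t =
      (ps P v (m + 1) + on P v (m + 1) * (T * t - m)) / ∑ q ∈ P, v q := by
  change (∑ x ∈ Finset.range T, on P v (x + 1) * cl (T * t - x)) / ∑ q ∈ P, v q = _
  rw [cl_sum (fun x => on P v (x + 1)) hm h1 h2, ps_range P h0]

theorem ltau_mem (h0 : 0 ∉ P) (hP : ∀ p ∈ P, p ≤ T) (hv : ∀ p ∈ P, 0 < v p) (t : unitInterval) :
    ltau P v T t ∈ unitInterval := by
  have hV : 0 ≤ ∑ q ∈ P, v q := Finset.sum_nonneg fun q hq => (hv q hq).le
  have h1 : 0 ≤ ∑ x ∈ Finset.range T, on P v (x + 1) * cl (T * t - x) :=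
    Finset.sum_nonneg fun x _ => mul_nonneg (on_nn hv _) (cl_mem _).1
  have h2 : ∑ x ∈ Finset.range T, on P v (x + 1) * cl (T * t - x) ≤ ∑ q ∈ P, v q := by
    calc ∑ x ∈ Finset.range T, on P v (x + 1) * cl (T * t - x) ≤ ∑ x ∈ Finset.range T, on P v (x + 1) :=
          Finset.sum_le_sum fun x _ => mul_le_of_le_one_right (on_nn hv _) (cl_mem _).2
      _ = ps P v (T + 1) := ps_range P h0 v T
      _ = _ := ps_top v fun p hp => Nat.lt_succ_of_le (hP p hp)
  exact ⟨div_nonneg h1 hV, div_le_one_of_le₀ h2 hV⟩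

/-- the time change -/
noncomputable def ltc (h0 : 0 ∉ P) (hP : ∀ p ∈ P, p ≤ T) (hv : ∀ p ∈ P, 0 < v p) :
    C(unitInterval, unitInterval) :=
  ⟨fun t => ⟨ltau P v T t, ltau_mem h0 hP hv t⟩, by fun_prop⟩

/-- **the identity of the paths** -/
theorem lin_eq (h0 : 0 ∉ P) (hP : ∀ p ∈ P, p ≤ T) (hv : ∀ p ∈ P, 0 < v p)
    (hV : 0 < ∑ q ∈ P, v q) (hT : 0 < T) (g : ℕ → ℝ) :
    (wpath P v g).comp (ltc h0 hP hv) = lin P v g T := by
  ext t
  obtain ⟨m, hm, h1, h2⟩ := exists_block hT t
  change wpath P v g (ltc h0 hP hv t) = (∑ x ∈ Finset.range T, on P g (x + 1) * cl (T * t - x)) /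
    √(∑ q ∈ P, v q)
  rw [cl_sum (fun x => on P g (x + 1)) hm h1 h2, ps_range P h0, wpath_apply]
  congr 1
  have hτ : ((ltc h0 hP hv t : unitInterval) : ℝ) * (∑ q ∈ P, v q) =
      ps P v (m + 1) + on P v (m + 1) * (T * t - m) := by
    change ltau P v T t * _ = _
    rw [ltau_val h0 hm h1 h2]
    field_simp
  rw [hτ]
  have hθ0 : 0 ≤ (T : ℝ) * t - m := by linarith
  have hθ1 : (T : ℝ) * t - m ≤ 1 := by linarith
  have e : ∀ p ∈ P, g p * cl ((ps P v (m + 1) + on P v (m + 1) * (T * t - m) - ps P v p) / v p) =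
      (if p < m + 1 then g p else 0) + if p = m + 1 then g (m + 1) * (T * t - m) else 0 := by
    intro p hp
    have hvp := hv p hp
    rcases lt_trichotomy p (m + 1) with h | h | h
    · rw [if_pos h, if_neg h.ne, add_zero]
      rw [cl_one, mul_one]
      rw [one_le_div hvp]
      have h3 := ps_mono (fun q hq => (hv q hq).le) (show p + 1 ≤ m + 1 from h)
      rw [ps_succ, if_pos hp] at h3
      have := mul_nonneg (on_nn hv (m + 1)) hθ0
      linarith
    · rw [if_neg (by omega), if_pos h, zero_add, ← h]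
      have e2 : (ps P v p + on P v p * (T * t - m) - ps P v p) / v p = T * t - m := by
        unfold on
        rw [if_pos hp]
        field_simp
        ring
      rw [e2, cl_self hθ0 hθ1]
    · rw [if_neg (by omega), if_neg (by omega), add_zero]
      rw [cl_zero, mul_zero]
      apply div_nonpos_of_nonpos_of_nonneg _ hvp.le
      have h3 := ps_mono (fun q hq => (hv q hq).le) (show m + 1 + 1 ≤ p from h)
      rw [ps_succ P v (m + 1)] at h3
      have h4 : on P v (m + 1) * (T * t - m) ≤ on P v (m + 1) :=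
        mul_le_of_le_one_right (on_nn hv _) hθ1
      have h5 : (if m + 1 ∈ P then v (m + 1) else 0) = on P v (m + 1) := rfl
      rw [h5] at h3
      linarith
  rw [Finset.sum_congr rfl e, Finset.sum_add_distrib, ← Finset.sum_filter, Finset.sum_ite_eq']
  unfold ps on
  split_ifs <;> ring

/-- the distance of the time change from the identity -/
theorem ltau_near (h0 : 0 ∉ P) (hP : ∀ p ∈ P, p ≤ T) (hv : ∀ p ∈ P, 0 < v p)
    (hV : 0 < ∑ q ∈ P, v q) (hT : 0 < T) {ρ : ℝ}
    (h : ∀ x ≤ T, |ps P v (x + 1) / (∑ q ∈ P, v q) - x / T| ≤ ρ) (t : unitInterval) :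
    |((ltc h0 hP hv t : unitInterval) : ℝ) - t| ≤ ρ := by
  obtain ⟨m, hm, h1, h2⟩ := exists_block hT t
  change |ltau P v T t - t| ≤ ρ
  have hTr : (0 : ℝ) < T := by exact_mod_cast hT
  rw [ltau_val h0 hm h1 h2]
  have a1 := h m hm.le
  have a2 := h (m + 1) hm
  rw [ps_succ P v (m + 1)] at a2
  have h5 : (if m + 1 ∈ P then v (m + 1) else 0) = on P v (m + 1) := rfl
  rw [h5] at a2
  set θ := (T : ℝ) * t - m with hθ
  have hθ0 : 0 ≤ θ := by linarith
  have hθ1 : θ ≤ 1 := by linarith
  have ht : (t : ℝ) = (1 - θ) * (m / T) + θ * (((m + 1 : ℕ) : ℝ) / T) := by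
    push_cast
    rw [hθ]
    field_simp
    ring
  have e : (ps P v (m + 1) + on P v (m + 1) * θ) / (∑ q ∈ P, v q) - t =
      (1 - θ) * (ps P v (m + 1) / (∑ q ∈ P, v q) - m / T) +
      θ * ((ps P v (m + 1) + on P v (m + 1)) / (∑ q ∈ P, v q) - ((m + 1 : ℕ) : ℝ) / T) := by
    rw [ht]
    ring
  rw [e]
  refine (abs_add_le _ _).trans ?_
  rw [abs_mul, abs_mul, abs_of_nonneg hθ0, abs_of_nonneg (by linarith : 0 ≤ 1 - θ)]
  nlinarith

end

/-- the sum of the squares of the logarithms of the primes -/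
theorem log_sq_sum {ε : ℝ} (hε : 0 < ε) : ∃ T0 : ℕ, ∀ T : ℕ, T0 ≤ T → ∀ x ≤ T,
    |ps (PT T) (fun p => Real.log p ^ 2) (x + 1) - x * Real.log T| ≤ ε * (T * Real.log T) := by
  -- `θ (x) = x + O (δ T)` uniformly
  obtain ⟨δ, hδ⟩ : ∃ δ, δ = min (ε / 8) 1 := ⟨_, rfl⟩
  have hδ0 : 0 < δ := by rw [hδ]; positivity
  have hδ1 : δ ≤ 1 := by rw [hδ]; exact min_le_right _ _
  have hδε : δ ≤ ε / 8 := by rw [hδ]; exact min_le_left _ _
  obtain ⟨n0, hn0⟩ := theta_err hδ0
  have htend := (Real.tendsto_log_atTop.comp tendsto_natCast_atTop_atTop).eventually_ge_atTop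
    (-Real.log δ / δ + 1)
  obtain ⟨N1, hN1⟩ := eventually_atTop.1 htend
  obtain ⟨N2, hN2⟩ := exists_nat_ge ((n0 : ℝ) / δ)
  refine ⟨max (max N1 N2) 2, fun T hT x hx => ?_⟩
  have hT1 := hN1 T ((le_max_left _ _).trans ((le_max_left _ _).trans hT))
  rw [Function.comp_apply] at hT1
  have hT2 : (n0 : ℝ) ≤ δ * T := by
    have h1 : (N2 : ℝ) ≤ T := by exact_mod_cast (le_max_right _ _).trans ((le_max_left _ _).trans hT)
    rw [div_le_iff₀ hδ0] at hN2
    nlinarith
  have hT3 : 2 ≤ T := (le_max_right _ _).trans hT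
  have hTr : (0 : ℝ) < T := by exact_mod_cast (by omega : 0 < T)
  have hlogδ : Real.log δ ≤ 0 := Real.log_nonpos hδ0.le hδ1
  have hlogT : 1 ≤ Real.log T := by
    have : 0 ≤ -Real.log δ / δ := div_nonneg (by linarith) hδ0.le
    linarith
  have hlogδT : -Real.log δ ≤ δ * Real.log T := by
    have h1 : -Real.log δ / δ ≤ Real.log T := by linarith
    rw [div_le_iff₀ hδ0] at h1
    linarith
  -- theta
  have hθ : ∀ n : ℕ, n ≤ T → |Chebyshev.theta (n : ℝ) - n| ≤ δ * T := by
    intro n hn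
    have hnT : (n : ℝ) ≤ T := by exact_mod_cast hn
    rcases le_or_gt n0 n with h | h
    · refine (hn0 n h).trans ?_
      exact mul_le_mul_of_nonneg_left hnT hδ0.le
    · refine (theta_err' n).trans ?_
      have : (n : ℝ) ≤ n0 := by exact_mod_cast h.le
      linarith
  have hps : ∀ n : ℕ, n ≤ T → ps (PT T) (fun p => Real.log p) (n + 1) = Chebyshev.theta (n : ℝ) := by
    intro n hn
    rw [Chebyshev.theta_eq_sum_Icc, Nat.floor_natCast]
    unfold ps PT
    rw [Finset.filter_filter]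
    refine Finset.sum_congr ?_ fun _ _ => rfl
    ext p
    simp only [Finset.mem_filter, Finset.mem_range, Finset.mem_Icc]
    constructor
    · rintro ⟨h1, h2, h3⟩
      exact ⟨⟨Nat.zero_le _, by omega⟩, h2⟩
    · rintro ⟨⟨_, h1⟩, h2⟩
      exact ⟨by omega, h2, by omega⟩
  have hprime : ∀ p ∈ PT T, p.Prime ∧ p ≤ T := by
    intro p hp
    unfold PT at hp
    rw [Finset.mem_filter, Finset.mem_range] at hp
    exact ⟨hp.2, by omega⟩
  have hlog0 : ∀ p ∈ PT T, 0 ≤ Real.log p := fun p hp =>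
    Real.log_nonneg (by exact_mod_cast (hprime p hp).1.one_lt.le)
  -- the upper bound
  have hup : ps (PT T) (fun p => Real.log p ^ 2) (x + 1) ≤ Real.log T * Chebyshev.theta (x : ℝ) := by
    rw [← hps x hx]
    unfold ps
    rw [Finset.mul_sum]
    refine Finset.sum_le_sum fun p hp => ?_
    have hpT := (Finset.mem_filter.1 hp).1
    have h1 := hlog0 p hpT
    have h2 : Real.log p ≤ Real.log T := Real.log_le_log
      (by exact_mod_cast (hprime p hpT).1.pos) (by exact_mod_cast (hprime p hpT).2)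
    rw [sq]
    exact mul_le_mul_of_nonneg_right h2 h1
  -- the lower bound
  obtain ⟨x0, hx0⟩ : ∃ x0 : ℕ, x0 = ⌊δ * T⌋₊ := ⟨_, rfl⟩
  have hx0T : (x0 : ℝ) ≤ δ * T := by rw [hx0]; exact Nat.floor_le (by positivity)
  have hx0T' : δ * T < x0 + 1 := by rw [hx0]; exact Nat.lt_floor_add_one _
  have hx0T2 : x0 ≤ T := by
    have : (x0 : ℝ) ≤ T := hx0T.trans (mul_le_of_le_one_left hTr.le hδ1)
    exact_mod_cast this
  have hlo : (Real.log T + Real.log δ) * (Chebyshev.theta (x : ℝ) - Chebyshev.theta (x0 : ℝ)) ≤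
      ps (PT T) (fun p => Real.log p ^ 2) (x + 1) := by
    have hfac : 0 ≤ Real.log T + Real.log δ := by nlinarith
    rw [← hps x hx, ← hps x0 hx0T2]
    have h1 : ps (PT T) (fun p => Real.log p) (x + 1) - ps (PT T) (fun p => Real.log p) (x0 + 1) ≤
        ∑ p ∈ (PT T).filter (fun q => q < x + 1), if x0 < p then Real.log p else 0 := by
      unfold ps
      have h2 : ∑ p ∈ (PT T).filter (fun q => q < x + 1), Real.log p ≤
          ∑ p ∈ (PT T).filter (fun q => q < x0 + 1), Real.log p +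
          ∑ p ∈ (PT T).filter (fun q => q < x + 1), if x0 < p then Real.log p else 0 := by
        have h3 : ∑ p ∈ (PT T).filter (fun q => q < x + 1), Real.log p =
            ∑ p ∈ (PT T).filter (fun q => q < x + 1), (if x0 < p then 0 else Real.log p) +
            ∑ p ∈ (PT T).filter (fun q => q < x + 1), if x0 < p then Real.log p else 0 := by
          rw [← Finset.sum_add_distrib]
          refine Finset.sum_congr rfl fun p _ => ?_
          split_ifs <;> ring
        rw [h3]
        refine add_le_add ?_ le_rfl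
        have h4 : ∑ p ∈ (PT T).filter (fun q => q < x + 1), (if x0 < p then 0 else Real.log p) ≤
            ∑ p ∈ PT T, (if x0 < p then 0 else Real.log p) := by
          refine Finset.sum_le_sum_of_subset_of_nonneg (Finset.filter_subset _ _) fun p hp _ => ?_
          split_ifs
          · exact le_rfl
          · exact hlog0 p hp
        refine h4.trans (le_of_eq ?_)
        rw [Finset.sum_filter]
        refine Finset.sum_congr rfl fun p _ => ?_
        by_cases h5 : x0 < p
        · rw [if_pos h5, if_neg (by omega)]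
        · rw [if_neg h5, if_pos (by omega)]
      linarith
    refine (mul_le_mul_of_nonneg_left h1 hfac).trans ?_
    unfold ps
    rw [Finset.mul_sum]
    refine Finset.sum_le_sum fun p hp => ?_
    have hpT := (Finset.mem_filter.1 hp).1
    have h3 := hlog0 p hpT
    split_ifs with h5
    · have h6 : Real.log T + Real.log δ ≤ Real.log p := by
        rw [← Real.log_mul hTr.ne' hδ0.ne']
        apply Real.log_le_log (by positivity)
        have h7 : (x0 : ℝ) + 1 ≤ p := by exact_mod_cast h5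
        linarith
      rw [sq]
      exact mul_le_mul_of_nonneg_right h6 h3
    · rw [mul_zero]
      positivity
  have hxT : (x : ℝ) ≤ T := by exact_mod_cast hx
  have hx0r : (0 : ℝ) ≤ x := Nat.cast_nonneg x
  have t1 := abs_le.1 (hθ x hx)
  have t2 := abs_le.1 (hθ x0 hx0T2)
  have hδT : 0 ≤ δ * T := by positivity
  have hTL : 0 ≤ T * Real.log T := by positivity
  rw [abs_le]
  constructor
  · -- lower
    have h1 : (x : ℝ) - 3 * (δ * T) ≤ Chebyshev.theta (x : ℝ) - Chebyshev.theta (x0 : ℝ) := by linarith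
    have hfac : 0 ≤ Real.log T + Real.log δ := by nlinarith
    have h2 := mul_le_mul_of_nonneg_left h1 hfac
    have h3 : (Real.log T + Real.log δ) * ((x : ℝ) - 3 * (δ * T)) ≥
        x * Real.log T - 4 * (δ * (T * Real.log T)) := by
      have h4 : -Real.log δ * x ≤ (δ * Real.log T) * T :=
        mul_le_mul hlogδT hxT hx0r (by positivity)
      have h5 : Real.log δ * (3 * (δ * T)) ≤ 0 := mul_nonpos_of_nonpos_of_nonneg hlogδ (by positivity)
      nlinarith
    nlinarith
  · have h1 : Chebyshev.theta (x : ℝ) ≤ x + δ * T := by linarith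
    have h2 := mul_le_mul_of_nonneg_left h1 (by linarith : 0 ≤ Real.log T)
    nlinarith

end Pool.Agent.U581.WW
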