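import Pool.Agent.U581.WW.Char2

/-!
# Weighted sums of local data over primes: the invariance principle
-/

set_option autoImplicit false
set_option linter.unusedSectionVars false

namespace Pool.Agent.U581.WW

open Finset Filter Topology Pool.Agent.Y722.HS Pool.Agent.X280.BP Pool.Agent.X280.UC
  Pool.Agent.X280.HG MeasureTheory ProbabilityTheory Pool.Agent.U581.BM Pool.Agent.U581.FL
  Pool.Agent.U62.RB
open scoped BoundedContinuousFunction NNReal

variable {ι : Type} [Fintype ι] [DecidableEq ι] {k : ℕ} {C : ℝ}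

/-- **tightness** -/
theorem tight_ww (hC : 0 ≤ C) (a : Fin k) {ε : ℝ} (hε : 0 < ε) {η : ℝ} (hη : 0 < η) :
    ∃ N0 : ℕ, ∀ N ≥ N0, ∃ K : ℕ, ∀ D : WD ι k, D.Ok C K →
      (nu D.H).real {c : ι → ℤ | ε < ‖D.X c a - interp N (D.X c a)‖} ≤ η := by
  obtain ⟨lam, hlamd⟩ : ∃ lam, lam = ε / 4 := ⟨_, rfl⟩
  have hlam : 0 < lam := by rw [hlamd]; positivity
  obtain ⟨A, hA⟩ : ∃ A, A = 2916 * A5 C := ⟨_, rfl⟩
  have hA0 : 0 ≤ A := by rw [hA]; have := A5_pos hC; positivity
  obtain ⟨N1, hN1⟩ := exists_nat_ge (9 * A / lam ^ 4 / η)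
  refine ⟨max N1 1, fun N hN => ?_⟩
  have hN0 : 0 < N := lt_of_lt_of_le one_pos ((le_max_right _ _).trans hN)
  have hNr : (0 : ℝ) < N := by exact_mod_cast hN0
  have hKN : 9 * A / lam ^ 4 / N ≤ η := by
    have h1 : (N1 : ℝ) ≤ N := by exact_mod_cast (le_max_left _ _).trans hN
    rw [div_le_iff₀ hη] at hN1
    rw [div_le_iff₀ hNr]
    nlinarith
  obtain ⟨d2, hd2⟩ : ∃ d2 : ℕ, d2 = 2 ^ Fintype.card ι := ⟨_, rfl⟩
  refine ⟨N + 11 + d2, fun D h => ?_⟩
  set K := N + 11 + d2 with hK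
  have hK11 : 11 ≤ K := by omega
  have hKd : 2 ^ Fintype.card ι ≤ K := by omega
  have hKr : (0 : ℝ) < (K : ℝ) + 1 := by positivity
  have hV := h.pos
  set s := √D.V with hs
  have hs0 : 0 < s := Real.sqrt_pos.2 hV
  have hs2 : s ^ 2 = D.V := Real.sq_sqrt hV.le
  have hlams : 0 < lam * s := by positivity
  have hy : ∀ p ∈ D.P, p ≤ D.y := fun p hp => (h.prime p hp).2
  have hM : ∀ p ∈ D.P, D.v p ≤ D.V / (K + 1) := by
    intro p hp
    rw [le_div_iff₀ hKr]
    exact h.vK p hp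
  have hVK : D.V / ((K : ℝ) + 1) ≤ D.V / N := by
    refine div_le_div_of_nonneg_left hV.le hNr ?_
    have : (N : ℝ) ≤ K := by exact_mod_cast (by omega : N ≤ K)
    linarith
  set nd : ℕ → ℕ := fun i => node D.P D.v D.y (pt N i : unitInterval) with hnd
  set S : ℕ → Set (ι → ℤ) := fun i => {c : ι → ℤ | ∃ t, nd i ≤ t ∧ t ≤ nd (i + 1) + 1 ∧
    lam * s < |ps D.P (fun p => D.Z a p (red p c)) t - ps D.P (fun p => D.Z a p (red p c)) (nd i)|}
    with hS
  have hval : ∀ i, i < N → ((pt N i : unitInterval) : ℝ) = i / N ∧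
      ((pt N (i + 1) : unitInterval) : ℝ) = (i + 1) / N := by
    intro i hi
    refine ⟨pt_val hN0 hi.le, ?_⟩
    rw [pt_val hN0 hi]
    push_cast
    ring
  have hle : ∀ i, i < N → ((pt N i : unitInterval) : ℝ) ≤ (pt N (i + 1) : unitInterval) := by
    intro i hi
    obtain ⟨v1, v2⟩ := hval i hi
    rw [v1, v2]
    apply div_le_div_of_nonneg_right _ hNr.le
    linarith
  have hmax : ∀ i < N, (nu D.H).real (S i) ≤ 9 * A / lam ^ 4 / N ^ 2 := by
    intro i hi
    obtain ⟨v1, v2⟩ := hval i hi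
    have hmn : nd i ≤ nd (i + 1) := node_mono h.v0 hy (pt N i).2.1 (hle i hi)
    refine (WD.block_prob h hC hK11 hKd a (show nd i ≤ nd (i + 1) + 1 by omega) hlams).trans ?_
    obtain ⟨-, a2, -⟩ := node_spec h.v0 hy (pt N (i + 1)).2.1
    have a3 := node_clock h.v0 hy hM (by positivity) (pt N i).2.1 (pt N i).2.2
    change ps D.P D.v (nd (i + 1)) ≤ ((pt N (i + 1) : unitInterval) : ℝ) * D.V at a2
    change ((pt N i : unitInterval) : ℝ) * D.V - D.V / (K + 1) ≤ ps D.P D.v (nd i) at a3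
    have a4 : ps D.P D.v (nd (i + 1) + 1) ≤ ps D.P D.v (nd (i + 1)) + D.V / (K + 1) := by
      rw [ps_succ]
      have : (if nd (i + 1) ∈ D.P then D.v (nd (i + 1)) else 0) ≤ D.V / (K + 1) := by
        split_ifs with h1
        · exact hM _ h1
        · positivity
      linarith
    rw [v2] at a2
    rw [v1] at a3
    have e1 : ((i : ℝ) + 1) / N * D.V = i / N * D.V + D.V / N := by ring
    have h0 : 0 ≤ ps D.P D.v (nd (i + 1) + 1) - ps D.P D.v (nd i) :=
      sub_nonneg.2 (ps_mono (fun p hp => (h.v0 p hp).le) (by omega))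
    have h1 : ps D.P D.v (nd (i + 1) + 1) - ps D.P D.v (nd i) ≤ 3 * (D.V / N) := by linarith
    have h2 : (ps D.P D.v (nd (i + 1) + 1) - ps D.P D.v (nd i)) ^ 2 ≤ (3 * (D.V / N)) ^ 2 :=
      pow_le_pow_left₀ h0 h1 2
    have h3 : (lam * s) ^ 4 = lam ^ 4 * D.V ^ 2 := by
      rw [mul_pow, show s ^ 4 = (s ^ 2) ^ 2 by ring, hs2]
    rw [← hA, h3]
    calc A * (ps D.P D.v (nd (i + 1) + 1) - ps D.P D.v (nd i)) ^ 2 / (lam ^ 4 * D.V ^ 2)
        ≤ A * (3 * (D.V / N)) ^ 2 / (lam ^ 4 * D.V ^ 2) := by gcongr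
      _ = _ := by
        field_simp
        ring
  have hsub : {c : ι → ℤ | ε < ‖D.X c a - interp N (D.X c a)‖} ⊆ ⋃ i ∈ Finset.range N, S i := by
    intro c hlt
    by_contra hcon
    rw [hS] at hcon
    simp only [Set.mem_iUnion, Set.mem_ofPred_eq, not_exists, not_and, not_lt,
      Finset.mem_range] at hcon
    have h1 := interp_err hN0 (D.X c a) (ε := 2 * (lam * s) / s) (by positivity)
      (fun i hi t ht1 ht2 => by
        obtain ⟨v1, v2⟩ := hval i hi
        refine wpath_block h.v0 hy hV (fun p => D.Z a p (red p c)) (s := pt N i) (t := t)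
          (s' := pt N (i + 1)) ?_ ?_ (E := lam * s) (fun n hn1 hn2 => hcon i hi n hn1 hn2)
        · change ((pt N i : unitInterval) : ℝ) ≤ t
          rw [v1, div_le_iff₀ hNr]
          linarith
        · change (t : ℝ) ≤ ((pt N (i + 1) : unitInterval) : ℝ)
          rw [v2, le_div_iff₀ hNr]
          linarith)
    have h4 : 2 * (2 * (lam * s) / s) ≤ ε := by
      have e : 2 * (2 * (lam * s) / s) = 4 * lam := by
        field_simp
        ring
      rw [e, hlamd]
      linarith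
    exact absurd hlt (not_lt.2 (h1.trans h4))
  calc _ ≤ (nu D.H).real (⋃ i ∈ Finset.range N, S i) := measureReal_mono hsub (measure_ne_top _ _)
    _ ≤ ∑ i ∈ Finset.range N, (nu D.H).real (S i) := measureReal_biUnion_finset_le _ _
    _ ≤ ∑ i ∈ Finset.range N, 9 * A / lam ^ 4 / N ^ 2 :=
        Finset.sum_le_sum fun i hi => hmax i (Finset.mem_range.1 hi)
    _ = 9 * A / lam ^ 4 / N := by
        rw [Finset.sum_const, Finset.card_range, nsmul_eq_mul]
        field_simp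
    _ ≤ η := hKN

section

variable [MeasurableSpace C(unitInterval, ℝ)] [BorelSpace C(unitInterval, ℝ)]
  {Ω : Type*} [MeasurableSpace Ω] {μ : Measure Ω} [IsProbabilityMeasure μ]
  {W : Fin k → ℝ≥0 → Ω → ℝ}

/-- **the invariance principle, sequences** -/
theorem ww_seq (hC : 0 ≤ C) (hW : IndBrown W μ) (D : ℕ → WD ι k)
    (hD : ∀ K, ∀ᶠ j in atTop, (D j).Ok C K) (F : (Fin k → C(unitInterval, ℝ)) →ᵇ ℝ) :
    Tendsto (fun j => EB (D j).H (fun c => F ((D j).X c))) atTop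
      (𝓝 (∫ ω, F (fun a => bpath (W a) ω) ∂μ)) := by
  have hlim := donskerV (ν := fun j => nu (ι := ι) (D j).H) (P := μ)
    (X := fun j c => (D j).X c)
    (Z := fun ω a => bpath (W a) ω) (fun j => meas_all _) (bpathV_aem hW)
    (fun N θ => by
      rw [bcharV hW N θ]
      simp only [nu_intc]
      rw [Metric.tendsto_atTop]
      intro δ hδ
      obtain ⟨K, hK⟩ := char_ww (ι := ι) hC N θ (half_pos hδ)
      obtain ⟨J, hJ⟩ := eventually_atTop.1 (hD K)
      refine ⟨J, fun j hj => ?_⟩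
      rw [dist_eq_norm]
      exact lt_of_le_of_lt (hK (D j) (hJ j hj)) (by linarith))
    (fun a ε hε η hη => by
      obtain ⟨N0, hN0⟩ := tight_ww (ι := ι) hC a hε hη
      refine ⟨N0, fun N hN => ?_⟩
      obtain ⟨K, hK⟩ := hN0 N hN
      filter_upwards [hD K] with j hj
      exact hK (D j) hj) F
  simp only [nu_int] at hlim
  exact hlim

/-- **the invariance principle, sequences, perturbed** -/
theorem ww_near (hC : 0 ≤ C) (hW : IndBrown W μ) (D : ℕ → WD ι k)
    (hD : ∀ K, ∀ᶠ j in atTop, (D j).Ok C K) (Y : ℕ → (ι → ℤ) → Fin k → C(unitInterval, ℝ))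
    (hY : ∀ δ : ℝ, 0 < δ → Tendsto (fun j => (nu (D j).H).real
      {c : ι → ℤ | δ < dist (Y j c) ((D j).X c)}) atTop (𝓝 0))
    (F : (Fin k → C(unitInterval, ℝ)) →ᵇ ℝ) :
    Tendsto (fun j => EB (D j).H (fun c => F (Y j c))) atTop
      (𝓝 (∫ ω, F (fun a => bpath (W a) ω) ∂μ)) := by
  have hm := bpathV_aem hW
  let μ₀ : ProbabilityMeasure (Fin k → C(unitInterval, ℝ)) :=
    ⟨μ.map (fun ω a => bpath (W a) ω), Measure.isProbabilityMeasure_map hm⟩
  have e : ∀ F : (Fin k → C(unitInterval, ℝ)) →ᵇ ℝ, ∫ z, F z ∂(μ₀ : Measure _) =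
      ∫ ω, F (fun a => bpath (W a) ω) ∂μ := fun F =>
    integral_map hm F.continuous.aestronglyMeasurable
  have h := near_limit (fun j => (D j).H) (fun j c => (D j).X c) Y μ₀
    (fun F => by
      rw [e]
      exact ww_seq hC hW D hD F) hY F
  rw [e] at h
  exact h

end

end Pool.Agent.U581.WW
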