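import Pool.Agent.U581.WW.Clock
import Pool.Agent.U581.FL.Main

/-!
# Weighted sums of local data over primes: moments
-/

set_option autoImplicit false
set_option linter.unusedSectionVars false

namespace Pool.Agent.U581.WW

open Finset Filter Topology Pool.Agent.Y722.HS Pool.Agent.X280.BP Pool.Agent.X280.UC
  Pool.Agent.X280.HG MeasureTheory Pool.Agent.U581.BM Pool.Agent.U581.FL

variable {ι : Type} [Fintype ι] [DecidableEq ι] {k : ℕ} {C : ℝ}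

/-- data -/
structure WD (ι : Type) (k : ℕ) where
  P : Finset ℕ
  y : ℕ
  H : ℕ
  v : ℕ → ℝ
  Z : Fin k → ∀ p : ℕ, (ι → ZMod p) → ℝ

/-- the total variance -/
noncomputable def WD.V (D : WD ι k) : ℝ := ∑ q ∈ D.P, D.v q

/-- admissible data -/
structure WD.Ok (D : WD ι k) (C : ℝ) (K : ℕ) : Prop where
  prime : ∀ p ∈ D.P, p.Prime ∧ p ≤ D.y
  large : K ≤ D.y
  high : D.y ^ K ≤ D.H
  pos : 0 < D.V
  v0 : ∀ p ∈ D.P, 0 < D.v p
  vK : ∀ p ∈ D.P, D.v p * (K + 1) ≤ D.V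
  bound : ∀ a, ∀ p ∈ D.P, ∀ x, |D.Z a p x| ≤ D.y * √(D.v p)
  mean : ∀ a, ∀ p ∈ D.P, EMt p (D.Z a p) = 0
  two : ∀ a, ∀ p ∈ D.P, EMt p (fun x => D.Z a p x ^ 2) ≤ C * D.v p
  four : ∀ a, ∀ p ∈ D.P, EMt p (fun x => D.Z a p x ^ 4) ≤ C * D.v p ^ 2
  cov : ∀ a b x, |ps D.P (fun p => EMt p (fun c => D.Z a p c * D.Z b p c) -
    if a = b then D.v p else 0) x| * (K + 1) ≤ D.V

theorem WD.Ok.mono {D : WD ι k} {K L : ℕ} (h : D.Ok C L) (hKL : K ≤ L) : D.Ok C K := by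
  have h1 : (K : ℝ) ≤ L := by exact_mod_cast hKL
  refine ⟨h.prime, hKL.trans h.large, ?_, h.pos, h.v0, fun p hp => le_trans ?_ (h.vK p hp), h.bound,
    h.mean, h.two, h.four, fun a b x => le_trans ?_ (h.cov a b x)⟩
  · rcases Nat.eq_zero_or_pos D.y with h0 | h0
    · have : L = 0 := by have := h.large; omega
      have : K = 0 := by omega
      subst this
      have h2 := h.high
      rw [‹L = 0›] at h2
      exact h2
    · exact (Nat.pow_le_pow_right h0 hKL).trans h.high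
  · exact mul_le_mul_of_nonneg_left (by linarith) (h.v0 p hp).le
  · exact mul_le_mul_of_nonneg_left (by linarith) (abs_nonneg _)

theorem WD.Ok.sub {D : WD ι k} {K : ℕ} (h : D.Ok C K) {I : Finset ℕ} (hI : I ⊆ D.P) :
    (I.card : ℝ) ≤ D.y := by
  have h1 : I ⊆ Finset.Icc 1 D.y := by
    intro p hp
    rw [Finset.mem_Icc]
    exact ⟨(h.prime p (hI hp)).1.pos, (h.prime p (hI hp)).2⟩
  have h2 := Finset.card_le_card h1
  rw [Nat.card_Icc, Nat.add_sub_cancel] at h2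
  exact_mod_cast h2

/-- the square of a sum of roots -/
theorem WD.Ok.roots {D : WD ι k} {K : ℕ} (h : D.Ok C K) {I : Finset ℕ} (hI : I ⊆ D.P) :
    (∑ p ∈ I, √(D.v p)) ^ 2 ≤ D.y * ∑ p ∈ I, D.v p := by
  have h0 : ∀ p ∈ I, 0 ≤ D.v p := fun p hp => (h.v0 p (hI hp)).le
  refine sq_sum_le_card_mul_sum_sq.trans ?_
  rw [Finset.sum_congr rfl fun p hp => Real.sq_sqrt (h0 p hp)]
  exact mul_le_mul_of_nonneg_right (h.sub hI) (Finset.sum_nonneg h0)

/-- the size of the box -/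
theorem WD.Ok.box {D : WD ι k} {K : ℕ} (h : D.Ok C K) (m : ℕ) (hK : m + 1 ≤ K)
    (hK2 : 2 ^ Fintype.card ι ≤ K) : (2 : ℝ) ^ Fintype.card ι * (D.y : ℝ) ^ m ≤ 2 * D.H + 1 := by
  have hy0 : 0 < D.y := by have := h.large; omega
  have h4 : 2 ^ Fintype.card ι * D.y ^ m ≤ D.H := by
    calc 2 ^ Fintype.card ι * D.y ^ m ≤ D.y * D.y ^ m := Nat.mul_le_mul_right _ (hK2.trans h.large)
      _ = D.y ^ (m + 1) := by ring
      _ ≤ D.y ^ K := Nat.pow_le_pow_right hy0 hK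
      _ ≤ D.H := h.high
  have h5 : ((2 ^ Fintype.card ι * D.y ^ m : ℕ) : ℝ) ≤ D.H := by exact_mod_cast h4
  push_cast at h5
  have : (0 : ℝ) ≤ D.H := Nat.cast_nonneg _
  linarith

/-- the constant of the fourth moments -/
noncomputable def A5 (C : ℝ) : ℝ := 3 * C ^ 2 + C + 1

theorem A5_pos (hC : 0 ≤ C) : 0 < A5 C := by
  unfold A5
  positivity

theorem WD.four_block {D : WD ι k} {K : ℕ} (h : D.Ok C K) (hC : 0 ≤ C) (hK : 11 ≤ K)
    (hK2 : 2 ^ Fintype.card ι ≤ K) (a : Fin k) (u w : ℕ) :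
    EB D.H (fun c => (∑ i ∈ Ico u w, if i ∈ D.P then D.Z a i (red i c) else 0) ^ 4) ≤
      A5 C * (∑ i ∈ Ico u w, if i ∈ D.P then D.v i else 0) ^ 2 := by
  set I := D.P.filter (fun p => p ∈ Ico u w) with hI
  have hIP : I ⊆ D.P := Finset.filter_subset _ _
  have e : ∀ f : ℕ → ℝ, ∑ i ∈ Ico u w, (if i ∈ D.P then f i else 0) = ∑ p ∈ I, f p := by
    intro f
    rw [← Finset.sum_filter, hI]
    congr 1
    ext i
    simp only [Finset.mem_filter]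
    exact and_comm
  simp only [e]
  set V := ∑ p ∈ I, D.v p with hV
  have hv0 : ∀ p ∈ I, 0 ≤ D.v p := fun p hp => (h.v0 p (hIP hp)).le
  have hV0 : 0 ≤ V := Finset.sum_nonneg hv0
  have hyr : (0 : ℝ) < D.y := by
    have := h.large
    exact_mod_cast (by omega : 0 < D.y)
  have h1 := mom4 I D.y (fun p hp => h.prime p (hIP hp)) (D.Z a) (fun p => D.y * √(D.v p))
    (fun p => C * D.v p) (fun p => C * D.v p ^ 2)
    (fun p hp x => h.bound a p (hIP hp) x)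
    (fun p hp _ => by
      have := h.mean a p (hIP hp)
      rwa [EMt_eq] at this)
    (fun p hp _ => by
      have := h.two a p (hIP hp)
      rwa [EMt_eq] at this)
    (fun p hp _ => by
      have := h.four a p (hIP hp)
      rwa [EMt_eq] at this)
    D.H (by
      have h5 : D.y ^ 4 ≤ D.y ^ K := Nat.pow_le_pow_right (by have := h.large; omega) (by omega)
      have := h.high
      omega)
  have h2 : ∑ p ∈ I, D.v p ^ 2 ≤ V ^ 2 := by
    calc ∑ p ∈ I, D.v p ^ 2 = ∑ p ∈ I, D.v p * D.v p := by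
          refine Finset.sum_congr rfl fun p _ => ?_
          ring
      _ ≤ ∑ p ∈ I, D.v p * V := by
          refine Finset.sum_le_sum fun p hp => ?_
          exact mul_le_mul_of_nonneg_left (Finset.single_le_sum (f := fun p => D.v p) hv0 hp) (hv0 p hp)
      _ = V ^ 2 := by rw [← Finset.sum_mul, sq]
  have h3 : (∑ p ∈ I, D.y * √(D.v p)) ^ 4 ≤ (D.y : ℝ) ^ 6 * V ^ 2 := by
    rw [← Finset.mul_sum, mul_pow]
    have h4 := h.roots hIP
    have h5 : (∑ p ∈ I, √(D.v p)) ^ 4 ≤ (D.y * V) ^ 2 := by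
      calc (∑ p ∈ I, √(D.v p)) ^ 4 = ((∑ p ∈ I, √(D.v p)) ^ 2) ^ 2 := by ring
        _ ≤ (D.y * V) ^ 2 := pow_le_pow_left₀ (sq_nonneg _) h4 2
    calc (D.y : ℝ) ^ 4 * (∑ p ∈ I, √(D.v p)) ^ 4 ≤ (D.y : ℝ) ^ 4 * (D.y * V) ^ 2 := by gcongr
      _ = _ := by ring
  have h4 : 2 ^ Fintype.card ι * ((D.y : ℝ) ^ 4 / (2 * D.H + 1)) * (∑ p ∈ I, D.y * √(D.v p)) ^ 4 ≤
      V ^ 2 := by
    have h5 := h.box 10 (by omega) hK2
    have hH : (0 : ℝ) < 2 * D.H + 1 := by positivity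
    calc 2 ^ Fintype.card ι * ((D.y : ℝ) ^ 4 / (2 * D.H + 1)) * (∑ p ∈ I, D.y * √(D.v p)) ^ 4
        ≤ 2 ^ Fintype.card ι * ((D.y : ℝ) ^ 4 / (2 * D.H + 1)) * ((D.y : ℝ) ^ 6 * V ^ 2) := by gcongr
      _ = (2 ^ Fintype.card ι * (D.y : ℝ) ^ 10 / (2 * D.H + 1)) * V ^ 2 := by ring
      _ ≤ 1 * V ^ 2 := by
          refine mul_le_mul_of_nonneg_right ?_ (sq_nonneg _)
          rw [div_le_one hH]
          exact h5
      _ = _ := one_mul _
  have h6 : ∑ p ∈ I, C * D.v p = C * V := by rw [hV, Finset.mul_sum]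
  have h7 : ∑ p ∈ I, C * D.v p ^ 2 ≤ C * V ^ 2 := by
    rw [← Finset.mul_sum]
    exact mul_le_mul_of_nonneg_left h2 hC
  rw [h6] at h1
  unfold A5
  nlinarith

theorem Ico_ps (P : Finset ℕ) (g : ℕ → ℝ) {u w : ℕ} (h : u ≤ w) :
    ∑ i ∈ Ico u w, (if i ∈ P then g i else 0) = ps P g w - ps P g u := by
  induction w, h using Nat.le_induction with
  | base => simp
  | succ n hn ih =>
    rw [Finset.sum_Ico_succ_top hn, ih, ps_succ]
    ring

/-- the maximal inequality on blocks -/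
theorem WD.block_prob {D : WD ι k} {K : ℕ} (h : D.Ok C K) (hC : 0 ≤ C) (hK : 11 ≤ K)
    (hK2 : 2 ^ Fintype.card ι ≤ K) (a : Fin k) {u w : ℕ} (huw : u ≤ w) {r : ℝ} (hr : 0 < r) :
    (nu D.H).real {c : ι → ℤ | ∃ t, u ≤ t ∧ t ≤ w ∧ r < |ps D.P (fun p => D.Z a p (red p c)) t -
      ps D.P (fun p => D.Z a p (red p c)) u|} ≤
      2916 * A5 C * (ps D.P D.v w - ps D.P D.v u) ^ 2 / r ^ 4 := by
  obtain ⟨M, hM1, hM2⟩ := chain D.H (fun i c => if i ∈ D.P then D.Z a i (red i c) else 0)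
    (fun i => if i ∈ D.P then D.v i else 0) (fun i => by
      split_ifs with hi
      · exact (h.v0 i hi).le
      · exact le_rfl) (A5 C) (A5_pos hC).le w
    (fun a' b' _ _ => WD.four_block h hC hK hK2 a a' b') (w - u) u w huw le_rfl le_rfl
  rw [Ico_ps D.P D.v huw] at hM1
  have hM3 : ∀ c t, u ≤ t → t ≤ w → (ps D.P (fun p => D.Z a p (red p c)) t -
      ps D.P (fun p => D.Z a p (red p c)) u) ^ 4 ≤ M c := by
    intro c t h1 h2
    have h3 := hM2 c t h1 h2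
    rwa [Ico_ps D.P (fun p => D.Z a p (red p c)) h1] at h3
  have hM0 : ∀ c, 0 ≤ M c := fun c => by
    have h1 := hM3 c u le_rfl huw
    rw [sub_self, zero_pow (by norm_num)] at h1
    exact h1
  refine (nu_markov D.H _ M (pow_pos hr 4) hM0 ?_).trans (div_le_div_of_nonneg_right hM1 (by positivity))
  rintro c ⟨t, h1, h2, h3⟩
  have h4 := pow_le_pow_left₀ hr.le h3.le 4
  rw [(show Even 4 by decide).pow_abs] at h4
  exact h4.trans (hM3 c t h1 h2)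

/-- **The second moment.** -/
theorem mom2 (I : Finset ℕ) (x : ℕ) (hI : ∀ p ∈ I, p.Prime ∧ p ≤ x)
    (Z : ∀ p : ℕ, (ι → ZMod p) → ℝ) (b v : ℕ → ℝ) (hb : ∀ p ∈ I, ∀ c, |Z p c| ≤ b p)
    (h0 : ∀ p ∈ I, EMt p (Z p) = 0)
    (h2 : ∀ p ∈ I, EMt p (fun x => Z p x ^ 2) ≤ v p)
    (H : ℕ) (hH : x ^ 2 ≤ 2 * H + 1) :
    EB H (fun c => (∑ p ∈ I, Z p (red p c)) ^ 2) ≤ ∑ p ∈ I, v p +
      2 ^ Fintype.card ι * ((x : ℝ) ^ 2 / (2 * H + 1)) * (∑ p ∈ I, b p) ^ 2 := by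
  obtain ⟨-, ⟨L2, i2, i2'⟩, -⟩ := lim_four I (fun p hp => (hI p hp).1) Z v
    (fun p => EMt p (fun x => Z p x ^ 4)) (fun p hp _ => by rw [← EMt_eq]; exact h0 p hp)
    (fun p hp _ => by rw [← EMt_eq]; exact h2 p hp) (fun p hp _ => by rw [EMt_eq])
  have hlim : Tendsto (fun H' : ℕ => 2 ^ Fintype.card ι * ((x : ℝ) ^ 2 / (2 * H + 1) +
      (x : ℝ) ^ 2 / (2 * (H' : ℝ) + 1)) * (∑ p ∈ I, b p) ^ 2) atTop
      (𝓝 (2 ^ Fintype.card ι * ((x : ℝ) ^ 2 / (2 * H + 1) + 0) * (∑ p ∈ I, b p) ^ 2)) :=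
    ((tendsto_const_nhds.add (tendsto_ratio _)).const_mul _).mul_const _
  have hle : ∀ᶠ H' : ℕ in atTop, EB H (fun c => (∑ p ∈ I, Z p (red p c)) ^ 2) ≤
      EB H' (fun c => (∑ p ∈ I, Z p (red p c)) ^ 2) + 2 ^ Fintype.card ι * ((x : ℝ) ^ 2 / (2 * H + 1) +
      (x : ℝ) ^ 2 / (2 * (H' : ℝ) + 1)) * (∑ p ∈ I, b p) ^ 2 := by
    filter_upwards [eventually_ge_atTop (x ^ 2)] with H' hH'
    have h := mom_diff I x (fun p hp => ⟨(hI p hp).1.ne_zero, (hI p hp).2⟩) Z b hb 2 H H' hH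
      (by omega)
    have := (abs_le.mp h).2
    linarith
  have h := ge_of_tendsto (i2.add hlim) hle
  rw [add_zero] at h
  linarith

end Pool.Agent.U581.WW
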