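import Pool.Agent.U581.WW.Lin

/-!
# Polygonal paths in a general scale
-/

set_option autoImplicit false
set_option linter.unusedSectionVars false

namespace Pool.Agent.U581.WW

open Finset Filter Topology Pool.Agent.Y722.HS MeasureTheory Pool.Agent.U581.BM
  Pool.Agent.U581.FL Pool.Agent.U62.CL

/-- the times of the integers `a, ..., T` -/
structure Sc (σ : ℕ → ℝ) (a T : ℕ) : Prop where
  lt : a < T
  zero : σ a = 0
  one : σ T = 1
  mono : ∀ x, a ≤ x → x < T → σ x < σ (x + 1)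

variable {σ : ℕ → ℝ} {a T : ℕ}

theorem Sc.le (h : Sc σ a T) {x y : ℕ} (hx : a ≤ x) (hxy : x ≤ y) (hy : y ≤ T) : σ x ≤ σ y := by
  induction y, hxy using Nat.le_induction with
  | base => exact le_rfl
  | succ n hn ih => exact (ih (by omega)).trans (h.mono n (by omega) (by omega)).le

theorem Sc.block (h : Sc σ a T) (t : unitInterval) :
    ∃ m, a ≤ m ∧ m < T ∧ σ m ≤ t ∧ (t : ℝ) ≤ σ (m + 1) := by
  classical
  have hT := h.lt
  set Q : ℕ → Prop := fun m => a ≤ m ∧ m < T ∧ σ m ≤ t with hQ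
  have ha : Q a := ⟨le_rfl, hT, by rw [h.zero]; exact t.2.1⟩
  have hs := Nat.findGreatest_spec (P := Q) (m := a) hT.le ha
  refine ⟨Nat.findGreatest Q T, hs.1, hs.2.1, hs.2.2, ?_⟩
  by_contra hc
  push Not at hc
  have h1 : Nat.findGreatest Q T + 1 < T := by
    by_contra hc2
    have e : Nat.findGreatest Q T + 1 = T := by
      have := hs.2.1
      omega
    rw [e, h.one] at hc
    exact absurd t.2.2 (not_le.2 hc)
  exact Nat.findGreatest_is_greatest (Nat.lt_succ_self _) h1.le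
    ⟨by have := hs.1; omega, h1, hc.le⟩

/-- the weights of the polygonal paths -/
noncomputable def ck (σ : ℕ → ℝ) (t : ℝ) (x : ℕ) : ℝ := cl ((t - σ x) / (σ (x + 1) - σ x))

theorem ck_mem (σ : ℕ → ℝ) (t : ℝ) (x : ℕ) : 0 ≤ ck σ t x ∧ ck σ t x ≤ 1 := cl_mem _

theorem ck_sum (h : Sc σ a T) (f : ℕ → ℝ) {t : unitInterval} {m : ℕ} (ham : a ≤ m) (hm : m < T)
    (h1 : σ m ≤ t) (h2 : (t : ℝ) ≤ σ (m + 1)) : ∑ x ∈ Finset.Ico a T, f x * ck σ t x =
      ∑ x ∈ Finset.Ico a m, f x + f m * ((t - σ m) / (σ (m + 1) - σ m)) := by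
  have e1 : ∑ x ∈ Finset.Ico a T, f x * ck σ t x = ∑ x ∈ Finset.Ico a m, f x * ck σ t x +
      (f m * ck σ t m + ∑ x ∈ Finset.Ico (m + 1) T, f x * ck σ t x) := by
    rw [← Finset.sum_Ico_consecutive _ ham hm.le, Finset.sum_eq_sum_Ico_succ_bot hm]
  have e2 : ∑ x ∈ Finset.Ico a m, f x * ck σ t x = ∑ x ∈ Finset.Ico a m, f x := by
    refine Finset.sum_congr rfl fun x hx => ?_
    rw [Finset.mem_Ico] at hx
    have h3 := h.mono x hx.1 (by omega)
    have h4 := h.le (x := x + 1) (y := m) (by omega) (by omega) hm.le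
    unfold ck
    rw [cl_one, mul_one]
    rw [one_le_div (by linarith)]
    linarith
  have e3 : ∑ x ∈ Finset.Ico (m + 1) T, f x * ck σ t x = 0 := by
    refine Finset.sum_eq_zero fun x hx => ?_
    rw [Finset.mem_Ico] at hx
    have h3 := h.mono x (by omega) (by omega)
    have h4 := h.le (x := m + 1) (y := x) (by omega) (by omega) (by omega)
    unfold ck
    rw [cl_zero, mul_zero]
    exact div_nonpos_of_nonpos_of_nonneg (by linarith) (by linarith)
  have h3 := h.mono m ham hm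
  rw [e1, e2, e3, add_zero]
  unfold ck
  rw [cl_self]
  · exact div_nonneg (by linarith) (by linarith)
  · rw [div_le_one (by linarith)]
    linarith

variable {P : Finset ℕ} {v : ℕ → ℝ}

theorem ps_Ico (P : Finset ℕ) (hP : ∀ p ∈ P, a < p) (g : ℕ → ℝ) {m : ℕ} (ham : a ≤ m) :
    ∑ x ∈ Finset.Ico a m, on P g (x + 1) = ps P g (m + 1) := by
  induction m, ham using Nat.le_induction with
  | base =>
    rw [Finset.Ico_self, Finset.sum_empty]
    unfold ps
    rw [Finset.filter_false_of_mem (fun p hp => by have := hP p hp; omega), Finset.sum_empty]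
  | succ n hn ih =>
    rw [Finset.sum_Ico_succ_top hn, ih, ps_succ P g (n + 1)]
    rfl

/-- the time change -/
noncomputable def gtau (P : Finset ℕ) (v : ℕ → ℝ) (σ : ℕ → ℝ) (a T : ℕ) : C(unitInterval, ℝ) where
  toFun t := (∑ x ∈ Finset.Ico a T, on P v (x + 1) * ck σ t x) / ∑ q ∈ P, v q
  continuous_toFun := by
    unfold ck cl
    fun_prop

/-- the polygonal path -/
noncomputable def gpoly (P : Finset ℕ) (σ : ℕ → ℝ) (a T : ℕ) (s : ℝ) (g : ℕ → ℝ) :
    C(unitInterval, ℝ) where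
  toFun t := (∑ x ∈ Finset.Ico a T, on P g (x + 1) * ck σ t x) / s
  continuous_toFun := by
    unfold ck cl
    fun_prop

theorem gtau_val (h : Sc σ a T) (hP : ∀ p ∈ P, a < p) {t : unitInterval} {m : ℕ} (ham : a ≤ m)
    (hm : m < T) (h1 : σ m ≤ t) (h2 : (t : ℝ) ≤ σ (m + 1)) : gtau P v σ a T t =
      (ps P v (m + 1) + on P v (m + 1) * ((t - σ m) / (σ (m + 1) - σ m))) / ∑ q ∈ P, v q := by
  change (∑ x ∈ Finset.Ico a T, on P v (x + 1) * ck σ t x) / ∑ q ∈ P, v q = _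
  rw [ck_sum h (fun x => on P v (x + 1)) ham hm h1 h2, ps_Ico P hP v ham]

theorem gtau_mem (h : Sc σ a T) (hP : ∀ p ∈ P, a < p ∧ p ≤ T) (hv : ∀ p ∈ P, 0 < v p)
    (t : unitInterval) : gtau P v σ a T t ∈ unitInterval := by
  have hV : 0 ≤ ∑ q ∈ P, v q := Finset.sum_nonneg fun q hq => (hv q hq).le
  have h1 : 0 ≤ ∑ x ∈ Finset.Ico a T, on P v (x + 1) * ck σ t x :=
    Finset.sum_nonneg fun x _ => mul_nonneg (on_nn hv _) (ck_mem _ _ _).1
  have h2 : ∑ x ∈ Finset.Ico a T, on P v (x + 1) * ck σ t x ≤ ∑ q ∈ P, v q := by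
    calc ∑ x ∈ Finset.Ico a T, on P v (x + 1) * ck σ t x ≤ ∑ x ∈ Finset.Ico a T, on P v (x + 1) :=
          Finset.sum_le_sum fun x _ => mul_le_of_le_one_right (on_nn hv _) (ck_mem _ _ _).2
      _ = ps P v (T + 1) := ps_Ico P (fun p hp => (hP p hp).1) v h.lt.le
      _ = _ := ps_top v fun p hp => Nat.lt_succ_of_le (hP p hp).2
  exact ⟨div_nonneg h1 hV, div_le_one_of_le₀ h2 hV⟩

/-- the time change as a map of the unit interval -/
noncomputable def gtc (h : Sc σ a T) (hP : ∀ p ∈ P, a < p ∧ p ≤ T) (hv : ∀ p ∈ P, 0 < v p) :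
    C(unitInterval, unitInterval) :=
  ⟨fun t => ⟨gtau P v σ a T t, gtau_mem h hP hv t⟩, by fun_prop⟩

/-- **the identity of the paths** -/
theorem gpoly_eq (h : Sc σ a T) (hP : ∀ p ∈ P, a < p ∧ p ≤ T) (hv : ∀ p ∈ P, 0 < v p)
    (hV : 0 < ∑ q ∈ P, v q) (g : ℕ → ℝ) :
    (wpath P v g).comp (gtc h hP hv) = gpoly P σ a T (√(∑ q ∈ P, v q)) g := by
  ext t
  obtain ⟨m, ham, hm, h1, h2⟩ := h.block t
  change wpath P v g (gtc h hP hv t) = (∑ x ∈ Finset.Ico a T, on P g (x + 1) * ck σ t x) /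
    √(∑ q ∈ P, v q)
  rw [ck_sum h (fun x => on P g (x + 1)) ham hm h1 h2, ps_Ico P (fun p hp => (hP p hp).1) g ham,
    wpath_apply]
  congr 1
  obtain ⟨θ, hθ⟩ : ∃ θ, θ = ((t : ℝ) - σ m) / (σ (m + 1) - σ m) := ⟨_, rfl⟩
  have h3 := h.mono m ham hm
  have hθ0 : 0 ≤ θ := by
    rw [hθ]
    exact div_nonneg (by linarith) (by linarith)
  have hθ1 : θ ≤ 1 := by
    rw [hθ, div_le_one (by linarith)]
    linarith
  have hτ : ((gtc h hP hv t : unitInterval) : ℝ) * (∑ q ∈ P, v q) =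
      ps P v (m + 1) + on P v (m + 1) * θ := by
    change gtau P v σ a T t * _ = _
    rw [gtau_val h (fun p hp => (hP p hp).1) ham hm h1 h2, ← hθ]
    field_simp
  rw [hτ, ← hθ]
  have e : ∀ p ∈ P, g p * cl ((ps P v (m + 1) + on P v (m + 1) * θ - ps P v p) / v p) =
      (if p < m + 1 then g p else 0) + if p = m + 1 then g (m + 1) * θ else 0 := by
    intro p hp
    have hvp := hv p hp
    rcases lt_trichotomy p (m + 1) with h | h | h
    · rw [if_pos h, if_neg h.ne, add_zero]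
      rw [cl_one, mul_one]
      rw [one_le_div hvp]
      have h3 := ps_mono (fun q hq => (hv q hq).le) (show p + 1 ≤ m + 1 from h)
      rw [ps_succ, if_pos hp] at h3
      have := mul_nonneg (on_nn hv (m + 1)) hθ0
      linarith
    · rw [if_neg (by omega), if_pos h, zero_add, ← h]
      have e2 : (ps P v p + on P v p * θ - ps P v p) / v p = θ := by
        unfold on
        rw [if_pos hp]
        field_simp
        ring
      rw [e2, cl_self hθ0 hθ1]
    · rw [if_neg (by omega), if_neg (by omega), add_zero]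
      rw [cl_zero, mul_zero]
      apply div_nonpos_of_nonpos_of_nonneg _ hvp.le
      have h3 := ps_mono (fun q hq => (hv q hq).le) (show m + 1 + 1 ≤ p from h)
      rw [ps_succ P v (m + 1)] at h3
      have h4 : on P v (m + 1) * θ ≤ on P v (m + 1) :=
        mul_le_of_le_one_right (on_nn hv _) hθ1
      have h5 : (if m + 1 ∈ P then v (m + 1) else 0) = on P v (m + 1) := rfl
      rw [h5] at h3
      linarith
  rw [Finset.sum_congr rfl e, Finset.sum_add_distrib, ← Finset.sum_filter, Finset.sum_ite_eq']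
  unfold ps on
  split_ifs <;> ring

/-- the distance of the time change from the identity -/
theorem gtau_near (h : Sc σ a T) (hP : ∀ p ∈ P, a < p ∧ p ≤ T) (hv : ∀ p ∈ P, 0 < v p) {ρ : ℝ}
    (hρ : ∀ x, a ≤ x → x ≤ T → |ps P v (x + 1) / (∑ q ∈ P, v q) - σ x| ≤ ρ) (t : unitInterval) :
    |((gtc h hP hv t : unitInterval) : ℝ) - t| ≤ ρ := by
  obtain ⟨m, ham, hm, h1, h2⟩ := h.block t
  change |gtau P v σ a T t - t| ≤ ρ
  rw [gtau_val h (fun p hp => (hP p hp).1) ham hm h1 h2]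
  have a1 := hρ m ham hm.le
  have a2 := hρ (m + 1) (by omega) hm
  rw [ps_succ P v (m + 1)] at a2
  have h5 : (if m + 1 ∈ P then v (m + 1) else 0) = on P v (m + 1) := rfl
  rw [h5] at a2
  have h3 := h.mono m ham hm
  obtain ⟨θ, hθ⟩ : ∃ θ, θ = ((t : ℝ) - σ m) / (σ (m + 1) - σ m) := ⟨_, rfl⟩
  have hθ0 : 0 ≤ θ := by
    rw [hθ]
    exact div_nonneg (by linarith) (by linarith)
  have hθ1 : θ ≤ 1 := by
    rw [hθ, div_le_one (by linarith)]
    linarith
  have ht : (t : ℝ) = (1 - θ) * σ m + θ * σ (m + 1) := by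
    have h6 : θ * (σ (m + 1) - σ m) = t - σ m := by
      rw [hθ]
      have : σ (m + 1) - σ m ≠ 0 := by linarith
      field_simp
    linarith
  rw [← hθ]
  have e : (ps P v (m + 1) + on P v (m + 1) * θ) / (∑ q ∈ P, v q) - t =
      (1 - θ) * (ps P v (m + 1) / (∑ q ∈ P, v q) - σ m) +
      θ * ((ps P v (m + 1) + on P v (m + 1)) / (∑ q ∈ P, v q) - σ (m + 1)) := by
    rw [ht]
    ring
  rw [e]
  refine (abs_add_le _ _).trans ?_
  rw [abs_mul, abs_mul, abs_of_nonneg hθ0, abs_of_nonneg (by linarith : 0 ≤ 1 - θ)]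
  nlinarith

end Pool.Agent.U581.WW
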