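import Pool.Agent.U581.WW.App

/-!
# The invariance principle for weighted sums: changes of the time
-/

set_option autoImplicit false
set_option linter.unusedSectionVars false

namespace Pool.Agent.U581.WW

open Finset Filter Topology Pool.Agent.Y722.HS Pool.Agent.X280.BP Pool.Agent.X280.UC
  Pool.Agent.X280.HG MeasureTheory ProbabilityTheory Pool.Agent.U581.BM Pool.Agent.U581.FL
  Pool.Agent.U62.RB Pool.Agent.U62.CL
open scoped BoundedContinuousFunction NNReal

variable {ι : Type} [Fintype ι] [DecidableEq ι] {k : ℕ} {C : ℝ}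

/-- **the modulus of continuity** -/
theorem mod_ww (hC : 0 ≤ C) (a : Fin k) {ε : ℝ} (hε : 0 < ε) {η : ℝ} (hη : 0 < η) :
    ∃ N : ℕ, 0 < N ∧ ∃ K : ℕ, ∀ D : WD ι k, D.Ok C K →
      (nu D.H).real {c : ι → ℤ | ∃ s t : unitInterval, |(s : ℝ) - t| ≤ 1 / N ∧
        ε < |D.X c a s - D.X c a t|} ≤ η := by
  obtain ⟨lam, hlamd⟩ : ∃ lam, lam = ε / 6 := ⟨_, rfl⟩
  have hlam : 0 < lam := by rw [hlamd]; positivity
  obtain ⟨A, hA⟩ : ∃ A, A = 2916 * A5 C := ⟨_, rfl⟩
  have hA0 : 0 ≤ A := by rw [hA]; have := A5_pos hC; positivity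
  obtain ⟨N1, hN1⟩ := exists_nat_ge (9 * A / lam ^ 4 / η)
  obtain ⟨N, hN⟩ : ∃ N, N = max N1 1 := ⟨_, rfl⟩
  have hN0 : 0 < N := by
    have := le_max_right N1 1
    omega
  have hNr : (0 : ℝ) < N := by exact_mod_cast hN0
  have hKN : 9 * A / lam ^ 4 / N ≤ η := by
    have h1 : (N1 : ℝ) ≤ N := by
      rw [hN]
      exact_mod_cast le_max_left N1 1
    rw [div_le_iff₀ hη] at hN1
    rw [div_le_iff₀ hNr]
    nlinarith
  obtain ⟨d2, hd2⟩ : ∃ d2 : ℕ, d2 = 2 ^ Fintype.card ι := ⟨_, rfl⟩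
  refine ⟨N, hN0, N + 11 + d2, fun D h => ?_⟩
  set K := N + 11 + d2 with hK
  have hK11 : 11 ≤ K := by omega
  have hKd : 2 ^ Fintype.card ι ≤ K := by omega
  have hKr : (0 : ℝ) < (K : ℝ) + 1 := by positivity
  have hV := h.pos
  set s := √D.V with hs
  have hs0 : 0 < s := Real.sqrt_pos.2 hV
  have hs2 : s ^ 2 = D.V := Real.sq_sqrt hV.le
  have hlams : 0 < lam * s := by positivity
  have hy : ∀ p ∈ D.P, p ≤ D.y := fun p hp => (h.prime p hp).2
  have hM : ∀ p ∈ D.P, D.v p ≤ D.V / (K + 1) := by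
    intro p hp
    rw [le_div_iff₀ hKr]
    exact h.vK p hp
  have hVK : D.V / ((K : ℝ) + 1) ≤ D.V / N := by
    refine div_le_div_of_nonneg_left hV.le hNr ?_
    have : (N : ℝ) ≤ K := by exact_mod_cast (by omega : N ≤ K)
    linarith
  set nd : ℕ → ℕ := fun i => node D.P D.v D.y (pt N i : unitInterval) with hnd
  set S : ℕ → Set (ι → ℤ) := fun i => {c : ι → ℤ | ∃ t, nd i ≤ t ∧ t ≤ nd (i + 1) + 1 ∧
    lam * s < |ps D.P (fun p => D.Z a p (red p c)) t - ps D.P (fun p => D.Z a p (red p c)) (nd i)|}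
    with hS
  have hval : ∀ i, i < N → ((pt N i : unitInterval) : ℝ) = i / N ∧
      ((pt N (i + 1) : unitInterval) : ℝ) = (i + 1) / N := by
    intro i hi
    refine ⟨pt_val hN0 hi.le, ?_⟩
    rw [pt_val hN0 hi]
    push_cast
    ring
  have hle : ∀ i, i < N → ((pt N i : unitInterval) : ℝ) ≤ (pt N (i + 1) : unitInterval) := by
    intro i hi
    obtain ⟨v1, v2⟩ := hval i hi
    rw [v1, v2]
    apply div_le_div_of_nonneg_right _ hNr.le
    linarith
  have hmax : ∀ i < N, (nu D.H).real (S i) ≤ 9 * A / lam ^ 4 / N ^ 2 := by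
    intro i hi
    obtain ⟨v1, v2⟩ := hval i hi
    have hmn : nd i ≤ nd (i + 1) := node_mono h.v0 hy (pt N i).2.1 (hle i hi)
    refine (WD.block_prob h hC hK11 hKd a (show nd i ≤ nd (i + 1) + 1 by omega) hlams).trans ?_
    obtain ⟨-, a2, -⟩ := node_spec h.v0 hy (pt N (i + 1)).2.1
    have a3 := node_clock h.v0 hy hM (by positivity) (pt N i).2.1 (pt N i).2.2
    change ps D.P D.v (nd (i + 1)) ≤ ((pt N (i + 1) : unitInterval) : ℝ) * D.V at a2
    change ((pt N i : unitInterval) : ℝ) * D.V - D.V / (K + 1) ≤ ps D.P D.v (nd i) at a3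
    have a4 : ps D.P D.v (nd (i + 1) + 1) ≤ ps D.P D.v (nd (i + 1)) + D.V / (K + 1) := by
      rw [ps_succ]
      have : (if nd (i + 1) ∈ D.P then D.v (nd (i + 1)) else 0) ≤ D.V / (K + 1) := by
        split_ifs with h1
        · exact hM _ h1
        · positivity
      linarith
    rw [v2] at a2
    rw [v1] at a3
    have e1 : ((i : ℝ) + 1) / N * D.V = i / N * D.V + D.V / N := by ring
    have h0 : 0 ≤ ps D.P D.v (nd (i + 1) + 1) - ps D.P D.v (nd i) :=
      sub_nonneg.2 (ps_mono (fun p hp => (h.v0 p hp).le) (by omega))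
    have h1 : ps D.P D.v (nd (i + 1) + 1) - ps D.P D.v (nd i) ≤ 3 * (D.V / N) := by linarith
    have h2 : (ps D.P D.v (nd (i + 1) + 1) - ps D.P D.v (nd i)) ^ 2 ≤ (3 * (D.V / N)) ^ 2 :=
      pow_le_pow_left₀ h0 h1 2
    have h3 : (lam * s) ^ 4 = lam ^ 4 * D.V ^ 2 := by
      rw [mul_pow, show s ^ 4 = (s ^ 2) ^ 2 by ring, hs2]
    rw [← hA, h3]
    calc A * (ps D.P D.v (nd (i + 1) + 1) - ps D.P D.v (nd i)) ^ 2 / (lam ^ 4 * D.V ^ 2)
        ≤ A * (3 * (D.V / N)) ^ 2 / (lam ^ 4 * D.V ^ 2) := by gcongr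
      _ = _ := by
        field_simp
        ring
  have hsub : {c : ι → ℤ | ∃ s t : unitInterval, |(s : ℝ) - t| ≤ 1 / N ∧
      ε < |D.X c a s - D.X c a t|} ⊆ ⋃ i ∈ Finset.range N, S i := by
    intro c hlt
    by_contra hcon
    rw [hS] at hcon
    simp only [Set.mem_iUnion, Set.mem_ofPred_eq, not_exists, not_and, not_lt,
      Finset.mem_range] at hcon
    have hb : ∀ i < N, ∀ t : unitInterval, (i : ℝ) ≤ N * t → (N : ℝ) * t ≤ i + 1 →
        |D.X c a t - D.X c a (pt N i)| ≤ 2 * lam := by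
      intro i hi t ht1 ht2
      obtain ⟨v1, v2⟩ := hval i hi
      have h2 := wpath_block h.v0 hy hV (fun p => D.Z a p (red p c)) (s := pt N i) (t := t)
        (s' := pt N (i + 1)) (by
          change ((pt N i : unitInterval) : ℝ) ≤ t
          rw [v1, div_le_iff₀ hNr]
          linarith) (by
          change (t : ℝ) ≤ ((pt N (i + 1) : unitInterval) : ℝ)
          rw [v2, le_div_iff₀ hNr]
          linarith) (E := lam * s) (fun n hn1 hn2 => hcon i hi n hn1 hn2)
      refine h2.trans (le_of_eq ?_)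
      change 2 * (lam * s) / s = 2 * lam
      field_simp
    have key : ∀ s t : unitInterval, (s : ℝ) ≤ t → (t : ℝ) ≤ s + 1 / N →
        |D.X c a s - D.X c a t| ≤ ε := by
      intro s' t hst hts
      obtain ⟨i, hi, hi1, hi2⟩ := exists_block hN0 s'
      have h3 := hb i hi s' hi1 hi2
      have h4 : (N : ℝ) * t ≤ N * s' + 1 := by
        have := mul_le_mul_of_nonneg_left hts hNr.le
        rw [mul_add, mul_one_div_cancel hNr.ne'] at this
        exact this
      have h5 : (N : ℝ) * s' ≤ N * t := mul_le_mul_of_nonneg_left hst hNr.le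
      rcases le_or_gt ((N : ℝ) * t) (i + 1) with h6 | h6
      · have h7 := hb i hi t (hi1.trans h5) h6
        have e : D.X c a s' - D.X c a t = (D.X c a s' - D.X c a (pt N i)) -
            (D.X c a t - D.X c a (pt N i)) := by ring
        rw [e]
        refine (abs_sub _ _).trans ?_
        rw [hlamd] at h3 h7
        linarith
      · have hi' : i + 1 < N := by
          have h7 : (N : ℝ) * t ≤ N := mul_le_of_le_one_right hNr.le t.2.2
          have h8 : ((i + 1 : ℕ) : ℝ) < N := by push_cast; linarith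
          exact_mod_cast h8
        have h7 := hb (i + 1) hi' t (by push_cast; exact h6.le) (by push_cast; linarith)
        have e1 : (N : ℝ) * ((pt N (i + 1) : unitInterval) : ℝ) = i + 1 := by
          rw [(hval i hi).2]
          field_simp
        have h8 := hb i hi (pt N (i + 1)) (by rw [e1]; linarith) (by rw [e1])
        have e : D.X c a s' - D.X c a t = (D.X c a s' - D.X c a (pt N i)) -
            (D.X c a (pt N (i + 1)) - D.X c a (pt N i)) -
            (D.X c a t - D.X c a (pt N (i + 1))) := by ring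
        rw [e]
        refine (abs_sub _ _).trans ((add_le_add (abs_sub _ _) le_rfl).trans ?_)
        rw [hlamd] at h3 h7 h8
        linarith
    obtain ⟨s', t, h1, h2⟩ := hlt
    rw [abs_le] at h1
    rcases le_total (s' : ℝ) t with h3 | h3
    · exact absurd h2 (not_lt.2 (key s' t h3 (by linarith)))
    · rw [abs_sub_comm] at h2
      exact absurd h2 (not_lt.2 (key t s' h3 (by linarith)))
  calc _ ≤ (nu D.H).real (⋃ i ∈ Finset.range N, S i) := measureReal_mono hsub (measure_ne_top _ _)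
    _ ≤ ∑ i ∈ Finset.range N, (nu D.H).real (S i) := measureReal_biUnion_finset_le _ _
    _ ≤ ∑ i ∈ Finset.range N, 9 * A / lam ^ 4 / N ^ 2 :=
        Finset.sum_le_sum fun i hi => hmax i (Finset.mem_range.1 hi)
    _ = 9 * A / lam ^ 4 / N := by
        rw [Finset.sum_const, Finset.card_range, nsmul_eq_mul]
        field_simp
    _ ≤ η := hKN

theorem X_zero {D : WD ι k} {K : ℕ} (h : D.Ok C K) (c : ι → ℤ) (a : Fin k) : D.X c a 0 = 0 := by
  unfold WD.X
  rw [wpath_apply]
  have e : ∀ p ∈ D.P, D.Z a p (red p c) * cl ((((0 : unitInterval) : ℝ) * (∑ q ∈ D.P, D.v q) -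
      ps D.P D.v p) / D.v p) = 0 := by
    intro p hp
    rw [cl_zero, mul_zero]
    have h1 := ps_nn (fun q hq => (h.v0 q hq).le) p
    have h2 := h.v0 p hp
    apply div_nonpos_of_nonpos_of_nonneg _ h2.le
    rw [show ((0 : unitInterval) : ℝ) = 0 from rfl, zero_mul]
    linarith
  rw [Finset.sum_eq_zero e, zero_div]

/-- chaining -/
theorem chain_le (w : C(unitInterval, ℝ)) (h0 : w 0 = 0) {N : ℕ} (hN : 0 < N) {ε : ℝ}
    (h : ∀ s t : unitInterval, |(s : ℝ) - t| ≤ 1 / N → |w s - w t| ≤ ε) (t : unitInterval) :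
    |w t| ≤ (N + 1) * ε := by
  have hNr : (0 : ℝ) < N := by exact_mod_cast hN
  have hε : 0 ≤ ε := (abs_nonneg _).trans (h 0 0 (by simp))
  have h1 : ∀ i ≤ N, |w (pt N i)| ≤ i * ε := by
    intro i
    induction i with
    | zero =>
      intro _
      have e : pt N 0 = 0 := by
        apply Subtype.ext
        rw [pt_val hN (Nat.zero_le _)]
        simp
      rw [e, h0]
      simp
    | succ i ih =>
      intro hi
      have h2 := ih (by omega)
      have h3 := h (pt N (i + 1)) (pt N i) (by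
        rw [pt_val hN hi, pt_val hN (by omega), ← sub_div]
        push_cast
        rw [add_sub_cancel_left, abs_of_pos (by positivity)])
      have e : w (pt N (i + 1)) = (w (pt N (i + 1)) - w (pt N i)) + w (pt N i) := by ring
      rw [e]
      refine (abs_add_le _ _).trans ?_
      push_cast
      linarith
  obtain ⟨m, hm, hm1, hm2⟩ := exists_block hN t
  have h2 := h1 m hm.le
  have h3 := h t (pt N m) (by
    rw [pt_val hN hm.le, abs_of_nonneg]
    · rw [sub_le_iff_le_add, ← add_div, le_div_iff₀ hNr]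
      linarith
    · rw [sub_nonneg, div_le_iff₀ hNr]
      linarith)
  have hmN : (m : ℝ) ≤ N := by exact_mod_cast hm.le
  have e : w t = (w t - w (pt N m)) + w (pt N m) := by ring
  rw [e]
  refine (abs_add_le _ _).trans ?_
  nlinarith

/-- **small changes of time and scale, one component** -/
theorem time_one (hC : 0 ≤ C) (a : Fin k) {δ : ℝ} (hδ : 0 < δ) {η : ℝ} (hη : 0 < η) :
    ∃ ρ : ℝ, 0 < ρ ∧ ∃ K : ℕ, ∀ D : WD ι k, D.Ok C K → ∀ (r : ℝ) (τ : C(unitInterval, unitInterval)),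
      |r - 1| ≤ ρ → (∀ t, |((τ t : unitInterval) : ℝ) - t| ≤ ρ) →
      (nu D.H).real {c : ι → ℤ | δ < dist (r • (D.X c a).comp τ) (D.X c a)} ≤ η := by
  obtain ⟨N1, hN1, K1, h1⟩ := mod_ww (ι := ι) hC a one_pos (half_pos hη)
  obtain ⟨N2, hN2, K2, h2⟩ := mod_ww (ι := ι) hC a (show 0 < δ / 4 by positivity) (half_pos hη)
  have hN1r : (0 : ℝ) < N1 := by exact_mod_cast hN1
  have hN2r : (0 : ℝ) < N2 := by exact_mod_cast hN2
  refine ⟨min (min 1 (1 / N2)) (δ / (2 * ((N1 : ℝ) + 1))), by positivity, max K1 K2,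
    fun D hD r τ hr hτ => ?_⟩
  have hr1 : |r - 1| ≤ 1 := hr.trans ((min_le_left _ _).trans (min_le_left _ _))
  have hr2 : |r - 1| ≤ δ / (2 * ((N1 : ℝ) + 1)) := hr.trans (min_le_right _ _)
  have hτ2 : ∀ t, |((τ t : unitInterval) : ℝ) - t| ≤ 1 / N2 := fun t =>
    (hτ t).trans ((min_le_left _ _).trans (min_le_right _ _))
  have g1 := h1 D (hD.mono (le_max_left _ _))
  have g2 := h2 D (hD.mono (le_max_right _ _))
  set S1 := {c : ι → ℤ | ∃ s t : unitInterval, |(s : ℝ) - t| ≤ 1 / N1 ∧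
        1 < |D.X c a s - D.X c a t|} with hS1
  set S2 := {c : ι → ℤ | ∃ s t : unitInterval, |(s : ℝ) - t| ≤ 1 / N2 ∧
        δ / 4 < |D.X c a s - D.X c a t|} with hS2
  have hsub : {c : ι → ℤ | δ < dist (r • (D.X c a).comp τ) (D.X c a)} ⊆ S1 ∪ S2 := by
    intro c hc
    by_contra hcon
    rw [Set.mem_union, not_or] at hcon
    obtain ⟨c1, c2⟩ := hcon
    rw [hS1, Set.mem_ofPred_eq] at c1
    rw [hS2, Set.mem_ofPred_eq] at c2
    push Not at c1 c2
    have hb : ∀ t, |D.X c a t| ≤ ((N1 : ℝ) + 1) * 1 :=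
      chain_le (D.X c a) (X_zero hD c a) hN1 c1
    have hle : dist (r • (D.X c a).comp τ) (D.X c a) ≤ δ := by
      rw [ContinuousMap.dist_le hδ.le]
      intro t
      rw [Real.dist_eq]
      change |r * D.X c a (τ t) - D.X c a t| ≤ δ
      have e : r * D.X c a (τ t) - D.X c a t = r * (D.X c a (τ t) - D.X c a t) +
          (r - 1) * D.X c a t := by ring
      rw [e]
      refine (abs_add_le _ _).trans ?_
      rw [abs_mul, abs_mul]
      have h3 := c2 (τ t) t (hτ2 t)
      have h4 : |r| ≤ 2 := by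
        have := abs_add_le (r - 1) 1
        rw [sub_add_cancel, abs_one] at this
        linarith
      have h5 := hb t
      rw [mul_one] at h5
      have h6 : |r - 1| * |D.X c a t| ≤ δ / (2 * ((N1 : ℝ) + 1)) * ((N1 : ℝ) + 1) :=
        mul_le_mul hr2 h5 (abs_nonneg _) (by positivity)
      have h7 : δ / (2 * ((N1 : ℝ) + 1)) * ((N1 : ℝ) + 1) = δ / 2 := by
        field_simp
      have h8 : |r| * |D.X c a (τ t) - D.X c a t| ≤ 2 * (δ / 4) :=
        mul_le_mul h4 h3 (abs_nonneg _) (by norm_num)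
      linarith
    exact absurd hc (not_lt.2 hle)
  calc (nu D.H).real {c : ι → ℤ | δ < dist (r • (D.X c a).comp τ) (D.X c a)}
      ≤ (nu D.H).real (S1 ∪ S2) := measureReal_mono hsub (measure_ne_top _ _)
    _ ≤ (nu D.H).real S1 + (nu D.H).real S2 := measureReal_union_le _ _
    _ ≤ η / 2 + η / 2 := add_le_add g1 g2
    _ = η := by ring

/-- **small changes of time and scale** -/
theorem time_all (hC : 0 ≤ C) {δ : ℝ} (hδ : 0 < δ) {η : ℝ} (hη : 0 < η) :
    ∃ ρ : ℝ, 0 < ρ ∧ ∃ K : ℕ, ∀ D : WD ι k, D.Ok C K → ∀ (r : ℝ) (τ : C(unitInterval, unitInterval)),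
      |r - 1| ≤ ρ → (∀ t, |((τ t : unitInterval) : ℝ) - t| ≤ ρ) →
      (nu D.H).real {c : ι → ℤ | δ < dist (fun a => r • (D.X c a).comp τ) (D.X c)} ≤ η := by
  rcases Nat.eq_zero_or_pos k with hk | hk
  · subst hk
    refine ⟨1, one_pos, 0, fun D _ r τ _ _ => ?_⟩
    have e : {c : ι → ℤ | δ < dist (fun a => r • (D.X c a).comp τ) (D.X c)} = ∅ := by
      ext c
      simp only [Set.mem_ofPred_eq, Set.mem_empty_iff_false, iff_false, not_lt]
      rw [dist_pi_le_iff hδ.le]
      intro a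
      exact a.elim0
    rw [e, measureReal_empty]
    exact hη.le
  · have hkr : (0 : ℝ) < k := by exact_mod_cast hk
    choose ρ hρ K hK using fun a : Fin k => time_one (ι := ι) hC a hδ (show 0 < η / k by positivity)
    have hne : (Finset.univ : Finset (Fin k)).Nonempty := ⟨⟨0, hk⟩, Finset.mem_univ _⟩
    refine ⟨Finset.univ.inf' hne ρ, (Finset.lt_inf'_iff hne).2 fun a _ => hρ a,
      Finset.univ.sup K, fun D hD r τ hr hτ => ?_⟩
    have h1 : ∀ a, (nu D.H).real {c : ι → ℤ | δ < dist (r • (D.X c a).comp τ) (D.X c a)} ≤ η / k :=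
      fun a => hK a D (hD.mono (Finset.le_sup (Finset.mem_univ a))) r τ
        (hr.trans (Finset.inf'_le _ (Finset.mem_univ a)))
        (fun t => (hτ t).trans (Finset.inf'_le _ (Finset.mem_univ a)))
    have hsub : {c : ι → ℤ | δ < dist (fun a => r • (D.X c a).comp τ) (D.X c)} ⊆
        ⋃ a ∈ (Finset.univ : Finset (Fin k)),
          {c : ι → ℤ | δ < dist (r • (D.X c a).comp τ) (D.X c a)} := by
      intro c hc
      by_contra hcon
      simp only [Set.mem_iUnion, Set.mem_ofPred_eq, not_exists, Finset.mem_univ, true_and,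
        not_lt, exists_prop] at hcon
      rw [Set.mem_ofPred_eq] at hc
      refine absurd hc (not_lt.2 ?_)
      rw [dist_pi_le_iff hδ.le]
      exact hcon
    calc _ ≤ (nu D.H).real (⋃ a ∈ (Finset.univ : Finset (Fin k)),
          {c : ι → ℤ | δ < dist (r • (D.X c a).comp τ) (D.X c a)}) :=
          measureReal_mono hsub (measure_ne_top _ _)
      _ ≤ ∑ a, (nu D.H).real {c : ι → ℤ | δ < dist (r • (D.X c a).comp τ) (D.X c a)} :=
          measureReal_biUnion_finset_le _ _
      _ ≤ ∑ _a : Fin k, η / k := Finset.sum_le_sum fun a _ => h1 a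
      _ = η := by
          rw [Finset.sum_const, Finset.card_univ, Fintype.card_fin, nsmul_eq_mul]
          field_simp

section

variable [MeasurableSpace C(unitInterval, ℝ)] [BorelSpace C(unitInterval, ℝ)]
  {Ω : Type*} [MeasurableSpace Ω] {ν : Measure Ω} [IsProbabilityMeasure ν]
  {W : Fin k → ℝ≥0 → Ω → ℝ} {U : Fin k → ∀ p : ℕ, (ι → ZMod p) → ℝ} {μ : Fin k → ℝ}
  {g : Fin k → Fin k → ℝ} {C0 B : ℝ}

/-- **the invariance principle in other time scales** -/
theorem app_time (h : LDs U μ g C) (hμ : ∀ a, |μ a| ≤ C) (hC0 : 1 ≤ C0)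
    (hB : ∀ a p, p.Prime → ∀ x, |U a p x| ≤ B * √p) (hW : IndBrown W ν)
    (F : (Fin k → C(unitInterval, ℝ)) →ᵇ ℝ) {ε : ℝ} (hε : 0 < ε) :
    ∃ ρ : ℝ, 0 < ρ ∧ ∃ L : ℕ, ∀ D : AD k, D.Ok g C0 L → ∀ (r : ℝ) (τ : C(unitInterval, unitInterval)),
      |r - 1| ≤ ρ → (∀ t, |((τ t : unitInterval) : ℝ) - t| ≤ ρ) →
      |EB D.H (fun c => F (fun a => r • (D.Y U μ c a).comp τ)) -
        ∫ ω, F (fun a => bpath (W a) ω) ∂ν| ≤ ε := by
  by_contra hcon
  push Not at hcon
  choose D hD1 r τ hr hτ hD2 using fun j : ℕ => hcon (1 / ((j : ℝ) + 1)) (by positivity) j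
  have hC1 : 0 ≤ C1 C C0 := C1_nn h.C1 (by linarith)
  have hD : ∀ K, ∀ᶠ j in atTop, ((D j).toWD U).Ok (C1 C C0) K := by
    intro K
    obtain ⟨L, hL⟩ := AD.Ok.toWD h hμ hC0 hB K
    filter_upwards [eventually_ge_atTop L] with j hj
    exact hL (D j) ((hD1 j).mono hj)
  have hρ : ∀ ρ : ℝ, 0 < ρ → ∀ᶠ j : ℕ in atTop, 1 / ((j : ℝ) + 1) ≤ ρ := fun ρ hρ =>
    (tendsto_one_div_add_atTop_nhds_zero_nat (𝕜 := ℝ)).eventually (ge_mem_nhds hρ)
  have hlim := ww_near hC1 hW (fun j => (D j).toWD U) hD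
    (fun j c a => r j • ((D j).Y U μ c a).comp (τ j)) (fun δ hδ => by
      rw [Metric.tendsto_atTop]
      intro η hη
      obtain ⟨L, hL⟩ := Y_close (ι := ι) h hμ hC0 (show 0 < δ / 4 by positivity)
      obtain ⟨ρ, hρ0, K, hK⟩ := time_all (ι := ι) (k := k) hC1 (half_pos hδ) (half_pos hη)
      obtain ⟨J, hJ⟩ := eventually_atTop.1 (((eventually_ge_atTop L).and (hD K)).and
        ((hρ ρ hρ0).and (hρ 1 one_pos)))
      refine ⟨J, fun j hj => ?_⟩
      obtain ⟨⟨j1, j2⟩, j3, j4⟩ := hJ j hj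
      rw [Real.dist_eq, sub_zero, abs_of_nonneg measureReal_nonneg]
      refine lt_of_le_of_lt ?_ (half_lt_self hη)
      refine le_trans (measureReal_mono (fun c hc => ?_) (measure_ne_top _ _))
        (hK _ j2 (r j) (τ j) ((hr j).trans j3) (fun t => (hτ j t).trans j3))
      rw [Set.mem_ofPred_eq] at hc ⊢
      by_contra hcon
      push Not at hcon
      refine absurd hc (not_lt.2 ?_)
      have hcl := hL (D j) ((hD1 j).mono j1) c
      rw [dist_pi_le_iff hδ.le]
      intro a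
      have h1 : dist (((D j).Y U μ c) a) ((((D j).toWD U).X c) a) ≤ δ / 4 :=
        (dist_le_pi_dist _ _ a).trans hcl
      have h2 : dist (r j • ((((D j).toWD U).X c) a).comp (τ j)) ((((D j).toWD U).X c) a) ≤ δ / 2 :=
        (dist_le_pi_dist (fun a => r j • ((((D j).toWD U).X c) a).comp (τ j))
          (((D j).toWD U).X c) a).trans hcon
      have hrj : |r j| ≤ 2 := by
        have h3 := abs_add_le (r j - 1) 1
        rw [sub_add_cancel, abs_one] at h3
        have h4 := (hr j).trans j4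
        linarith
      have h3 : dist (r j • (((D j).Y U μ c) a).comp (τ j))
          (r j • ((((D j).toWD U).X c) a).comp (τ j)) ≤ δ / 2 := by
        rw [ContinuousMap.dist_le (by positivity)]
        intro t
        rw [Real.dist_eq]
        change |r j * ((D j).Y U μ c a) (τ j t) - r j * (((D j).toWD U).X c a) (τ j t)| ≤ δ / 2
        rw [← mul_sub, abs_mul]
        have h4 := (ContinuousMap.dist_le (by positivity)).1 h1 (τ j t)
        rw [Real.dist_eq] at h4
        calc |r j| * |((D j).Y U μ c a) (τ j t) - (((D j).toWD U).X c a) (τ j t)| ≤ 2 * (δ / 4) :=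
              mul_le_mul hrj h4 (abs_nonneg _) (by norm_num)
          _ = δ / 2 := by ring
      calc dist (r j • (((D j).Y U μ c) a).comp (τ j)) ((((D j).toWD U).X c) a)
          ≤ dist (r j • (((D j).Y U μ c) a).comp (τ j)) (r j • ((((D j).toWD U).X c) a).comp (τ j)) +
            dist (r j • ((((D j).toWD U).X c) a).comp (τ j)) ((((D j).toWD U).X c) a) :=
            dist_triangle _ _ _
        _ ≤ δ / 2 + δ / 2 := add_le_add h3 h2
        _ = δ := by ring) F
  rw [Metric.tendsto_atTop] at hlim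
  obtain ⟨J, hJ⟩ := hlim ε hε
  have h4 := hJ J le_rfl
  rw [Real.dist_eq] at h4
  exact absurd h4 (not_lt.2 (hD2 J).le)

end

end Pool.Agent.U581.WW
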