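import Pool.Agent.U581.WW.Model
import Pool.Agent.U581.FL.Unb

/-!
# Weighted sums of local data over primes: truncation
-/

set_option autoImplicit false
set_option linter.unusedSectionVars false

namespace Pool.Agent.U581.WW

open Finset Filter Topology Pool.Agent.Y722.HS Pool.Agent.X280.BP Pool.Agent.X280.UC
  Pool.Agent.X280.HG MeasureTheory Pool.Agent.U581.BM Pool.Agent.U581.FL
  Pool.Agent.U62.RB

variable {ι : Type} [Fintype ι] [DecidableEq ι] {k : ℕ} {C : ℝ}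

/-- the truncated function, centred -/
noncomputable def TZ (D : WD ι k) (τ : ℝ) (a : Fin k) (p : ℕ) (x : ι → ZMod p) : ℝ :=
  trunc (τ * √(D.v p)) (D.Z a p x) - EMt p (fun x => trunc (τ * √(D.v p)) (D.Z a p x))

/-- the rest -/
noncomputable def RZ (D : WD ι k) (τ : ℝ) (a : Fin k) (p : ℕ) (x : ι → ZMod p) : ℝ :=
  D.Z a p x - TZ D τ a p x

theorem EM_var_le (p : ℕ) [NeZero p] (f : (ι → ZMod p) → ℝ) :
    EM p (fun x => (f x - EM p f) ^ 2) ≤ EM p (fun x => f x ^ 2) := by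
  have e : (fun x => (f x - EM p f) ^ 2) = fun x => f x ^ 2 - (2 * EM p f * f x - EM p f ^ 2) := by
    funext x
    ring
  rw [e, EM_sub' p (fun x => f x ^ 2) (fun x => 2 * EM p f * f x - EM p f ^ 2),
    EM_sub' p (fun x => 2 * EM p f * f x) (fun _ => EM p f ^ 2), EM_const', EM_mulF]
  nlinarith [sq_nonneg (EM p f)]

theorem trunc_sub_sq {A : ℝ} (hA : 0 < A) (x : ℝ) : (x - trunc A x) ^ 2 ≤ x ^ 4 / A ^ 2 := by
  unfold trunc
  split_ifs with h
  · rw [sub_self, zero_pow (by norm_num)]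
    positivity
  · push Not at h
    rw [sub_zero, le_div_iff₀ (by positivity)]
    have h1 : A ^ 2 ≤ x ^ 2 := by
      rw [← sq_abs x]
      exact pow_le_pow_left₀ hA.le h.le 2
    calc x ^ 2 * A ^ 2 ≤ x ^ 2 * x ^ 2 := mul_le_mul_of_nonneg_left h1 (sq_nonneg _)
      _ = x ^ 4 := by ring

section Local

variable {D : WD ι k} {K : ℕ} {τ : ℝ}

theorem TZ_bound (h : D.Ok C K) (hτ : 1 ≤ τ) (a : Fin k) {p : ℕ} (hp : p ∈ D.P) (x : ι → ZMod p) :
    |TZ D τ a p x| ≤ 2 * τ * √(D.v p) := by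
  have hne : NeZero p := ⟨(h.prime p hp).1.ne_zero⟩
  have hA : 0 ≤ τ * √(D.v p) := by positivity
  unfold TZ
  rw [EMt_eq]
  have h1 := trunc_abs hA (D.Z a p x)
  have h2 := EM_abs_le p (fun x => trunc (τ * √(D.v p)) (D.Z a p x)) (fun _ => τ * √(D.v p))
    fun x => trunc_abs hA (D.Z a p x)
  rw [EM_const'] at h2
  refine (abs_sub _ _).trans ?_
  linarith

theorem TZ_mean (h : D.Ok C K) (a : Fin k) {p : ℕ} (hp : p ∈ D.P) : EMt p (TZ D τ a p) = 0 := by
  have hne : NeZero p := ⟨(h.prime p hp).1.ne_zero⟩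
  unfold TZ
  rw [EMt_eq, EMt_eq, EM_sub' p (fun x => trunc (τ * √(D.v p)) (D.Z a p x)), EM_const', sub_self]

theorem RZ_eq (h : D.Ok C K) (a : Fin k) {p : ℕ} (hp : p ∈ D.P) [NeZero p] (x : ι → ZMod p) :
    RZ D τ a p x = (D.Z a p x - trunc (τ * √(D.v p)) (D.Z a p x)) -
      EM p (fun x => D.Z a p x - trunc (τ * √(D.v p)) (D.Z a p x)) := by
  have h1 := h.mean a p hp
  rw [EMt_eq] at h1
  rw [EM_sub' p (D.Z a p) (fun x => trunc (τ * √(D.v p)) (D.Z a p x)), h1]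
  unfold RZ TZ
  rw [EMt_eq]
  ring

theorem RZ_mean (h : D.Ok C K) (a : Fin k) {p : ℕ} (hp : p ∈ D.P) : EMt p (RZ D τ a p) = 0 := by
  have hne : NeZero p := ⟨(h.prime p hp).1.ne_zero⟩
  have h1 := h.mean a p hp
  have h2 := TZ_mean (τ := τ) h a hp
  rw [EMt_eq] at h1 h2 ⊢
  unfold RZ
  rw [EM_sub' p (D.Z a p) (TZ D τ a p), h1, h2, sub_zero]

theorem RZ_two (h : D.Ok C K) (hτ : 1 ≤ τ) (a : Fin k) {p : ℕ} (hp : p ∈ D.P) :
    EMt p (fun x => RZ D τ a p x ^ 2) ≤ C * D.v p / τ ^ 2 := by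
  have hne : NeZero p := ⟨(h.prime p hp).1.ne_zero⟩
  have hv := h.v0 p hp
  have hA : 0 < τ * √(D.v p) := by
    have := Real.sqrt_pos.2 hv
    positivity
  rw [EMt_eq]
  have e : (fun x => RZ D τ a p x ^ 2) = fun x =>
      ((fun x => D.Z a p x - trunc (τ * √(D.v p)) (D.Z a p x)) x -
        EM p (fun x => D.Z a p x - trunc (τ * √(D.v p)) (D.Z a p x))) ^ 2 := by
    funext x
    rw [RZ_eq h a hp x]
  rw [e]
  refine (EM_var_le p _).trans ?_
  have h4 := h.four a p hp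
  rw [EMt_eq] at h4
  have h5 : EM p (fun x => (D.Z a p x - trunc (τ * √(D.v p)) (D.Z a p x)) ^ 2) ≤
      EM p (fun x => 1 / (τ * √(D.v p)) ^ 2 * D.Z a p x ^ 4) := by
    refine EM_monoF p _ _ fun x => ?_
    refine (trunc_sub_sq hA _).trans (le_of_eq ?_)
    ring
  rw [EM_mulF] at h5
  refine h5.trans ?_
  rw [mul_pow, Real.sq_sqrt hv.le]
  calc 1 / (τ ^ 2 * D.v p) * EM p (fun x => D.Z a p x ^ 4) ≤ 1 / (τ ^ 2 * D.v p) * (C * D.v p ^ 2) := by
        gcongr
    _ = _ := by field_simp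

theorem RZ_bound (h : D.Ok C K) (hτ : 1 ≤ τ) (a : Fin k) {p : ℕ} (hp : p ∈ D.P) (x : ι → ZMod p) :
    |RZ D τ a p x| ≤ (D.y + 2 * τ) * √(D.v p) := by
  unfold RZ
  refine (abs_sub _ _).trans ?_
  have h1 := h.bound a p hp x
  have h2 := TZ_bound h hτ a hp x
  rw [add_mul]
  exact add_le_add h1 h2

/-- squares of linear combinations -/
theorem EM_comb (p : ℕ) [NeZero p] (c : Fin k → ℝ) (f : Fin k → (ι → ZMod p) → ℝ) :
    EM p (fun x => (∑ a, c a * f a x) ^ 2) ≤ k * ∑ a, c a ^ 2 * EM p (fun x => f a x ^ 2) := by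
  have h1 : EM p (fun x => (∑ a, c a * f a x) ^ 2) ≤
      EM p (fun x => (k : ℝ) * ∑ a, c a ^ 2 * f a x ^ 2) := by
    refine EM_monoF p _ _ fun x => ?_
    refine (sq_sum_le_card_mul_sum_sq (s := Finset.univ) (f := fun a => c a * f a x)).trans ?_
    rw [Finset.card_univ, Fintype.card_fin]
    refine le_of_eq ?_
    congr 1
    exact Finset.sum_congr rfl fun a _ => mul_pow _ _ _
  refine h1.trans (le_of_eq ?_)
  rw [EM_mulF, EM_sumF]
  congr 1
  refine Finset.sum_congr rfl fun a _ => ?_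
  rw [EM_mulF]

end Local

/-- the weights of the values of the paths -/
noncomputable def cw (D : WD ι k) (N : ℕ) (θ : ℕ → ℝ) (p : ℕ) : ℝ :=
  ∑ i ∈ Finset.range (N + 1), θ i * cl ((((pt N i : unitInterval) : ℝ) * (∑ q ∈ D.P, D.v q) -
    ps D.P D.v p) / D.v p)

/-- the weights of the values at the nodes -/
noncomputable def iw (D : WD ι k) (N : ℕ) (θ : ℕ → ℝ) (p : ℕ) : ℝ :=
  ∑ i ∈ Finset.range (N + 1), θ i * (if p < node D.P D.v D.y (pt N i : unitInterval) then 1 else 0)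

theorem cw_le (D : WD ι k) (N : ℕ) (θ : ℕ → ℝ) (p : ℕ) :
    |cw D N θ p| ≤ ∑ i ∈ Finset.range (N + 1), |θ i| := by
  unfold cw
  refine (Finset.abs_sum_le_sum_abs _ _).trans (Finset.sum_le_sum fun i _ => ?_)
  rw [abs_mul]
  have h := cl_mem ((((pt N i : unitInterval) : ℝ) * (∑ q ∈ D.P, D.v q) - ps D.P D.v p) / D.v p)
  rw [abs_of_nonneg h.1]
  exact mul_le_of_le_one_right (abs_nonneg _) h.2

theorem iw_le (D : WD ι k) (N : ℕ) (θ : ℕ → ℝ) (p : ℕ) :
    |iw D N θ p| ≤ ∑ i ∈ Finset.range (N + 1), |θ i| := by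
  unfold iw
  refine (Finset.abs_sum_le_sum_abs _ _).trans (Finset.sum_le_sum fun i _ => ?_)
  split_ifs <;> simp

theorem cw_iw {D : WD ι k} {K : ℕ} (h : D.Ok C K) (N : ℕ) (θ : ℕ → ℝ) :
    (∑ p ∈ D.P, (cw D N θ p - iw D N θ p) ^ 2 * D.v p) * (K + 1) ≤
      (∑ i ∈ Finset.range (N + 1), |θ i|) ^ 2 * D.V := by
  set S := ∑ i ∈ Finset.range (N + 1), |θ i| with hS
  have hS0 : 0 ≤ S := Finset.sum_nonneg fun _ _ => abs_nonneg _
  have hV := h.pos
  set nd : ℕ → ℕ := fun i => node D.P D.v D.y (pt N i : unitInterval) with hnd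
  have h1 : ∀ p ∈ D.P, |cw D N θ p - iw D N θ p| ≤
      ∑ i ∈ Finset.range (N + 1), |θ i| * (if p = nd i then (1 : ℝ) else 0) := by
    intro p hp
    unfold cw iw
    rw [← Finset.sum_sub_distrib]
    refine (Finset.abs_sum_le_sum_abs _ _).trans (Finset.sum_le_sum fun i _ => ?_)
    rw [← mul_sub, abs_mul]
    refine mul_le_mul_of_nonneg_left ?_ (abs_nonneg _)
    have hy : ∀ p ∈ D.P, p ≤ D.y := fun p hp => (h.prime p hp).2
    rcases lt_trichotomy p (nd i) with h2 | h2 | h2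
    · rw [cl_lt h.v0 hy (pt N i).2.1 hp h2, if_pos h2, sub_self, abs_zero, if_neg h2.ne]
    · rw [if_neg (by rw [h2]; exact lt_irrefl _), if_pos h2, sub_zero]
      have h3 := cl_mem ((((pt N i : unitInterval) : ℝ) * (∑ q ∈ D.P, D.v q) - ps D.P D.v p) / D.v p)
      rw [abs_of_nonneg h3.1]
      exact h3.2
    · rw [cl_gt h.v0 hy (pt N i).2.1 hp h2, if_neg (by change ¬ p < nd i; omega), sub_self, abs_zero,
        if_neg h2.ne']
  have h2 : ∀ p ∈ D.P, (cw D N θ p - iw D N θ p) ^ 2 * D.v p ≤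
      S * ∑ i ∈ Finset.range (N + 1), |θ i| * (if p = nd i then D.v p else 0) := by
    intro p hp
    have h3 := h1 p hp
    have h4 : ∑ i ∈ Finset.range (N + 1), |θ i| * (if p = nd i then (1 : ℝ) else 0) ≤ S := by
      refine Finset.sum_le_sum fun i _ => ?_
      split_ifs <;> simp
    have h5 : (cw D N θ p - iw D N θ p) ^ 2 ≤
        S * ∑ i ∈ Finset.range (N + 1), |θ i| * (if p = nd i then (1 : ℝ) else 0) := by
      rw [← sq_abs, sq]
      exact mul_le_mul (h3.trans h4) h3 (abs_nonneg _) hS0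
    have hv := (h.v0 p hp).le
    refine (mul_le_mul_of_nonneg_right h5 hv).trans (le_of_eq ?_)
    have h6 : (∑ i ∈ Finset.range (N + 1), |θ i| * (if p = nd i then (1 : ℝ) else 0)) * D.v p =
        ∑ i ∈ Finset.range (N + 1), |θ i| * (if p = nd i then D.v p else 0) := by
      rw [Finset.sum_mul]
      refine Finset.sum_congr rfl fun i _ => ?_
      split_ifs <;> ring
    rw [mul_assoc, h6]
  have h3 : ∑ p ∈ D.P, (cw D N θ p - iw D N θ p) ^ 2 * D.v p ≤
      S * ∑ i ∈ Finset.range (N + 1), |θ i| * (if nd i ∈ D.P then D.v (nd i) else 0) := by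
    refine (Finset.sum_le_sum h2).trans (le_of_eq ?_)
    rw [← Finset.mul_sum, Finset.sum_comm]
    congr 1
    refine Finset.sum_congr rfl fun i _ => ?_
    rw [← Finset.mul_sum, Finset.sum_ite_eq']
  have h4 : ∀ i, (if nd i ∈ D.P then D.v (nd i) else 0) * ((K : ℝ) + 1) ≤ D.V := by
    intro i
    split_ifs with h5
    · exact h.vK _ h5
    · rw [zero_mul]
      exact hV.le
  calc (∑ p ∈ D.P, (cw D N θ p - iw D N θ p) ^ 2 * D.v p) * (K + 1)
      ≤ (S * ∑ i ∈ Finset.range (N + 1), |θ i| * (if nd i ∈ D.P then D.v (nd i) else 0)) * (K + 1) :=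
        mul_le_mul_of_nonneg_right h3 (by positivity)
    _ = S * ∑ i ∈ Finset.range (N + 1), |θ i| * ((if nd i ∈ D.P then D.v (nd i) else 0) * (K + 1)) := by
        have h6 : (∑ i ∈ Finset.range (N + 1), |θ i| * (if nd i ∈ D.P then D.v (nd i) else 0)) *
            ((K : ℝ) + 1) = ∑ i ∈ Finset.range (N + 1), |θ i| *
              ((if nd i ∈ D.P then D.v (nd i) else 0) * ((K : ℝ) + 1)) := by
          rw [Finset.sum_mul]
          exact Finset.sum_congr rfl fun i _ => by ring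
        rw [mul_assoc, h6]
    _ ≤ S * ∑ i ∈ Finset.range (N + 1), |θ i| * D.V := by
        refine mul_le_mul_of_nonneg_left (Finset.sum_le_sum fun i _ => ?_) hS0
        exact mul_le_mul_of_nonneg_left (h4 i) (abs_nonneg _)
    _ = S ^ 2 * D.V := by rw [← Finset.sum_mul, ← hS]; ring

end Pool.Agent.U581.WW
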